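import Pool.Agent.Helper7.Dem.Mediant

universe u

set_option linter.unusedSectionVars false

namespace Dem

variable {k A : Type u} [Field k] [Ring A] [Algebra k A]

/-- direct sum of two complexes -/
abbrev Pres.add (X Y : Pres k A) : Pres k A where
  P1 := FDMod.of k A (X.P1 × Y.P1)
  P0 := FDMod.of k A (X.P0 × Y.P0)
  proj1 := inferInstanceAs (Module.Projective A (X.P1 × Y.P1))
  proj0 := inferInstanceAs (Module.Projective A (X.P0 × Y.P0))
  f := X.f.prodMap Y.f

section

variable {X Y : Pres k A} {N : Type u} [AddCommGroup N] [Module k N] [Module A N]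
  [IsScalarTower k A N] [Module.Finite k N]

lemma hd_prod {P Q : Type u} [AddCommGroup P] [Module k P] [Module A P] [IsScalarTower k A P]
    [Module.Finite k P] [AddCommGroup Q] [Module k Q] [Module A Q] [IsScalarTower k A Q]
    [Module.Finite k Q] : hd k A (P × Q) N = hd k A P N + hd k A Q N := by
  have h1 := LinearEquiv.finrank_eq
    (LinearMap.coprodEquiv k : ((P →ₗ[A] N) × (Q →ₗ[A] N)) ≃ₗ[k] (P × Q →ₗ[A] N))
  rw [Module.finrank_prod] at h1
  exact h1.symm

lemma chi_addP : chi k (X.add Y) N = chi k X N + chi k Y N := by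
  unfold chi
  have h1 : hd k A (X.add Y).P0 N = hd k A X.P0 N + hd k A Y.P0 N :=
    hd_prod (P := X.P0) (Q := Y.P0)
  have h2 : hd k A (X.add Y).P1 N = hd k A X.P1 N + hd k A Y.P1 N :=
    hd_prod (P := X.P1) (Q := Y.P1)
  rw [h1, h2]
  push_cast
  ring

lemma EZ_add_iff : EZ (X.add Y) N ↔ EZ X N ∧ EZ Y N := by
  constructor
  · intro h
    constructor
    · intro g
      obtain ⟨a, ha⟩ := h (g.coprod 0)
      refine ⟨a ∘ₗ LinearMap.inl A X.P0 Y.P0, ?_⟩
      ext x
      have := LinearMap.congr_fun ha (x, 0)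
      simpa using this
    · intro g
      obtain ⟨a, ha⟩ := h ((0 : X.P1 →ₗ[A] N).coprod g)
      refine ⟨a ∘ₗ LinearMap.inr A X.P0 Y.P0, ?_⟩
      ext x
      have := LinearMap.congr_fun ha (0, x)
      simpa using this
  · rintro ⟨h1, h2⟩ g
    obtain ⟨a, ha⟩ := h1 (g ∘ₗ LinearMap.inl A X.P1 Y.P1)
    obtain ⟨b, hb⟩ := h2 (g ∘ₗ LinearMap.inr A X.P1 Y.P1)
    refine ⟨a.coprod b, ?_⟩
    refine LinearMap.ext fun x => ?_
    obtain ⟨x, y⟩ := x
    have e1 := LinearMap.congr_fun ha x
    have e2 := LinearMap.congr_fun hb y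
    simp only [LinearMap.coe_comp, Function.comp_apply, LinearMap.inl_apply,
      LinearMap.inr_apply] at e1 e2
    change a (X.f x) + b (Y.f y) = g (x, y)
    rw [e1, e2, ← map_add]
    simp

/-- projection to the first summand -/
lemma exists_fst : ∃ π : (X.add Y).M →ₗ[A] X.M, Function.Surjective π := by
  refine ⟨(LinearMap.range (X.add Y).f).liftQ
    ((LinearMap.range X.f).mkQ ∘ₗ LinearMap.fst A X.P0 Y.P0) ?_, ?_⟩
  · rintro _ ⟨⟨x, y⟩, rfl⟩
    rw [LinearMap.mem_ker]
    change (LinearMap.range X.f).mkQ (X.f x) = 0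
    simp
  · intro z
    obtain ⟨x, rfl⟩ := Submodule.mkQ_surjective _ z
    exact ⟨Submodule.Quotient.mk (x, 0), rfl⟩

lemma exists_snd : ∃ π : (X.add Y).M →ₗ[A] Y.M, Function.Surjective π := by
  refine ⟨(LinearMap.range (X.add Y).f).liftQ
    ((LinearMap.range Y.f).mkQ ∘ₗ LinearMap.snd A X.P0 Y.P0) ?_, ?_⟩
  · rintro _ ⟨⟨x, y⟩, rfl⟩
    rw [LinearMap.mem_ker]
    change (LinearMap.range Y.f).mkQ (Y.f y) = 0
    simp
  · intro z
    obtain ⟨x, rfl⟩ := Submodule.mkQ_surjective _ z
    exact ⟨Submodule.Quotient.mk (0, x), rfl⟩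

lemma EZ_add_M {Z : Pres k A} (h1 : EZ Z X.M) (h2 : EZ Z Y.M) : EZ Z (X.add Y).M := by
  let a : X.M →ₗ[A] (X.add Y).M := (LinearMap.range X.f).liftQ
    ((LinearMap.range (X.add Y).f).mkQ ∘ₗ LinearMap.inl A X.P0 Y.P0) (by
      rintro _ ⟨x, rfl⟩
      rw [LinearMap.mem_ker]
      change (LinearMap.range (X.add Y).f).mkQ (X.f x, 0) = 0
      rw [Submodule.mkQ_apply, Submodule.Quotient.mk_eq_zero]
      exact ⟨(x, 0), by simp⟩)
  let b : Y.M →ₗ[A] (X.add Y).M := (LinearMap.range Y.f).liftQ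
    ((LinearMap.range (X.add Y).f).mkQ ∘ₗ LinearMap.inr A X.P0 Y.P0) (by
      rintro _ ⟨x, rfl⟩
      rw [LinearMap.mem_ker]
      change (LinearMap.range (X.add Y).f).mkQ (0, Y.f x) = 0
      rw [Submodule.mkQ_apply, Submodule.Quotient.mk_eq_zero]
      exact ⟨(0, x), by simp⟩)
  refine EZ_of_surj (N := X.M × Y.M) (a.coprod b) ?_ (EZ_prod h1 h2)
  intro z
  obtain ⟨⟨x, y⟩, rfl⟩ := Submodule.mkQ_surjective _ z
  refine ⟨(Submodule.Quotient.mk x, Submodule.Quotient.mk y), ?_⟩
  change (LinearMap.range (X.add Y).f).mkQ (x, 0) + (LinearMap.range (X.add Y).f).mkQ (0, y) = _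
  rw [← map_add]
  simp

end

/-- the zero complex -/
abbrev Pres.zero (k A : Type u) [Field k] [Ring A] [Algebra k A] : Pres k A where
  P1 := zeroMod k A
  P0 := zeroMod k A
  proj1 := inferInstanceAs (Module.Projective A PUnit.{u + 1})
  proj0 := inferInstanceAs (Module.Projective A PUnit.{u + 1})
  f := 0

/-- sum of a list of complexes -/
def Pres.lsum : List (Pres k A) → Pres k A
  | [] => Pres.zero k A
  | X :: L => X.add (Pres.lsum L)

section

variable {N : Type u} [AddCommGroup N] [Module k N] [Module A N]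
  [IsScalarTower k A N] [Module.Finite k N]

lemma chi_lsum (L : List (Pres k A)) :
    chi k (Pres.lsum L) N = (L.map (fun X => chi k X N)).sum := by
  induction L with
  | nil =>
    simp only [Pres.lsum, List.map_nil, List.sum_nil]
    unfold chi
    have := hd_zeroMod (k := k) (A := A) N
    simp only [this]
    simp
  | cons X L ih =>
    simp only [Pres.lsum, List.map_cons, List.sum_cons]
    rw [← ih]
    exact chi_addP

lemma EZ_lsum_iff (L : List (Pres k A)) : EZ (Pres.lsum L) N ↔ ∀ X ∈ L, EZ X N := by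
  induction L with
  | nil =>
    simp only [List.not_mem_nil, false_imp_iff, implies_true, iff_true]
    intro g
    refine ⟨0, ?_⟩
    refine LinearMap.ext fun x => ?_
    have : x = 0 := Subsingleton.elim (α := PUnit) _ _
    rw [this, map_zero, map_zero]
  | cons X L ih =>
    rw [List.forall_mem_cons, ← ih]
    exact EZ_add_iff

lemma EZ_lsum_M {Z : Pres k A} (L : List (Pres k A)) (h : ∀ X ∈ L, EZ Z X.M) :
    EZ Z (Pres.lsum L).M := by
  induction L with
  | nil =>
    have : Subsingleton (Pres.lsum ([] : List (Pres k A))).M := by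
      have : Subsingleton (Pres.lsum ([] : List (Pres k A))).P0 :=
        inferInstanceAs (Subsingleton PUnit)
      exact (Submodule.mkQ_surjective _).subsingleton
    exact EZ_of_subsingleton (k := k)
  | cons X L ih =>
    rw [List.forall_mem_cons] at h
    exact EZ_add_M h.1 (ih h.2)

lemma exists_surj_lsum (L : List (Pres k A)) (X : Pres k A) (h : X ∈ L) :
    ∃ π : (Pres.lsum L).M →ₗ[A] X.M, Function.Surjective π := by
  induction L with
  | nil => simp at h
  | cons Y L ih =>
    rcases List.mem_cons.1 h with rfl | h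
    · exact exists_fst (X := X) (Y := Pres.lsum L)
    · obtain ⟨π, hπ⟩ := ih h
      obtain ⟨ρ, hρ⟩ := exists_snd (X := Y) (Y := Pres.lsum L)
      exact ⟨π ∘ₗ ρ, hπ.comp hρ⟩

end

lemma sum_flatMap_replicate {σ τ : Type*} (l : List σ) (m : σ → ℕ) (Y : σ → τ) (f : τ → ℤ) :
    ((l.flatMap (fun s => List.replicate (m s) (Y s))).map f).sum =
      (l.map (fun s => (m s : ℤ) * f (Y s))).sum := by
  induction l with
  | nil => simp
  | cons s l ih =>
    simp only [List.flatMap_cons, List.map_append, List.sum_append, List.map_replicate,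
      List.sum_replicate, List.map_cons, List.sum_cons, ih]
    simp

/-- `U` is (numerically) a sum of members of a `τ`-rigid pair. -/
def Dec {n : ℕ} (S : Fin n → FDMod k A) (U : Pres k A) : Prop :=
  ∃ (p q : ℕ) (X : Fin p → Pres k A) (Q : Fin q → FDMod k A), IsTauRigidPair X Q ∧
    ∃ c : Fin p ⊕ Fin q → ℤ, (∀ s, 0 ≤ c s) ∧ (∀ l, U.g S l = ∑ s, c s * Gv X Q S s l) ∧
      (∀ i, c (Sum.inl i) ≠ 0 → (∀ N : FDMod k A, EZ U N → EZ (X i) N) ∧
        ∃ π : U.M →ₗ[A] (X i).M, Function.Surjective π) ∧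
      (∀ j, c (Sum.inr j) ≠ 0 → ∀ N : FDMod k A, EZ U N → hd k A (Q j) N = 0)

lemma exists_dec [IsAlgClosed k] [Module.Finite k A] {n : ℕ} {S : Fin n → FDMod k A}
    (hS : CompleteSimples S) (v : Fin n → ℤ) (h : InFan S (fun l => (v l : ℝ))) :
    ∃ U : Pres k A, EZ U U.M ∧ Dec S U ∧ ∀ l, U.g S l = v l := by
  classical
  obtain ⟨p, q, X, Q, hpair, c, hc, hv⟩ := fan_integral hS v h
  have hrig := hpair.rig
  let Y : Fin p ⊕ Fin q → Pres k A := Sum.elim X (fun j => shift (Q j) (hrig.projQ j))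
  let L : List (Pres k A) := (Finset.univ : Finset (Fin p ⊕ Fin q)).toList.flatMap
    (fun s => List.replicate (c s).toNat (Y s))
  have hmem : ∀ Z, Z ∈ L ↔ ∃ s, c s ≠ 0 ∧ Z = Y s := by
    intro Z
    simp only [L, List.mem_flatMap, Finset.mem_toList, Finset.mem_univ, true_and,
      List.mem_replicate]
    refine exists_congr fun s => and_congr_left fun _ => ?_
    have := hc s
    omega
  have hYY : ∀ s t, EZ (Y s) (Y t).M := by
    rintro s (i | j)
    · rcases s with i' | j'
      · exact hrig.rigid i' i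
      · change EZ (shift (Q j') (hrig.projQ j')) (X i).M
        rw [EZ_shift_iff]
        exact hrig.homzero i j'
    · have : Subsingleton (Y (Sum.inr j)).M := by
        have : Subsingleton (Y (Sum.inr j)).P0 := inferInstanceAs (Subsingleton PUnit)
        exact (Submodule.mkQ_surjective _).subsingleton
      exact EZ_of_subsingleton (k := k)
  have hg : ∀ l, (Pres.lsum L).g S l = v l := by
    intro l
    have h1 : (Pres.lsum L).g S l = chi k (Pres.lsum L) (S l) := rfl
    rw [h1, chi_lsum, sum_flatMap_replicate, Finset.sum_map_toList, hv l]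
    refine Finset.sum_congr rfl fun s _ => ?_
    have h2 : ((c s).toNat : ℤ) = c s := Int.toNat_of_nonneg (hc s)
    rw [h2]
    congr 1
    rcases s with i | j
    · rfl
    · exact chi_shift (Q j) (hrig.projQ j) (S l)
  refine ⟨Pres.lsum L, ?_, ?_, hg⟩
  · rw [EZ_lsum_iff]
    intro Z hZ
    refine EZ_lsum_M L fun Z' hZ' => ?_
    obtain ⟨s, -, rfl⟩ := (hmem Z).1 hZ
    obtain ⟨t, -, rfl⟩ := (hmem Z').1 hZ'
    exact hYY s t
  · refine ⟨p, q, X, Q, hpair, c, hc, fun l => by rw [hg l, hv l], ?_, ?_⟩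
    · intro i hi
      have hm : X i ∈ L := (hmem _).2 ⟨Sum.inl i, hi, rfl⟩
      exact ⟨fun N hN => (EZ_lsum_iff L).1 hN _ hm, exists_surj_lsum L _ hm⟩
    · intro j hj N hN
      have hm : shift (Q j) (hrig.projQ j) ∈ L := (hmem _).2 ⟨Sum.inr j, hj, rfl⟩
      have := (EZ_lsum_iff L).1 hN _ hm
      rwa [EZ_shift_iff] at this

end Dem
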