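import Pool.Agent.Helper7.Dem.Torsion

universe u

set_option linter.unusedSectionVars false

namespace Dem

variable {k A : Type u} [Field k] [Ring A] [Algebra k A]

variable {N : Type u} [AddCommGroup N] [Module k N] [Module A N] [IsScalarTower k A N]
variable {P : Type u} [AddCommGroup P] [Module A P]

instance finNu [Module.Finite k A] [Module k P] [IsScalarTower k A P] [Module.Finite k P] :
    Module.Finite k (Nu k A P) :=
  inferInstanceAs (Module.Finite k ((P →ₗ[A] A) →ₗ[k] k))

/-- The comparison map `D Hom (P, N) → Hom (N, ν P)`. -/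
def Psi (k A P N : Type u) [Field k] [Ring A] [Algebra k A] [AddCommGroup N] [Module k N]
    [Module A N] [IsScalarTower k A N] [AddCommGroup P] [Module A P] :
    ((P →ₗ[A] N) →ₗ[k] k) →ₗ[k] (N →ₗ[A] Nu k A P) where
  toFun ψ :=
    { toFun := fun m => (show (P →ₗ[A] A) →ₗ[k] k from
        { toFun := fun h => ψ (h.smulRight m)
          map_add' := fun x y => by
            rw [← map_add]; congr 1; ext z; simp [add_smul]
          map_smul' := fun c x => by
            rw [RingHom.id_apply, ← map_smul]; congr 1; ext z; simp })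
      map_add' := fun m m' => by
        refine Nu.ext fun h => ?_
        change ψ (h.smulRight (m + m')) = ψ (h.smulRight m) + ψ (h.smulRight m')
        rw [← map_add]; congr 1; ext z; simp
      map_smul' := fun a m => by
        refine Nu.ext fun h => ?_
        change ψ (h.smulRight (a • m)) = ψ ((rmul h a).smulRight m)
        congr 1; ext z; simp [mul_smul] }
  map_add' _ _ := rfl
  map_smul' _ _ := rfl

lemma Psi_apply (ψ : (P →ₗ[A] N) →ₗ[k] k) (m : N) (h : P →ₗ[A] A) :
    Psi k A P N ψ m h = ψ (h.smulRight m) := rfl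

lemma Psi_bij [Module.Finite A P] [Module.Projective A P] :
    Function.Bijective (Psi k A P N) := by
  obtain ⟨n, F, G, _, _, hFG⟩ := Module.Finite.exists_comp_eq_id_of_projective A P
  -- dual basis
  let p : Fin n → P := fun i => F (Pi.single i 1)
  let h : Fin n → (P →ₗ[A] A) := fun i => (LinearMap.proj i) ∘ₗ G
  have hdb : ∀ x : P, x = ∑ i, h i x • p i := by
    intro x
    have h1 : F (G x) = x := LinearMap.congr_fun hFG x
    conv_lhs => rw [← h1]
    have h2 : G x = ∑ i, (G x i) • (Pi.single i (1 : A) : Fin n → A) := by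
      ext j
      simp [Finset.sum_apply, Pi.single_apply]
    conv_lhs => rw [h2]
    rw [map_sum]
    refine Finset.sum_congr rfl fun i _ => ?_
    rw [map_smul]
    rfl
  have hg : ∀ g : P →ₗ[A] N, g = ∑ i, (h i).smulRight (g (p i)) := by
    intro g
    ext x
    conv_lhs => rw [hdb x]
    rw [map_sum]
    simp
  constructor
  · rw [injective_iff_map_eq_zero]
    intro ψ hψ
    ext g
    rw [hg g, map_sum]
    refine Finset.sum_eq_zero fun i _ => ?_
    rw [← Psi_apply, hψ]
    rfl
  · intro θ
    refine ⟨{ toFun := fun g => ∑ i, θ (g (p i)) (h i)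
              map_add' := ?_
              map_smul' := ?_ }, ?_⟩
    · intro x y
      rw [← Finset.sum_add_distrib]
      refine Finset.sum_congr rfl fun i _ => ?_
      simp
    · intro c x
      simp only [RingHom.id_apply, smul_eq_mul, Finset.mul_sum]
      refine Finset.sum_congr rfl fun i _ => ?_
      rw [← Nu.smul_apply]
      congr 1
      rw [LinearMap.smul_apply]
      exact (θ.restrictScalars k).map_smul c (x (p i))
    · ext m
      refine Nu.ext fun g => ?_
      rw [Psi_apply]
      change ∑ i, θ (g.smulRight m (p i)) (h i) = θ m g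
      have h1 : g = ∑ i, rmul (h i) (g (p i)) := by
        ext x
        conv_lhs => rw [hdb x]
        rw [map_sum]
        simp
      conv_rhs => rw [h1]
      have h2 : θ m (∑ i, rmul (h i) (g (p i))) = ∑ i, θ m (rmul (h i) (g (p i))) :=
        map_sum (show (P →ₗ[A] A) →ₗ[k] k from θ m) _ _
      rw [h2]
      refine Finset.sum_congr rfl fun i _ => ?_
      rw [← Nu.asmul_apply, ← map_smul]
      rfl

lemma finA_of_k [Module k P] [IsScalarTower k A P] [Module.Finite k P] : Module.Finite A P :=
  Module.Finite.of_restrictScalars_finite k A P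

/-- The Auslander-Reiten formula: `dim Hom (N, τ X) = dim Hom (X, N[1])`. -/
theorem hd_Tau [Module.Finite k A] [Module.Finite k N] (X : Pres k A) :
    hd k A N X.Tau = ed k X N := by
  have fin1 : Module.Finite A X.P1 := finA_of_k (k := k)
  have fin0 : Module.Finite A X.P0 := finA_of_k (k := k)
  have hP1 := Psi_bij (k := k) (A := A) (N := N) (P := X.P1)
  have hP0 := Psi_bij (k := k) (A := A) (N := N) (P := X.P0)
  -- step 1: linear equivalence
  have key : ∀ ψ : (X.P1 →ₗ[A] N) →ₗ[k] k, ∀ m h,
      Nu.map X.f (Psi k A X.P1 N ψ m) h = Psi k A X.P0 N (ψ ∘ₗ pre k X.f N) m h := by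
    intro ψ m h
    rfl
  let Φ : LinearMap.ker (pre k X.f N).dualMap →ₗ[k] (N →ₗ[A] X.Tau) :=
    { toFun := fun ψ => (Psi k A X.P1 N ψ.1).codRestrict _ (by
        intro m
        rw [LinearMap.mem_ker]
        refine Nu.ext fun h => ?_
        have h1 : (ψ.1 ∘ₗ pre k X.f N) = 0 := ψ.2
        rw [key, h1, map_zero]
        rfl)
      map_add' := fun _ _ => rfl
      map_smul' := fun _ _ => rfl }
  have hΦ : Function.Bijective Φ := by
    constructor
    · intro ψ ψ' h
      apply Subtype.ext
      apply hP1.1
      ext m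
      have := LinearMap.congr_fun h m
      exact congrArg Subtype.val this
    · intro θ
      obtain ⟨ψ, hψ⟩ := hP1.2 ((Submodule.subtype _) ∘ₗ θ)
      have h1 : ψ ∘ₗ pre k X.f N = 0 := by
        apply hP0.1
        rw [map_zero]
        ext m
        refine Nu.ext fun h => ?_
        rw [← key, hψ]
        have h2 : Nu.map X.f (θ m : Nu k A X.P1) = 0 := (θ m).2
        change Nu.map X.f (θ m : Nu k A X.P1) h = 0
        rw [h2]
        rfl
      refine ⟨⟨ψ, h1⟩, ?_⟩
      ext m
      exact LinearMap.congr_fun hψ m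
  have e1 : Module.finrank k (LinearMap.ker (pre k X.f N).dualMap) = hd k A N X.Tau :=
    LinearEquiv.finrank_eq (LinearEquiv.ofBijective Φ hΦ)
  have e2 := LinearMap.finrank_range_add_finrank_ker (pre k X.f N).dualMap
  rw [LinearMap.finrank_range_dualMap_eq_finrank_range] at e2
  have e3 : Module.finrank k (Module.Dual k (X.P1 →ₗ[A] N)) =
    Module.finrank k (X.P1 →ₗ[A] N) := Subspace.dual_finrank_eq
  have e4 := Submodule.finrank_quotient_add_finrank (LinearMap.range (pre k X.f N))
  unfold ed
  unfold hd at *
  omega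

/-- the dual key inequality -/
theorem star' [Module.Finite k A] {U V W : Pres k A} (hU : EZ U U.M) (hW : EZ W W.M)
    (hg : ∀ L : FDMod k A, chi k W L = chi k U L + chi k V L) :
    ed k U W.M = 0 ∨ ed k U W.M + 1 ≤ ed k U V.M := by
  have h1 := hd_eq_chi_tz (k := k) (N := U.Tau) hW
  rw [hd_Tau] at h1
  have h2 := hg (FDMod.of k A (tz W U.Tau))
  change chi k W (tz W U.Tau) = chi k U (tz W U.Tau) + chi k V (tz W U.Tau) at h2
  rcases subsingleton_or_nontrivial (tz W U.Tau) with hs | hs
  · left
    have h3 : hd k A W.M (tz W U.Tau) = 0 := by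
      rw [hd_eq_zero_iff]
      intro φ
      refine LinearMap.ext fun x => ?_
      exact Subsingleton.elim _ _
    rw [chi_of_EZ W (EZ_tz (k := k) W), h3] at h1
    omega
  · right
    have h3 : hd k A U.M (tz W U.Tau) ≤ hd k A U.M U.Tau :=
      hd_le_of_inj (tz W U.Tau).subtype Subtype.val_injective
    rw [hd_Tau, (ed_eq_zero_iff U).2 hU] at h3
    have h4 : hd k A V.M (tz W U.Tau) ≤ hd k A V.M U.Tau :=
      hd_le_of_inj (tz W U.Tau).subtype Subtype.val_injective
    rw [hd_Tau] at h4
    have h5 : hd k A (tz W U.Tau) U.Tau ≠ 0 := by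
      intro h0
      have h5 := hd_eq_zero_iff.1 h0 (tz W U.Tau).subtype
      obtain ⟨x, y, hxy⟩ := hs
      apply hxy
      apply Subtype.val_injective
      have := LinearMap.congr_fun h5 x
      have h' := LinearMap.congr_fun h5 y
      exact this.trans h'.symm
    rw [hd_Tau] at h5
    have h6 := chi_eq (k := k) (N := tz W U.Tau) U
    have h7 := chi_le_hd (k := k) (N := tz W U.Tau) V
    omega

end Dem
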