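import Pool.Agent.Helper7.Dem.Defs

universe u

set_option linter.unusedSectionVars false

namespace Dem

variable {k A : Type u} [Field k] [Ring A] [Algebra k A]

section fin

variable {M N : Type u} [AddCommGroup M] [Module k M] [Module A M] [IsScalarTower k A M]
  [Module.Finite k M] [AddCommGroup N] [Module k N] [Module A N] [IsScalarTower k A N]
  [Module.Finite k N]

/-- restriction of scalars as a `k`-linear map -/
def resk (k A M N : Type u) [Field k] [Ring A] [Algebra k A]
    [AddCommGroup M] [Module k M] [Module A M] [IsScalarTower k A M]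
    [AddCommGroup N] [Module k N] [Module A N] [IsScalarTower k A N] :
    (M →ₗ[A] N) →ₗ[k] (M →ₗ[k] N) where
  toFun φ := φ.restrictScalars k
  map_add' _ _ := rfl
  map_smul' _ _ := rfl

instance finHom : Module.Finite k (M →ₗ[A] N) :=
  Module.Finite.of_injective (resk k A M N) (by
    intro φ ψ h
    ext x
    exact LinearMap.congr_fun h x)

end fin

section exact

variable {N N' : Type u} [AddCommGroup N] [Module k N] [Module A N] [IsScalarTower k A N]
  [AddCommGroup N'] [Module k N'] [Module A N'] [IsScalarTower k A N']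
  {P Q : Type u} [AddCommGroup P] [Module A P] [AddCommGroup Q] [Module A Q]

variable (k)

/-- postcomposition -/
def post (P : Type u) [AddCommGroup P] [Module A P] (π : N →ₗ[A] N') :
    (P →ₗ[A] N) →ₗ[k] (P →ₗ[A] N') where
  toFun φ := π ∘ₗ φ
  map_add' φ ψ := by ext x; simp
  map_smul' c φ := by
    ext x
    simp only [LinearMap.coe_comp, Function.comp_apply, LinearMap.smul_apply, RingHom.id_apply]
    exact (π.restrictScalars k).map_smul c (φ x)

/-- precomposition -/
def pre (f : P →ₗ[A] Q) (N : Type u) [AddCommGroup N] [Module k N] [Module A N]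
    [IsScalarTower k A N] : (Q →ₗ[A] N) →ₗ[k] (P →ₗ[A] N) where
  toFun φ := φ ∘ₗ f
  map_add' _ _ := rfl
  map_smul' _ _ := rfl

@[simp] lemma post_apply (π : N →ₗ[A] N') (φ : P →ₗ[A] N) : post k P π φ = π ∘ₗ φ := rfl
@[simp] lemma pre_apply (f : P →ₗ[A] Q) (φ : Q →ₗ[A] N) : pre k f N φ = φ ∘ₗ f := rfl

variable {k}

/-- `Hom (P, -)` is monotone on injections. -/
lemma hd_le_of_inj [Module k P] [IsScalarTower k A P] [Module.Finite k P] [Module.Finite k N']
    [Module.Finite k N]
    (i : N →ₗ[A] N') (hi : Function.Injective i) : hd k A P N ≤ hd k A P N' := by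
  refine LinearMap.finrank_le_finrank_of_injective (f := post k P i) ?_
  intro φ ψ h
  ext x
  exact hi (LinearMap.congr_fun h x)

/-- `Hom (-, N)` is monotone on surjections. -/
lemma hd_le_of_surj [Module k Q] [IsScalarTower k A Q] [Module.Finite k Q]
    [Module k P] [IsScalarTower k A P] [Module.Finite k P]
    [Module.Finite k N]
    (f : P →ₗ[A] Q) (hf : Function.Surjective f) : hd k A Q N ≤ hd k A P N := by
  refine LinearMap.finrank_le_finrank_of_injective (f := pre k f N) ?_
  intro φ ψ h
  ext x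
  obtain ⟨y, rfl⟩ := hf x
  exact LinearMap.congr_fun h y

lemma hd_congr_left (e : P ≃ₗ[A] Q) : hd k A P N = hd k A Q N := by
  refine LinearEquiv.finrank_eq
    { toFun := fun φ => φ ∘ₗ e.symm.toLinearMap
      invFun := fun φ => φ ∘ₗ e.toLinearMap
      map_add' := fun _ _ => rfl
      map_smul' := fun _ _ => rfl
      left_inv := fun φ => by ext x; simp
      right_inv := fun φ => by ext x; simp }

lemma hd_congr_right (e : N ≃ₗ[A] N') : hd k A P N = hd k A P N' := by
  refine LinearEquiv.finrank_eq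
    { toFun := fun φ => post k P e.toLinearMap φ
      invFun := fun φ => post k P e.symm.toLinearMap φ
      map_add' := fun _ _ => (post k P e.toLinearMap).map_add _ _
      map_smul' := fun _ _ => (post k P e.toLinearMap).map_smul _ _
      left_inv := fun φ => by ext x; simp
      right_inv := fun φ => by ext x; simp }

lemma hd_eq_zero_iff [Module k P] [IsScalarTower k A P] [Module.Finite k P]
    [Module.Finite k N] : hd k A P N = 0 ↔ ∀ φ : P →ₗ[A] N, φ = 0 := by
  unfold hd
  rw [Module.finrank_eq_zero_iff_of_free]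
  exact ⟨fun h φ => Subsingleton.elim _ _, fun h => ⟨fun a b => (h a).trans (h b).symm⟩⟩

/-- exactness of `Hom (P, -)` for projective `P` -/
lemma hd_add [Module.Projective A P] [Module k P] [IsScalarTower k A P] [Module.Finite k P]
    [Module.Finite k N] (T : Submodule A N) :
    hd k A P N = hd k A P T + hd k A P (N ⧸ T) := by
  have h1 := LinearMap.finrank_range_add_finrank_ker (post k P T.mkQ)
  have h2 : LinearMap.range (post k P T.mkQ) = ⊤ := by
    rw [LinearMap.range_eq_top]
    intro g
    obtain ⟨h, hh⟩ := Module.projective_lifting_property T.mkQ g T.mkQ_surjective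
    exact ⟨h, hh⟩
  rw [h2, finrank_top] at h1
  have h3 : Module.finrank k (LinearMap.ker (post k P T.mkQ)) = hd k A P T := by
    refine (LinearEquiv.finrank_eq (R := k) ?_).symm
    refine LinearEquiv.ofBijective ((post k P T.subtype).codRestrict _ ?_) ⟨?_, ?_⟩
    · intro φ
      rw [LinearMap.mem_ker]
      ext x
      simp
    · intro φ ψ h
      ext x
      have := congrArg Subtype.val h
      exact LinearMap.congr_fun this x
    · rintro ⟨φ, hφ⟩
      rw [LinearMap.mem_ker] at hφ
      refine ⟨φ.codRestrict T ?_, ?_⟩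
      · intro x
        have := LinearMap.congr_fun hφ x
        simpa using this
      · apply Subtype.ext
        ext x
        rfl
  unfold hd at *
  omega

end exact

section EZ

variable {N N' : Type u} [AddCommGroup N] [Module k N] [Module A N] [IsScalarTower k A N]
  [AddCommGroup N'] [Module k N'] [Module A N'] [IsScalarTower k A N']

@[simp] lemma mk_f (X : Pres k A) (x : X.P1) : (Submodule.Quotient.mk (X.f x) : X.M) = 0 := by
  rw [Submodule.Quotient.mk_eq_zero]
  exact ⟨x, rfl⟩

/-- every map `P1 → N` factors through `f` -/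
def EZ (X : Pres k A) (N : Type u) [AddCommGroup N] [Module A N] : Prop :=
  ∀ g : X.P1 →ₗ[A] N, ∃ h : X.P0 →ₗ[A] N, h ∘ₗ X.f = g

/-- there are no nonzero maps from the cokernel of `f` to `N` -/
def HZ (X : Pres k A) (N : Type u) [AddCommGroup N] [Module A N] : Prop :=
  ∀ φ : X.M →ₗ[A] N, φ = 0

/-- dimension of `Hom (X, N[1])` -/
noncomputable def ed (k : Type u) {A : Type u} [Field k] [Ring A] [Algebra k A] (X : Pres k A)
    (N : Type u) [AddCommGroup N] [Module k N] [Module A N]
    [IsScalarTower k A N] : ℕ :=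
  Module.finrank k ((X.P1 →ₗ[A] N) ⧸ LinearMap.range (pre k X.f N))

/-- Euler form -/
noncomputable def chi (k : Type u) {A : Type u} [Field k] [Ring A] [Algebra k A] (X : Pres k A)
    (N : Type u) [AddCommGroup N] [Module k N] [Module A N]
    [IsScalarTower k A N] : ℤ :=
  (hd k A X.P0 N : ℤ) - hd k A X.P1 N

lemma HZ_iff (X : Pres k A) : HZ X N ↔ ∀ h : X.P0 →ₗ[A] N, h ∘ₗ X.f = 0 → h = 0 := by
  constructor
  · intro H h hh
    have h1 : LinearMap.range X.f ≤ LinearMap.ker h := by
      rintro _ ⟨x, rfl⟩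
      exact LinearMap.congr_fun hh x
    have h2 := H ((LinearMap.range X.f).liftQ h h1)
    have h3 : h = ((LinearMap.range X.f).liftQ h h1) ∘ₗ (LinearMap.range X.f).mkQ := by
      rw [Submodule.liftQ_mkQ]
    rw [h3, h2, LinearMap.zero_comp]
  · intro H φ
    have h1 := H (φ ∘ₗ (LinearMap.range X.f).mkQ) (by
      ext x
      simp)
    ext x
    exact LinearMap.congr_fun h1 x

lemma ed_eq_zero_iff [Module.Finite k N] (X : Pres k A) : ed k X N = 0 ↔ EZ X N := by
  unfold ed EZ
  rw [Module.finrank_eq_zero_iff_of_free, Submodule.Quotient.subsingleton_iff,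
    LinearMap.range_eq_top]
  rfl

lemma hd_eq_zero_iff_HZ [Module.Finite k N] (X : Pres k A) :
    hd k A X.M N = 0 ↔ HZ X N := hd_eq_zero_iff

/-- the kernel of precomposition is `Hom (M, N)` -/
lemma finrank_ker_pre (X : Pres k A) :
    Module.finrank k (LinearMap.ker (pre k X.f N)) = hd k A X.M N := by
  refine (LinearEquiv.finrank_eq (R := k) ?_).symm
  refine LinearEquiv.ofBijective
    ((pre k (LinearMap.range X.f).mkQ N).codRestrict _ ?_) ⟨?_, ?_⟩
  · intro φ
    rw [LinearMap.mem_ker]
    ext x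
    simp
  · intro φ ψ h
    ext x
    have := congrArg Subtype.val h
    exact LinearMap.congr_fun this x
  · rintro ⟨φ, hφ⟩
    rw [LinearMap.mem_ker] at hφ
    refine ⟨(LinearMap.range X.f).liftQ φ ?_, ?_⟩
    · rintro _ ⟨x, rfl⟩
      exact LinearMap.congr_fun hφ x
    · apply Subtype.ext
      ext x
      rfl

lemma chi_eq [Module.Finite k N] (X : Pres k A) :
    chi k X N = (hd k A X.M N : ℤ) - ed k X N := by
  have h1 := LinearMap.finrank_range_add_finrank_ker (pre k X.f N)
  rw [finrank_ker_pre] at h1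
  have h2 := Submodule.finrank_quotient_add_finrank (LinearMap.range (pre k X.f N))
  unfold chi ed
  unfold hd at *
  omega

lemma chi_of_EZ [Module.Finite k N] (X : Pres k A) (h : EZ X N) :
    chi k X N = hd k A X.M N := by
  rw [chi_eq, (ed_eq_zero_iff X).2 h]; simp

lemma chi_of_HZ [Module.Finite k N] (X : Pres k A) (h : HZ X N) :
    chi k X N = - ed k X N := by
  rw [chi_eq, (hd_eq_zero_iff_HZ X).2 h]; simp

lemma chi_le_hd [Module.Finite k N] (X : Pres k A) :
    chi k X N ≤ hd k A X.M N := by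
  rw [chi_eq]; omega

lemma neg_chi_le_ed [Module.Finite k N] (X : Pres k A) :
    - chi k X N ≤ ed k X N := by
  rw [chi_eq]; omega

lemma EZ_of_surj {X : Pres k A} (π : N →ₗ[A] N') (hπ : Function.Surjective π) (h : EZ X N) :
    EZ X N' := by
  intro g
  obtain ⟨g', hg'⟩ := Module.projective_lifting_property π g hπ
  obtain ⟨h', hh'⟩ := h g'
  refine ⟨π ∘ₗ h', ?_⟩
  rw [LinearMap.comp_assoc, hh', hg']

lemma EZ_congr {X : Pres k A} (e : N ≃ₗ[A] N') (h : EZ X N) : EZ X N' :=
  EZ_of_surj e.toLinearMap e.surjective h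

lemma ed_le_of_surj [Module.Finite k N] [Module.Finite k N'] {X : Pres k A} (π : N →ₗ[A] N')
    (hπ : Function.Surjective π) : ed k X N' ≤ ed k X N := by
  unfold ed
  refine LinearMap.finrank_le_finrank_of_surjective
    (f := Submodule.mapQ _ _ (post k X.P1 π) ?_) ?_
  · rintro _ ⟨h, rfl⟩
    exact ⟨π ∘ₗ h, by ext x; simp⟩
  · intro y
    obtain ⟨g, rfl⟩ := Submodule.Quotient.mk_surjective _ y
    obtain ⟨g', hg'⟩ := Module.projective_lifting_property π g hπ
    exact ⟨Submodule.Quotient.mk g', by simp [hg']⟩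

/-- `EZ` is closed under extensions (kernel version). -/
lemma EZ_of_ker {X : Pres k A} (π : N →ₗ[A] N') (hπ : Function.Surjective π)
    (h1 : EZ X (LinearMap.ker π)) (h2 : EZ X N') : EZ X N := by
  intro g
  obtain ⟨h'', hh''⟩ := h2 (π ∘ₗ g)
  obtain ⟨h, hh⟩ := Module.projective_lifting_property π h'' hπ
  have h3 : ∀ x, (g - h ∘ₗ X.f) x ∈ LinearMap.ker π := by
    intro x
    rw [LinearMap.mem_ker]
    have e1 := LinearMap.congr_fun hh'' x
    have e2 := LinearMap.congr_fun hh (X.f x)
    simp only [LinearMap.coe_comp, Function.comp_apply] at e1 e2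
    simp only [LinearMap.sub_apply, LinearMap.coe_comp, Function.comp_apply, map_sub]
    rw [e2, e1, sub_self]
  obtain ⟨h', hh'⟩ := h1 ((g - h ∘ₗ X.f).codRestrict _ h3)
  refine ⟨h + (LinearMap.ker π).subtype ∘ₗ h', ?_⟩
  ext x
  have e3 := congrArg Subtype.val (LinearMap.congr_fun hh' x)
  simp only [LinearMap.coe_comp, Function.comp_apply, LinearMap.codRestrict_apply,
    LinearMap.sub_apply] at e3
  simp only [LinearMap.coe_comp, Function.comp_apply, LinearMap.add_apply,
    Submodule.subtype_apply]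
  rw [e3]
  abel

lemma EZ_of_quot {X : Pres k A} (T : Submodule A N)
    (h1 : EZ X T) (h2 : EZ X (N ⧸ T)) : EZ X N := by
  refine EZ_of_ker T.mkQ T.mkQ_surjective ?_ h2
  have : LinearMap.ker T.mkQ = T := T.ker_mkQ
  rw [this]
  exact h1

/-- the kernel of a surjection `π : N → N'` with `N ∈ EZ` and `N' ∈ HZ` is in `EZ` -/
lemma EZ_ker {X : Pres k A} (π : N →ₗ[A] N')
    (h1 : EZ X N) (h2 : HZ X N') : EZ X (LinearMap.ker π) := by
  intro g
  obtain ⟨h, hh⟩ := h1 ((LinearMap.ker π).subtype ∘ₗ g)
  have h3 : π ∘ₗ h = 0 := by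
    refine (HZ_iff X).1 h2 _ ?_
    rw [LinearMap.comp_assoc, hh]
    ext x
    simp
  refine ⟨h.codRestrict _ (fun x => LinearMap.congr_fun h3 x), ?_⟩
  ext x
  exact LinearMap.congr_fun hh x

lemma EZ_sub_of_HZ_quot {X : Pres k A} (T : Submodule A N)
    (h1 : EZ X N) (h2 : HZ X (N ⧸ T)) : EZ X T := by
  have := EZ_ker T.mkQ h1 h2
  rwa [T.ker_mkQ] at this

/-- lifting maps along a surjection with kernel in `EZ` -/
lemma lift_of_EZ_ker {X : Pres k A} (π : N →ₗ[A] N') (hπ : Function.Surjective π)
    (h1 : EZ X (LinearMap.ker π)) (φ : X.M →ₗ[A] N') : ∃ ψ : X.M →ₗ[A] N, π ∘ₗ ψ = φ := by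
  obtain ⟨h, hh⟩ := Module.projective_lifting_property π
    (φ ∘ₗ (LinearMap.range X.f).mkQ) hπ
  have h3 : ∀ x, (h ∘ₗ X.f) x ∈ LinearMap.ker π := by
    intro x
    rw [LinearMap.mem_ker]
    have e2 := LinearMap.congr_fun hh (X.f x)
    simp only [LinearMap.coe_comp, Function.comp_apply] at e2 ⊢
    rw [e2]
    simp
  obtain ⟨h', hh'⟩ := h1 ((h ∘ₗ X.f).codRestrict _ h3)
  have h4 : LinearMap.range X.f ≤ LinearMap.ker (h - (LinearMap.ker π).subtype ∘ₗ h') := by
    rintro _ ⟨x, rfl⟩
    have := congrArg Subtype.val (LinearMap.congr_fun hh' x)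
    simp only [LinearMap.coe_comp, Function.comp_apply, LinearMap.codRestrict_apply] at this
    simp [this]
  refine ⟨(LinearMap.range X.f).liftQ _ h4, ?_⟩
  ext x
  have e2 := LinearMap.congr_fun hh x
  simp only [LinearMap.coe_comp, Function.comp_apply] at e2
  simp only [LinearMap.coe_comp, Function.comp_apply, Submodule.mkQ_apply,
    Submodule.liftQ_apply, LinearMap.sub_apply, map_sub, Submodule.subtype_apply]
  rw [e2]
  have e3 : π (h' x : N) = 0 := (h' x).2
  rw [e3, sub_zero]
  rfl

lemma HZ_of_inj {X : Pres k A} (i : N →ₗ[A] N') (hi : Function.Injective i) (h : HZ X N') :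
    HZ X N := by
  intro φ
  have := h (i ∘ₗ φ)
  ext x
  apply hi
  have e := LinearMap.congr_fun this (Submodule.Quotient.mk x)
  simpa using e

lemma EZ_of_subsingleton {X : Pres k A} [Subsingleton N] : EZ X N := fun g =>
  ⟨0, by ext x; exact Subsingleton.elim _ _⟩

lemma EZ_bot (X : Pres k A) : EZ X (⊥ : Submodule A N) := EZ_of_subsingleton

end EZ

end Dem
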