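import Pool.Agent.Helper7.Dem.Rig

universe u

set_option linter.unusedSectionVars false

namespace Dem

variable {k A : Type u} [Field k] [Ring A] [Algebra k A]

section tzf

variable {N : Type u} [AddCommGroup N] [Module k N] [Module A N] [IsScalarTower k A N]
  [Module.Finite k N]
  {M : Type u} [AddCommGroup M] [Module k M] [Module A M] [IsScalarTower k A M]
  [Module.Finite k M]

/-- the largest submodule in `EZ` for all members of `C` -/
def tzf (C : Set (Pres k A)) (N : Type u) [AddCommGroup N] [Module A N] : Submodule A N :=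
  sSup {T | ∀ Y ∈ C, EZ Y T}

include k in
lemma EZ_tzf {C : Set (Pres k A)} {Y : Pres k A} (hY : Y ∈ C) : EZ Y (tzf C N) :=
  EZ_sSup (k := k) _ fun _ hT => hT Y hY

lemma le_tzf {C : Set (Pres k A)} {T : Submodule A N} (h : ∀ Y ∈ C, EZ Y T) : T ≤ tzf C N :=
  le_sSup h

include k in
lemma map_quot_tzf_zero {C : Set (Pres k A)} (h : ∀ Y ∈ C, EZ Y M)
    (φ : M →ₗ[A] N ⧸ tzf C N) : φ = 0 := by
  have h2 : ∀ Y ∈ C, EZ Y ((LinearMap.range φ).comap (tzf C N).mkQ) := by
    intro Y hY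
    have h1 : EZ Y (LinearMap.range φ) := EZ_range φ (h Y hY)
    refine EZ_comap _ (Submodule.mkQ_surjective _) _ ?_ h1
    rw [Submodule.ker_mkQ]
    exact EZ_tzf hY
  have h3 := le_tzf h2
  refine LinearMap.ext fun m => ?_
  obtain ⟨n, hn⟩ := Submodule.mkQ_surjective _ (φ m)
  have h4 : n ∈ tzf C N := h3 (by
    rw [Submodule.mem_comap, hn]
    exact ⟨m, rfl⟩)
  rw [← hn, LinearMap.zero_apply, Submodule.mkQ_apply, Submodule.Quotient.mk_eq_zero]
  exact h4

include k in
lemma map_quot_tz_zero {Y : Pres k A} (h : EZ Y M)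
    (φ : M →ₗ[A] N ⧸ tz Y N) : φ = 0 := by
  have h2 : EZ Y ((LinearMap.range φ).comap (tz Y N).mkQ) := by
    have h1 : EZ Y (LinearMap.range φ) := EZ_range φ h
    refine EZ_comap _ (Submodule.mkQ_surjective _) _ ?_ h1
    rw [Submodule.ker_mkQ]
    exact EZ_tz Y
  have h3 := le_tz h2
  refine LinearMap.ext fun m => ?_
  obtain ⟨n, hn⟩ := Submodule.mkQ_surjective _ (φ m)
  have h4 : n ∈ tz Y N := h3 (by
    rw [Submodule.mem_comap, hn]
    exact ⟨m, rfl⟩)
  rw [← hn, LinearMap.zero_apply, Submodule.mkQ_apply, Submodule.Quotient.mk_eq_zero]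
  exact h4

end tzf

section

variable {ι κ : Type} {X : ι → Pres k A} {Q : κ → FDMod k A} [Fintype ι] [Fintype κ] {n : ℕ}
  {S : Fin n → FDMod k A}

/-- evaluating a real combination of classes on a module -/
lemma chi_cone (hS : CompleteSimples S) (hQ : ∀ j, Module.Projective A (Q j))
    {U : Pres k A} {a : ι → ℝ} {b : κ → ℝ}
    (hcone : ∀ l, (U.g S l : ℝ) = ∑ i, a i * ((X i).g S l : ℝ) -
      ∑ j, b j * (hd k A (Q j) (S l) : ℝ)) (N : FDMod k A) :
    (chi k U N : ℝ) = ∑ i, a i * (chi k (X i) N : ℝ) - ∑ j, b j * (hd k A (Q j) N : ℝ) := by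
  rw [chi_eq_sum hS N U]
  have h1 : ∀ i, (chi k (X i) N : ℝ) = ∑ l, ((X i).g S l : ℝ) * (dv hS N l : ℝ) := by
    intro i
    rw [chi_eq_sum hS N (X i)]
    push_cast
    rfl
  have h2 : ∀ j, (hd k A (Q j) N : ℝ) = ∑ l, (hd k A (Q j) (S l) : ℝ) * (dv hS N l : ℝ) := by
    intro j
    rw [hd_eq_sum hS N (Q j) (hQ j)]
    push_cast
    rfl
  simp only [h1, h2, Finset.mul_sum]
  push_cast
  rw [Finset.sum_comm, Finset.sum_comm (s := (Finset.univ : Finset κ)),
    ← Finset.sum_sub_distrib]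
  refine Finset.sum_congr rfl fun l _ => ?_
  rw [hcone l, sub_mul, Finset.sum_mul, Finset.sum_mul]
  congr 1 <;> exact Finset.sum_congr rfl fun i _ => by ring

/-- A rigid object with class in the cone of the family is `EZ` on the modules of the family. -/
lemma Rig.EZ_of_cone (hS : CompleteSimples S) (h : Rig X Q) {U : Pres k A} (hU : EZ U U.M)
    {a : ι → ℝ} {b : κ → ℝ} (ha : ∀ i, 0 ≤ a i)
    (hcone : ∀ l, (U.g S l : ℝ) = ∑ i, a i * ((X i).g S l : ℝ) -
      ∑ j, b j * (hd k A (Q j) (S l) : ℝ)) (i : ι) : EZ U (X i).M := by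
  rw [← ed_eq_zero_iff (k := k)]
  have h1 := ed_eq_neg_chi_quot (k := k) (N := (X i).M) hU
  have h2 := chi_cone hS h.projQ hcone (FDMod.of k A ((X i).M ⧸ tz U (X i).M))
  have h3 : ∀ i', 0 ≤ (chi k (X i') ((X i).M ⧸ tz U (X i).M) : ℝ) := by
    intro i'
    rw [chi_of_EZ (k := k) (X i')
      (EZ_of_surj (tz U (X i).M).mkQ (Submodule.mkQ_surjective _) (h.rigid i' i))]
    positivity
  have h4 : ∀ j, hd k A (Q j) ((X i).M ⧸ tz U (X i).M) = 0 := by
    intro j
    have := h.projQ j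
    exact hd_quot_zero (tz U (X i).M).mkQ (Submodule.mkQ_surjective _) (h.homzero i j)
  have h5 : (0 : ℝ) ≤ chi k U ((X i).M ⧸ tz U (X i).M) := by
    change (chi k U ((X i).M ⧸ tz U (X i).M) : ℝ) = _ at h2
    rw [h2]
    have e1 : ∑ j, b j * (hd k A (Q j) (FDMod.of k A ((X i).M ⧸ tz U (X i).M)) : ℝ) = 0 := by
      refine Finset.sum_eq_zero fun j _ => ?_
      have := h4 j
      change hd k A (Q j) (FDMod.of k A ((X i).M ⧸ tz U (X i).M)) = 0 at this
      rw [this]
      simp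
    rw [e1, sub_zero]
    exact Finset.sum_nonneg fun i' _ => mul_nonneg (ha i') (h3 i')
  have h6 : 0 ≤ chi k U ((X i).M ⧸ tz U (X i).M) := by exact_mod_cast h5
  omega

/-- In the same situation the members of the family with nonzero coefficients are `EZ` on `U.M`. -/
lemma Rig.EZ_cone_of (hS : CompleteSimples S) (h : Rig X Q) {U : Pres k A} (hU : EZ U U.M)
    {a : ι → ℝ} {b : κ → ℝ} (ha : ∀ i, 0 ≤ a i) (hb : ∀ j, 0 ≤ b j)
    (hcone : ∀ l, (U.g S l : ℝ) = ∑ i, a i * ((X i).g S l : ℝ) -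
      ∑ j, b j * (hd k A (Q j) (S l) : ℝ)) :
    (∀ i, a i ≠ 0 → EZ (X i) U.M) ∧ (∀ j, b j ≠ 0 → hd k A (Q j) U.M = 0) := by
  let C : Set (Pres k A) := {Y | (∃ i, a i ≠ 0 ∧ Y = X i) ∨
    (∃ j, b j ≠ 0 ∧ Y = shift (Q j) (h.projQ j))}
  have hC : ∀ i, ∀ Y ∈ C, EZ Y (X i).M := by
    rintro i Y (⟨i', -, rfl⟩ | ⟨j, -, rfl⟩)
    · exact h.rigid i' i
    · rw [EZ_shift_iff]
      exact h.homzero i j
  set L := FDMod.of k A (U.M ⧸ tzf C U.M) with hL
  have h2 := chi_cone hS h.projQ hcone L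
  have h3 : ∀ i', a i' * (chi k (X i') L : ℝ) ≤ 0 := by
    intro i'
    have h4 : HZ (X i') L := fun φ => map_quot_tzf_zero (hC i') φ
    rw [chi_of_HZ (k := k) (X i') h4]
    push_cast
    have := ha i'
    have h5 : (0 : ℝ) ≤ ed k (X i') L := by positivity
    nlinarith
  have hEL : EZ U L := EZ_of_surj (tzf C U.M).mkQ (Submodule.mkQ_surjective _) hU
  have h5 : (chi k U L : ℝ) ≤ 0 := by
    rw [h2]
    have e1 : ∑ i, a i * (chi k (X i) L : ℝ) ≤ 0 :=
      Finset.sum_nonpos fun i _ => h3 i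
    have e2 : 0 ≤ ∑ j, b j * (hd k A (Q j) L : ℝ) :=
      Finset.sum_nonneg fun j _ => mul_nonneg (hb j) (by positivity)
    linarith
  rw [chi_of_EZ (k := k) U hEL] at h5
  have h6 : hd k A U.M L = 0 := by
    have : (hd k A U.M L : ℝ) ≤ 0 := by exact_mod_cast h5
    have h7 : (hd k A U.M L : ℝ) = 0 := le_antisymm this (by positivity)
    exact_mod_cast h7
  rw [hd_eq_zero_iff] at h6
  have h7 : (tzf C U.M) = ⊤ := by
    have := h6 (tzf C U.M).mkQ
    rw [← Submodule.ker_mkQ (tzf C U.M), this, LinearMap.ker_zero]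
  have h8 : ∀ Y ∈ C, EZ Y U.M := by
    intro Y hY
    have h9 := EZ_tzf (k := k) (N := U.M) hY
    rw [h7] at h9
    exact EZ_congr Submodule.topEquiv h9
  constructor
  · intro i hi
    exact h8 _ (Or.inl ⟨i, hi, rfl⟩)
  · intro j hj
    have := h8 _ (Or.inr ⟨j, hj, rfl⟩)
    rwa [EZ_shift_iff] at this

/-- An indecomposable rigid `U` whose class lies in the cone of the family has module isomorphic
to one of the modules of the family (with nonzero coefficient). -/
lemma Rig.mem_of_cone [IsAlgClosed k] (hS : CompleteSimples S) (h : Rig X Q) {U : Pres k A}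
    (hU : EZ U U.M) (hUi : Indec A U.M)
    {a : ι → ℝ} {b : κ → ℝ} (ha : ∀ i, 0 ≤ a i) (hb : ∀ j, 0 ≤ b j)
    (hcone : ∀ l, (U.g S l : ℝ) = ∑ i, a i * ((X i).g S l : ℝ) -
      ∑ j, b j * (hd k A (Q j) (S l) : ℝ)) : ∃ i, a i ≠ 0 ∧ Nonempty (U.M ≃ₗ[A] (X i).M) := by
  classical
  by_contra hcon
  push Not at hcon
  obtain ⟨h1, h2⟩ := h.EZ_cone_of hS hU ha hb hcone
  have h3 := h.EZ_of_cone hS hU ha hcone
  -- the extended family
  let ι' := Option {i // a i ≠ 0}
  let κ' := {j // b j ≠ 0}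
  let X' : ι' → Pres k A := fun o => o.elim U (fun i => X i.1)
  let Q' : κ' → FDMod k A := fun j => Q j.1
  have hrig : Rig X' Q' :=
    { indec := by
        rintro (_ | i)
        · exact hUi
        · exact h.indec i.1
      noniso := by
        rintro (_ | i) (_ | j) hij
        · exact absurd rfl hij
        · exact hcon j.1 j.2
        · exact ⟨fun e => (hcon i.1 i.2).false e.symm⟩
        · exact h.noniso i.1 j.1 (fun hh => hij (by rw [Subtype.ext hh]))
      rigid := by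
        rintro (_ | i) (_ | j)
        · exact hU
        · exact h3 j.1
        · exact h1 i.1 i.2
        · exact h.rigid i.1 j.1
      projQ := fun j => h.projQ j.1
      indecQ := fun j => h.indecQ j.1
      nonisoQ := fun i j hij => h.nonisoQ i.1 j.1 (fun hh => hij (Subtype.ext hh))
      homzero := by
        rintro (_ | i) j
        · exact h2 j.1 j.2
        · exact h.homzero i.1 j.1 }
  have h4 := (hrig.linInd hS (fun o => o.elim (-1) (fun i => a i.1)) (fun j => b j.1) ?_).1 none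
  · exact absurd h4 (by simp)
  · intro l
    rw [Fintype.sum_option]
    have e1 : ∑ i : {i // a i ≠ 0}, a i.1 * ((X i.1).g S l : ℝ) =
        ∑ i, a i * ((X i).g S l : ℝ) := by
      rw [← Finset.sum_subtype (Finset.univ.filter fun i => a i ≠ 0) (by simp)
        (fun i => a i * ((X i).g S l : ℝ)), Finset.sum_filter_of_ne]
      intro i _ hne h0
      apply hne
      rw [h0, zero_mul]
    have e2 : ∑ j : {j // b j ≠ 0}, b j.1 * (hd k A (Q j.1) (S l) : ℝ) =
        ∑ j, b j * (hd k A (Q j) (S l) : ℝ) := by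
      rw [← Finset.sum_subtype (Finset.univ.filter fun j => b j ≠ 0) (by simp)
        (fun j => b j * (hd k A (Q j) (S l) : ℝ)), Finset.sum_filter_of_ne]
      intro i _ hne h0
      apply hne
      rw [h0, zero_mul]
    change (0 : ℝ) = (-1 * (U.g S l : ℝ) + ∑ i : {i // a i ≠ 0}, a i.1 * ((X i.1).g S l : ℝ)) -
      ∑ j : {j // b j ≠ 0}, b j.1 * (hd k A (Q j.1) (S l) : ℝ)
    rw [e1, e2, hcone l]
    ring

/-- Sign coherence. -/
lemma Rig.sign (hS : CompleteSimples S) (h : Rig X Q) (i : ι) (l : Fin n)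
    (hpos : 0 < (X i).g S l) : (∀ i', 0 ≤ (X i').g S l) ∧ (∀ j, hd k A (Q j) (S l) = 0) := by
  have hsim := hS.simple l
  have h1 : 0 < hd k A (X i).M (S l) := by
    have h2 : (X i).g S l = chi k (X i) (S l) := rfl
    have h3 := chi_le_hd (k := k) (N := S l) (X i)
    omega
  have h2 : ∃ φ : (X i).M →ₗ[A] S l, φ ≠ 0 := by
    by_contra hcon
    push Not at hcon
    rw [← hd_eq_zero_iff (k := k)] at hcon
    omega
  obtain ⟨φ, hφ⟩ := h2
  have hsurj : Function.Surjective φ := LinearMap.surjective_of_ne_zero hφ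
  constructor
  · intro i'
    have h3 : EZ (X i') (S l) := EZ_of_surj φ hsurj (h.rigid i' i)
    have h2 : (X i').g S l = chi k (X i') (S l) := rfl
    rw [h2, chi_of_EZ (k := k) _ h3]
    positivity
  · intro j
    have := h.projQ j
    exact hd_quot_zero φ hsurj (h.homzero i j)

end

end Dem
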