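import Mathlib

/-!
# Finite-dimensional modules, two-term complexes of projectives, the tau-tilting fan
-/

universe u

namespace Dem

/-- A finite-dimensional (left) module over the `k`-algebra `A`. -/
structure FDMod (k A : Type u) [Field k] [Ring A] [Algebra k A] where
  carrier : Type u
  [instACG : AddCommGroup carrier]
  [instModK : Module k carrier]
  [instModA : Module A carrier]
  [instTower : IsScalarTower k A carrier]
  [instFin : Module.Finite k carrier]

attribute [instance] FDMod.instACG FDMod.instModK FDMod.instModA FDMod.instTower FDMod.instFin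

instance (k A : Type u) [Field k] [Ring A] [Algebra k A] :
    CoeSort (FDMod k A) (Type u) := ⟨FDMod.carrier⟩

/-- A module is indecomposable if it is nonzero and is not the direct sum of two nonzero
submodules. -/
def Indec (A M : Type u) [Ring A] [AddCommGroup M] [Module A M] : Prop :=
  Nontrivial M ∧ ∀ p q : Submodule A M, IsCompl p q → p = ⊥ ∨ q = ⊥

/-- A brick: a nonzero module all of whose nonzero endomorphisms are invertible. -/
def IsBrick (A M : Type u) [Ring A] [AddCommGroup M] [Module A M] : Prop :=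
  Nontrivial M ∧ ∀ φ : M →ₗ[A] M, φ ≠ 0 → Function.Bijective φ

/-- There are only finitely many bricks up to isomorphism. -/
def BrickFinite (k A : Type u) [Field k] [Ring A] [Algebra k A] : Prop :=
  ∃ l : List (FDMod k A), ∀ B : FDMod k A, IsBrick A B → ∃ C ∈ l, Nonempty (B ≃ₗ[A] C)

/-- `S` is a complete irredundant list of the simple modules. -/
structure CompleteSimples {k A : Type u} [Field k] [Ring A] [Algebra k A] {n : ℕ}
    (S : Fin n → FDMod k A) : Prop where
  simple : ∀ i, IsSimpleModule A (S i)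
  noniso : ∀ i j, i ≠ j → IsEmpty (S i ≃ₗ[A] S j)
  complete : ∀ N : FDMod k A, IsSimpleModule A N → ∃ i, Nonempty (N ≃ₗ[A] S i)

/-- A two-term complex of finite-dimensional projective modules. -/
structure Pres (k A : Type u) [Field k] [Ring A] [Algebra k A] where
  P1 : FDMod k A
  P0 : FDMod k A
  proj1 : Module.Projective A P1
  proj0 : Module.Projective A P0
  f : P1 →ₗ[A] P0

attribute [instance] Pres.proj1 Pres.proj0

section

variable {k A : Type u} [Field k] [Ring A] [Algebra k A]

/-- The module presented by a two-term complex: the cokernel of `f`. -/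
abbrev Pres.M (X : Pres k A) : Type u := X.P0 ⧸ LinearMap.range X.f

/-- A submodule `p` of `M` is superfluous if `p + q = M` only for `q = M`. -/
def Superfluous {M : Type u} [AddCommGroup M] [Module A M] (p : Submodule A M) : Prop :=
  ∀ q : Submodule A M, p ⊔ q = ⊤ → q = ⊤

/-- `P1 → P0 → M → 0` is a minimal projective presentation of the cokernel `M`: the maps
`P0 → M` and `P1 → range f` are projective covers, i.e. have superfluous kernels. -/
def Pres.Minimal (X : Pres k A) : Prop :=
  Superfluous (LinearMap.range X.f) ∧ Superfluous (LinearMap.ker X.f)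

/-- The dimension of `Hom_A (M, N)` over `k`. -/
noncomputable def hd (k A M N : Type u) [Field k] [Ring A] [Algebra k A]
    [AddCommGroup M] [Module A M] [AddCommGroup N] [Module k N] [Module A N]
    [IsScalarTower k A N] : ℕ :=
  Module.finrank k (M →ₗ[A] N)

/-- The class of the two-term complex in the Grothendieck group of projectives, in the basis of
indecomposable projectives: the `i`-th coordinate of the class of a projective `P` is
`dim Hom (P, S i)`. -/
noncomputable def Pres.g (X : Pres k A) {n : ℕ} (S : Fin n → FDMod k A) (i : Fin n) : ℤ :=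
  (hd k A X.P0 (S i) : ℤ) - hd k A X.P1 (S i)

/-- The module presented by a two-term complex, as a finite-dimensional module. -/
def Pres.coker (X : Pres k A) : FDMod k A := ⟨X.M⟩

/-- Right multiplication by `a` on a functional `P → A`. -/
def rmul {P : Type u} [AddCommGroup P] [Module A P] (h : P →ₗ[A] A) (a : A) : P →ₗ[A] A where
  toFun x := h x * a
  map_add' x y := by simp [add_mul]
  map_smul' b x := by simp [mul_assoc]

@[simp] lemma rmul_apply {P : Type u} [AddCommGroup P] [Module A P] (h : P →ₗ[A] A) (a : A)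
    (x : P) : rmul h a x = h x * a := rfl

/-- Right multiplication by `a` on functionals, as a `k`-linear map. -/
def rmulk (k : Type u) {A : Type u} [Field k] [Ring A] [Algebra k A] (P : Type u)
    [AddCommGroup P] [Module A P] (a : A) : (P →ₗ[A] A) →ₗ[k] (P →ₗ[A] A) where
  toFun h := rmul h a
  map_add' x y := by ext z; simp [add_mul]
  map_smul' c x := by ext z; simp

/-- Precomposition with `f` on functionals, as a `k`-linear map. -/
def precompk (k : Type u) {A P Q : Type u} [Field k] [Ring A] [Algebra k A] [AddCommGroup P]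
    [Module A P] [AddCommGroup Q] [Module A Q] (f : P →ₗ[A] Q) :
    (Q →ₗ[A] A) →ₗ[k] (P →ₗ[A] A) where
  toFun h := h ∘ₗ f
  map_add' _ _ := rfl
  map_smul' _ _ := rfl

/-- The Nakayama functor on objects: `ν P = D Hom_A (P, A)`, the `k`-dual of the right
`A`-module `Hom_A (P, A)`. -/
def Nu (k A P : Type u) [Field k] [Ring A] [Algebra k A] [AddCommGroup P] [Module A P] :
    Type u := (P →ₗ[A] A) →ₗ[k] k

section Nu

variable {P : Type u} [AddCommGroup P] [Module A P]

instance : AddCommGroup (Nu k A P) := LinearMap.addCommGroup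
instance : Module k (Nu k A P) := LinearMap.module

/-- The action of `a` on `ν P`: `(a • φ) (h) = φ (h · a)`. -/
def Nu.act (a : A) (φ : (P →ₗ[A] A) →ₗ[k] k) : (P →ₗ[A] A) →ₗ[k] k := φ ∘ₗ rmulk k P a

instance : SMul A (Nu k A P) := ⟨Nu.act⟩

instance : FunLike (Nu k A P) (P →ₗ[A] A) k :=
  inferInstanceAs (FunLike ((P →ₗ[A] A) →ₗ[k] k) (P →ₗ[A] A) k)

lemma Nu.ext {φ ψ : Nu k A P} (h : ∀ x, φ x = ψ x) : φ = ψ := DFunLike.ext _ _ h

@[simp] lemma Nu.map_add' (φ : Nu k A P) (x y : P →ₗ[A] A) : φ (x + y) = φ x + φ y :=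
  LinearMap.map_add (show (P →ₗ[A] A) →ₗ[k] k from φ) x y
@[simp] lemma Nu.map_smul' (φ : Nu k A P) (c : k) (x : P →ₗ[A] A) : φ (c • x) = c * φ x :=
  LinearMap.map_smul (show (P →ₗ[A] A) →ₗ[k] k from φ) c x
@[simp] lemma Nu.add_apply (φ ψ : Nu k A P) (x : P →ₗ[A] A) : (φ + ψ) x = φ x + ψ x := rfl
@[simp] lemma Nu.zero_apply (x : P →ₗ[A] A) : (0 : Nu k A P) x = 0 := rfl
@[simp] lemma Nu.smul_apply (c : k) (φ : Nu k A P) (x : P →ₗ[A] A) : (c • φ) x = c * φ x := rfl

lemma Nu.asmul_apply (a : A) (φ : Nu k A P) (h : P →ₗ[A] A) : (a • φ) h = φ (rmul h a) := rfl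

lemma Nu.one_smul' (φ : Nu k A P) : (1 : A) • φ = φ := by
  refine Nu.ext fun h => ?_
  rw [Nu.asmul_apply]
  congr 1; ext z; simp

lemma Nu.mul_smul' (a b : A) (φ : Nu k A P) : (a * b) • φ = a • b • φ := by
  refine Nu.ext fun h => ?_
  rw [Nu.asmul_apply, Nu.asmul_apply, Nu.asmul_apply]
  congr 1; ext z; simp [mul_assoc]

lemma Nu.smul_add' (a : A) (φ ψ : Nu k A P) : a • (φ + ψ) = a • φ + a • ψ := rfl

lemma Nu.smul_zero' (a : A) : a • (0 : Nu k A P) = 0 := rfl

lemma Nu.add_smul' (a b : A) (φ : Nu k A P) : (a + b) • φ = a • φ + b • φ := by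
  refine Nu.ext fun h => ?_
  rw [Nu.add_apply, Nu.asmul_apply, Nu.asmul_apply, Nu.asmul_apply, ← Nu.map_add']
  congr 1; ext z; simp [mul_add]

lemma Nu.zero_smul' (φ : Nu k A P) : (0 : A) • φ = 0 := by
  refine Nu.ext fun h => ?_
  rw [Nu.asmul_apply]
  have : rmul h (0 : A) = (0 : k) • h := by ext z; simp
  rw [this, Nu.map_smul', zero_mul]
  rfl

/-- The left `A`-module structure on `ν P`: `(a • φ) (h) = φ (h · a)`. -/
instance : Module A (Nu k A P) where
  one_smul := Nu.one_smul'
  mul_smul := Nu.mul_smul'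
  smul_zero := Nu.smul_zero'
  smul_add := Nu.smul_add'
  add_smul := Nu.add_smul'
  zero_smul := Nu.zero_smul'

lemma Nu.smul_assoc' (c : k) (a : A) (φ : Nu k A P) : (c • a) • φ = c • a • φ := by
  refine Nu.ext fun h => ?_
  rw [Nu.smul_apply, Nu.asmul_apply, Nu.asmul_apply, ← Nu.map_smul']
  congr 1; ext z; simp

instance : IsScalarTower k A (Nu k A P) := ⟨Nu.smul_assoc'⟩

/-- The Nakayama functor on morphisms, as a map of sets. -/
def Nu.mapk {Q : Type u} [AddCommGroup Q] [Module A Q] (f : P →ₗ[A] Q)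
    (φ : (P →ₗ[A] A) →ₗ[k] k) : (Q →ₗ[A] A) →ₗ[k] k := φ ∘ₗ precompk k f

/-- The Nakayama functor on morphisms. -/
def Nu.map {Q : Type u} [AddCommGroup Q] [Module A Q] (f : P →ₗ[A] Q) :
    Nu k A P →ₗ[A] Nu k A Q where
  toFun := Nu.mapk f
  map_add' _ _ := rfl
  map_smul' _ _ := rfl

lemma Nu.map_apply {Q : Type u} [AddCommGroup Q] [Module A Q] (f : P →ₗ[A] Q) (φ : Nu k A P)
    (h : Q →ₗ[A] A) : Nu.map f φ h = φ (h ∘ₗ f) := rfl

end Nu

/-- The Auslander-Reiten translate of the module presented by `X` (for a minimal projective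
presentation): the kernel of `ν P1 → ν P0`. -/
abbrev Pres.Tau (X : Pres k A) : Submodule A (Nu k A X.P1) := LinearMap.ker (Nu.map X.f)

/-- The Auslander-Reiten translate of the module presented by `X` (for a minimal projective
presentation), as a type: the kernel of `ν P1 → ν P0`. -/
def Pres.tau (X : Pres k A) : Type u := X.Tau

instance (X : Pres k A) : AddCommGroup X.tau := Submodule.addCommGroup X.Tau
instance (X : Pres k A) : Module A X.tau := Submodule.module X.Tau

/-- `Hom (M, τ N) = 0` where `M`, `N` are presented by `X`, `Y`. -/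
def HomTauZero (X Y : Pres k A) : Prop := ∀ φ : X.coker →ₗ[A] Y.tau, φ = 0

/-- The two modules are isomorphic. -/
def Iso (M N : FDMod k A) : Prop := Nonempty (M ≃ₗ[A] N)

/-- `Hom (M, N) = 0`. -/
def HomZero (M N : FDMod k A) : Prop := ∀ φ : M →ₗ[A] N, φ = 0

/-- A basic `τ`-rigid pair, given by the minimal projective presentations `X i` of the
indecomposable summands `M i` of the `τ`-rigid module and by the indecomposable summands `Q j` of
the projective module. -/
structure IsTauRigidPair {p q : ℕ} (X : Fin p → Pres k A) (Q : Fin q → FDMod k A) : Prop where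
  minimal : ∀ i, (X i).Minimal
  indec : ∀ i, Indec A (X i).coker
  noniso : ∀ i j, i ≠ j → ¬ Iso (X i).coker (X j).coker
  rigid : ∀ i j, HomTauZero (X i) (X j)
  projQ : ∀ j, Module.Projective A (Q j)
  indecQ : ∀ j, Indec A (Q j)
  nonisoQ : ∀ i j, i ≠ j → ¬ Iso (Q i) (Q j)
  homzero : ∀ i j, HomZero (Q j) (X i).coker

/-- `v` lies in the cone of the pair, spanned by the `g`-vectors of the `M i` and the negatives
of the classes of the `Q j`. -/
def InCone {n p q : ℕ} (S : Fin n → FDMod k A) (X : Fin p → Pres k A) (Q : Fin q → FDMod k A)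
    (v : Fin n → ℝ) : Prop :=
  ∃ (a : Fin p → ℝ) (b : Fin q → ℝ), (∀ i, 0 ≤ a i) ∧ (∀ j, 0 ≤ b j) ∧
    ∀ l, v l = ∑ i, a i * ((X i).g S l : ℝ) - ∑ j, b j * (hd k A (Q j) (S l) : ℝ)

/-- `v` lies in (a cone of) the `τ`-tilting fan. -/
def InFan {n : ℕ} (S : Fin n → FDMod k A) (v : Fin n → ℝ) : Prop :=
  ∃ (p q : ℕ) (X : Fin p → Pres k A) (Q : Fin q → FDMod k A),
    IsTauRigidPair X Q ∧ InCone S X Q v

end

end Dem
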