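import Pool.Agent.Helper7.Dem.Rad

universe u

set_option linter.unusedSectionVars false

namespace Dem

variable {k A : Type u} [Field k] [Ring A] [Algebra k A]

variable {n : ℕ} {S : Fin n → FDMod k A}

lemma exists_dvec (hS : CompleteSimples S) : ∀ (m : ℕ) (N : FDMod k A),
    Module.finrank k N = m → ∃ d : Fin n → ℕ, ∀ P : FDMod k A, Module.Projective A P →
      hd k A P N = ∑ l, hd k A P (S l) * d l := by
  intro m
  induction m using Nat.strong_induction_on with
  | _ m ih =>
    intro N hN
    rcases subsingleton_or_nontrivial N with hs | hs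
    · refine ⟨0, fun P _ => ?_⟩
      have : hd k A P N = 0 := by
        rw [hd_eq_zero_iff]
        intro φ
        ext x
        exact Subsingleton.elim _ _
      simp [this]
    · have := artin k A N
      obtain ⟨T, hT, -⟩ := (eq_bot_or_exists_atom_le (⊤ : Submodule A N)).resolve_left top_ne_bot
      have hsim : IsSimpleModule A T := isSimpleModule_iff_isAtom.2 hT
      obtain ⟨i, ⟨e⟩⟩ := hS.complete (FDMod.of k A T) hsim
      have hlt : Module.finrank k (N ⧸ T) < m := by
        have h1 := Submodule.finrank_quotient_add_finrank (T.restrictScalars k)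
        have h2 : 0 < Module.finrank k (T.restrictScalars k) := by
          have h3 : Nontrivial (T.restrictScalars k) := by
            have := hsim.nontrivial
            exact this
          exact Module.finrank_pos
        have h4 : Module.finrank k (N ⧸ T) = Module.finrank k (N ⧸ T.restrictScalars k) := rfl
        omega
      obtain ⟨d, hd'⟩ := ih _ hlt (FDMod.of k A (N ⧸ T)) rfl
      refine ⟨d + Pi.single i 1, fun P hP => ?_⟩
      rw [hd_add T]
      have h1 := hd' P hP
      change hd k A P (N ⧸ T) = _ at h1
      rw [h1]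
      have h2 : hd k A P T = hd k A P (S i) := hd_congr_right e
      rw [h2]
      simp only [Pi.add_apply, mul_add, Finset.sum_add_distrib, Pi.single_apply, mul_ite, mul_one,
        mul_zero, Finset.sum_ite_eq', Finset.mem_univ, if_true]
      ring

/-- the dimension vector -/
noncomputable def dv (hS : CompleteSimples S) (N : FDMod k A) : Fin n → ℕ :=
  (exists_dvec hS _ N rfl).choose

lemma hd_eq_sum (hS : CompleteSimples S) (N : FDMod k A) (P : FDMod k A)
    (hP : Module.Projective A P) :
    hd k A P N = ∑ l, hd k A P (S l) * dv hS N l :=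
  (exists_dvec hS _ N rfl).choose_spec P hP

lemma chi_eq_sum (hS : CompleteSimples S) (N : FDMod k A) (X : Pres k A) :
    chi k X N = ∑ l, X.g S l * dv hS N l := by
  unfold chi Pres.g
  rw [hd_eq_sum hS N X.P0 X.proj0, hd_eq_sum hS N X.P1 X.proj1]
  push_cast
  rw [← Finset.sum_sub_distrib]
  refine Finset.sum_congr rfl fun l _ => ?_
  ring

/-- a module with no nonzero map to any simple module is zero; version for nonzero modules -/
lemma exists_map_simple (hS : CompleteSimples S) (N : FDMod k A) [Nontrivial N] :
    ∃ i, ∃ φ : N →ₗ[A] S i, Function.Surjective φ := by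
  have := noeth k A N
  obtain ⟨T, hT, -⟩ := (eq_top_or_exists_le_coatom (⊥ : Submodule A N)).resolve_left bot_ne_top
  have hsim : IsSimpleModule A (N ⧸ T) := isSimpleModule_iff_isCoatom.2 hT
  obtain ⟨i, ⟨e⟩⟩ := hS.complete (FDMod.of k A (N ⧸ T)) hsim
  exact ⟨i, e.toLinearMap ∘ₗ T.mkQ, e.surjective.comp T.mkQ_surjective⟩

lemma exists_map_from_simple (hS : CompleteSimples S) (N : FDMod k A) [Nontrivial N] :
    ∃ i, ∃ φ : S i →ₗ[A] N, Function.Injective φ := by
  have := artin k A N
  obtain ⟨T, hT, -⟩ := (eq_bot_or_exists_atom_le (⊤ : Submodule A N)).resolve_left top_ne_bot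
  have hsim : IsSimpleModule A T := isSimpleModule_iff_isAtom.2 hT
  obtain ⟨i, ⟨e⟩⟩ := hS.complete (FDMod.of k A T) hsim
  exact ⟨i, T.subtype ∘ₗ e.symm.toLinearMap, Subtype.val_injective.comp e.symm.injective⟩

end Dem
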