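import Pool.Agent.Helper7.Dem.Dvec

universe u

set_option linter.unusedSectionVars false

namespace Dem

variable {k A : Type u} [Field k] [Ring A] [Algebra k A]

/-- the submodule of `N` generated by the modules `M i`, `i ∈ s` -/
def trc {ι : Type} (s : Finset ι) (M : ι → FDMod k A) (N : Type u) [AddCommGroup N]
    [Module A N] : Submodule A N :=
  ⨆ i ∈ s, ⨆ φ : M i →ₗ[A] N, LinearMap.range φ

section

variable {ι : Type} {s : Finset ι} {M : ι → FDMod k A} {N N' : Type u} [AddCommGroup N]
    [Module A N] [AddCommGroup N'] [Module A N']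

lemma range_le_trc {i : ι} (hi : i ∈ s) (φ : M i →ₗ[A] N) : LinearMap.range φ ≤ trc s M N :=
  le_trans (le_iSup (fun φ : M i →ₗ[A] N => LinearMap.range φ) φ)
    (le_iSup₂ (f := fun i (_ : i ∈ s) => ⨆ φ : M i →ₗ[A] N, LinearMap.range φ) i hi)

lemma trc_le {T : Submodule A N} (h : ∀ i ∈ s, ∀ φ : M i →ₗ[A] N, LinearMap.range φ ≤ T) :
    trc s M N ≤ T :=
  iSup₂_le fun i hi => iSup_le fun φ => h i hi φ

lemma map_trc_le (f : N →ₗ[A] N') : (trc s M N).map f ≤ trc s M N' := by
  rw [Submodule.map_le_iff_le_comap]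
  refine trc_le fun i hi φ => ?_
  rw [← Submodule.map_le_iff_le_comap, ← LinearMap.range_comp]
  exact range_le_trc hi _

lemma trc_mono {t : Finset ι} (h : t ⊆ s) : trc t M N ≤ trc s M N :=
  trc_le fun _ hi φ => range_le_trc (h hi) φ

end

/-- Elimination: in a finite nonempty family of pairwise non-isomorphic indecomposables there is
one which is not generated by the others. -/
lemma elim [IsAlgClosed k] {ι : Type} [DecidableEq ι] (M : ι → FDMod k A) (s : Finset ι)
    (hs : s.Nonempty) (hind : ∀ i ∈ s, Indec A (M i))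
    (hne : ∀ i ∈ s, ∀ j ∈ s, i ≠ j → IsEmpty (M i ≃ₗ[A] M j)) :
    ∃ j ∈ s, trc (s.erase j) M (M j) ≠ ⊤ := by
  induction s using Finset.strongInduction with
  | H s ih =>
    by_contra hcon
    push Not at hcon
    obtain ⟨i0, hi0⟩ := hs
    rcases (s.erase i0).eq_empty_or_nonempty with he | hne'
    · have h1 := hcon i0 hi0
      rw [he] at h1
      have h2 : trc (∅ : Finset ι) M (M i0) = ⊥ := by
        rw [eq_bot_iff]
        exact trc_le (by simp)
      rw [h2] at h1
      have := (hind i0 hi0).1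
      exact bot_ne_top h1
    · obtain ⟨j, hj, hj'⟩ := ih _ (Finset.erase_ssubset hi0) hne'
        (fun i hi => hind i (Finset.mem_of_mem_erase hi))
        (fun i hi j hj => hne i (Finset.mem_of_mem_erase hi) j (Finset.mem_of_mem_erase hj))
      apply hj'
      have hjs : j ∈ s := Finset.mem_of_mem_erase hj
      have hji : j ≠ i0 := Finset.ne_of_mem_erase hj
      refine nakayama k _ ?_ ?_
      · intro φ x hx
        exact map_trc_le φ ⟨x, hx, rfl⟩
      · rw [eq_top_iff, ← hcon j hjs]
        refine trc_le fun i hi φ => ?_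
        have hi1 : i ∈ s := Finset.mem_of_mem_erase hi
        have hi2 : i ≠ j := Finset.ne_of_mem_erase hi
        by_cases hii : i = i0
        · subst hii
          have h1 := hcon i hi1
          have h2 : LinearMap.range φ = (trc (s.erase i) M (M i)).map φ := by
            rw [h1, Submodule.map_top]
          rw [h2, Submodule.map_le_iff_le_comap]
          refine trc_le fun l hl ψ => ?_
          rw [← Submodule.map_le_iff_le_comap, ← LinearMap.range_comp]
          by_cases hlj : l = j
          · subst hlj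
            refine le_trans (range_le_JM ?_) le_sup_right
            exact comp_mem_JR (k := k) (hind l hjs) (hind i hi1)
              (hne l hjs i hi1 hi2.symm) ψ φ
          · refine le_trans (range_le_trc ?_ _) le_sup_left
            rw [Finset.mem_erase]
            exact ⟨hlj, hl⟩
        · refine le_trans (range_le_trc ?_ φ) le_sup_left
          rw [Finset.mem_erase, Finset.mem_erase]
          exact ⟨hi2, hii, hi1⟩

section label

variable [IsAlgClosed k] {ι : Type} [DecidableEq ι] {X : ι → Pres k A} {s : Finset ι}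

/-- the family of modules presented by `X` -/
abbrev modf (X : ι → Pres k A) : ι → FDMod k A := fun i => FDMod.of k A (X i).M

/-- the submodule of `M j` whose quotient is the label -/
def rj (X : ι → Pres k A) (s : Finset ι) (j : ι) : Submodule A (X j).M :=
  trc (s.erase j) (modf X) (X j).M ⊔ JM A (X j).M

lemma rj_ne_top {j : ι} (h : trc (s.erase j) (modf X) (X j).M ≠ ⊤) : rj X s j ≠ ⊤ := by
  intro h1
  apply h
  refine nakayama k _ ?_ h1
  intro φ x hx
  exact map_trc_le φ ⟨x, hx, rfl⟩

lemma EZ_trc {Y : Pres k A} {M : ι → FDMod k A} {N : Type u} [AddCommGroup N] [Module k N]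
    [Module A N] [IsScalarTower k A N] [Module.Finite k N]
    (h : ∀ i ∈ s, EZ Y (M i)) : EZ Y (trc s M N) := by
  unfold trc
  refine EZ_iSup (k := k) _ fun i => ?_
  refine EZ_iSup (k := k) _ fun hi => ?_
  refine EZ_iSup (k := k) _ fun φ => ?_
  exact EZ_range φ (h i hi)

lemma EZ_JM {Y : Pres k A} {M : Type u} [AddCommGroup M] [Module k M]
    [Module A M] [IsScalarTower k A M] [Module.Finite k M] (h : EZ Y M) : EZ Y (JM A M) := by
  unfold JM
  refine EZ_iSup (k := k) _ fun j => ?_
  exact EZ_range _ h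

lemma EZ_rj {Y : Pres k A} {j : ι} (hj : j ∈ s) (h : ∀ i ∈ s, EZ Y (X i).M) :
    EZ Y (rj X s j) := by
  have h1 : EZ Y (trc (s.erase j) (modf X) (X j).M) :=
    EZ_trc (M := modf X) fun i hi => h i (Finset.mem_of_mem_erase hi)
  have h2 : EZ Y (JM A (X j).M) := EZ_JM (h j hj)
  exact EZ_sup h1 h2

lemma HZ_label {i j : ι} (hi : i ∈ s) (hj : j ∈ s) (hij : i ≠ j)
    (hcomp : ∀ l ∈ s, EZ (X i) (X l).M) : HZ (X i) ((X j).M ⧸ rj X s j) := by
  intro φ
  have h1 : EZ (X i) (LinearMap.ker (rj X s j).mkQ) := by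
    rw [Submodule.ker_mkQ]
    exact EZ_rj hj hcomp
  obtain ⟨ψ, hψ⟩ := lift_of_EZ_ker (rj X s j).mkQ (Submodule.mkQ_surjective _) h1 φ
  have h2 : LinearMap.range ψ ≤ rj X s j :=
    le_trans (range_le_trc (s := s.erase j) (M := modf X) (i := i)
      (Finset.mem_erase.2 ⟨hij, hi⟩) ψ) le_sup_left
  rw [← hψ]
  refine LinearMap.ext fun x => ?_
  rw [LinearMap.zero_apply, LinearMap.comp_apply, Submodule.mkQ_apply,
    Submodule.Quotient.mk_eq_zero]
  exact h2 ⟨x, rfl⟩

lemma hd_label {j : ι} (hj : j ∈ s) (hcomp : ∀ l ∈ s, EZ (X j) (X l).M)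
    (hind : Indec A (X j).M) (hne : rj X s j ≠ ⊤) :
    hd k A (X j).M ((X j).M ⧸ rj X s j) = 1 := by
  have h0 : (rj X s j).mkQ ≠ 0 := by
    intro h
    apply hne
    rw [← Submodule.ker_mkQ (rj X s j), h, LinearMap.ker_zero]
  refine (finrank_eq_one_iff_of_nonzero' (rj X s j).mkQ h0).2 fun φ => ?_
  have h1 : EZ (X j) (LinearMap.ker (rj X s j).mkQ) := by
    rw [Submodule.ker_mkQ]
    exact EZ_rj hj hcomp
  obtain ⟨ψ, hψ⟩ := lift_of_EZ_ker (rj X s j).mkQ (Submodule.mkQ_surjective _) h1 φ
  obtain ⟨c, hc⟩ := exists_sub_mem_JR (k := k) hind ψ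
  refine ⟨c, ?_⟩
  rw [← hψ]
  refine LinearMap.ext fun x => ?_
  have h2 : ψ x - c • x ∈ rj X s j := by
    have := mem_JM hc x
    rw [LinearMap.sub_apply, LinearMap.smul_apply] at this
    exact Submodule.mem_sup_right this
  rw [LinearMap.smul_apply, LinearMap.comp_apply, Submodule.mkQ_apply, Submodule.mkQ_apply]
  rw [← Submodule.Quotient.mk_smul, eq_comm, Submodule.Quotient.eq]
  exact h2

end label

/-- Integrality of the coefficients. -/
lemma integrality [IsAlgClosed k] {n : ℕ} {S : Fin n → FDMod k A} (hS : CompleteSimples S)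
    {ι : Type} [DecidableEq ι] (X : ι → Pres k A) (a : ι → ℝ) (s : Finset ι)
    (hind : ∀ i ∈ s, Indec A (X i).M)
    (hne : ∀ i ∈ s, ∀ j ∈ s, i ≠ j → IsEmpty ((X i).M ≃ₗ[A] (X j).M))
    (hcomp : ∀ i ∈ s, ∀ j ∈ s, EZ (X i) (X j).M) (r : Fin n → ℝ)
    (hr : ∀ N : FDMod k A, (∃ i ∈ s, ∃ π : (X i).M →ₗ[A] N, Function.Surjective π) →
      ∑ l, r l * (dv hS N l : ℝ) = 0)
    (v : Fin n → ℤ) (hv : ∀ l, (v l : ℝ) = ∑ i ∈ s, a i * ((X i).g S l : ℝ) + r l) :
    ∀ i ∈ s, ∃ z : ℤ, a i = z := by
  induction s using Finset.strongInduction generalizing v with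
  | H s ih =>
    rcases s.eq_empty_or_nonempty with he | hs
    · subst he
      simp
    · obtain ⟨j, hj, hj'⟩ := elim (modf X) s hs hind hne
      have hne' : rj X s j ≠ ⊤ := rj_ne_top hj'
      set N := FDMod.of k A ((X j).M ⧸ rj X s j) with hN
      have hEZ : ∀ i ∈ s, EZ (X i) N := fun i hi =>
        EZ_of_surj (rj X s j).mkQ (Submodule.mkQ_surjective _) (hcomp i hi j hj)
      have hchi : ∀ i ∈ s, chi k (X i) N = if i = j then 1 else 0 := by
        intro i hi
        rw [chi_of_EZ _ (hEZ i hi)]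
        split_ifs with h
        · subst h
          have := hd_label hj (hcomp i hj) (hind i hj) hne'
          exact_mod_cast this
        · have := HZ_label hi hj h (hcomp i hi)
          have h2 : hd k A (X i).M N = 0 := (hd_eq_zero_iff_HZ (X i)).2 this
          exact_mod_cast h2
      have hr' := hr N ⟨j, hj, (rj X s j).mkQ, Submodule.mkQ_surjective _⟩
      -- pairing
      have hpair : ∑ l, (v l : ℝ) * (dv hS N l : ℝ) = a j := by
        have h1 : ∀ l, (v l : ℝ) * (dv hS N l : ℝ) =
            ∑ i ∈ s, a i * (((X i).g S l : ℝ) * (dv hS N l : ℝ)) + r l * (dv hS N l : ℝ) := by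
          intro l
          rw [hv l, add_mul, Finset.sum_mul]
          congr 1
          refine Finset.sum_congr rfl fun i _ => ?_
          ring
        rw [Finset.sum_congr rfl fun l _ => h1 l, Finset.sum_add_distrib, hr', add_zero,
          Finset.sum_comm]
        have h2 : ∀ i ∈ s, ∑ l, a i * (((X i).g S l : ℝ) * (dv hS N l : ℝ)) =
            a i * (if i = j then 1 else 0) := by
          intro i hi
          rw [← Finset.mul_sum]
          congr 1
          have h3 := chi_eq_sum hS N (X i)
          rw [hchi i hi] at h3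
          have h4 := congrArg (fun z : ℤ => (z : ℝ)) h3
          push_cast at h4
          rw [← h4]
        rw [Finset.sum_congr rfl h2]
        simp [hj]
      have hz : ∃ z : ℤ, a j = z := by
        refine ⟨∑ l, v l * (dv hS N l : ℤ), ?_⟩
        rw [← hpair]
        push_cast
        rfl
      obtain ⟨z, hz⟩ := hz
      intro i hi
      by_cases hij : i = j
      · exact ⟨z, by rw [hij, hz]⟩
      · refine ih (s.erase j) (Finset.erase_ssubset hj)
          (fun i hi => hind i (Finset.mem_of_mem_erase hi))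
          (fun i hi j hj => hne i (Finset.mem_of_mem_erase hi) j (Finset.mem_of_mem_erase hj))
          (fun i hi j hj => hcomp i (Finset.mem_of_mem_erase hi) j (Finset.mem_of_mem_erase hj))
          (fun N ⟨i, hi, h⟩ => hr N ⟨i, Finset.mem_of_mem_erase hi, h⟩)
          (fun l => v l - z * (X j).g S l) ?_ i (Finset.mem_erase.2 ⟨hij, hi⟩)
        intro l
        push_cast
        rw [hv l, ← Finset.add_sum_erase s _ hj, hz]
        ring

end Dem
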