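import Pool.Agent.Helper7.Dem.Cone

universe u

set_option linter.unusedSectionVars false

namespace Dem

variable {k A : Type u} [Field k] [Ring A] [Algebra k A]

section

variable {S : Fin 2 → FDMod k A}

lemma chi_two (hS : CompleteSimples S) (X : Pres k A) (N : FDMod k A) :
    chi k X N = X.g S 0 * dv hS N 0 + X.g S 1 * dv hS N 1 := by
  rw [chi_eq_sum hS N X, Fin.sum_univ_two]

lemma subsingleton_of_dv [Module.Finite k A] {n : ℕ} {S : Fin n → FDMod k A}
    (hS : CompleteSimples S) (N : FDMod k A)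
    (h : ∀ l, dv hS N l = 0) : Subsingleton N := by
  have h1 := hd_eq_sum hS N (FDMod.of k A A) (inferInstanceAs (Module.Projective A A))
  simp only [h, mul_zero, Finset.sum_const_zero] at h1
  rw [hd_eq_zero_iff] at h1
  refine ⟨fun x y => ?_⟩
  have h2 := h1 (LinearMap.toSpanSingleton A N x)
  have h3 := h1 (LinearMap.toSpanSingleton A N y)
  have h4 := LinearMap.congr_fun h2 (1 : A)
  have h5 := LinearMap.congr_fun h3 (1 : A)
  rw [LinearMap.toSpanSingleton_apply, one_smul, LinearMap.zero_apply] at h4 h5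
  rw [h4, h5]

end

section

variable {S : Fin 2 → FDMod k A} (hS : CompleteSimples S) {X W : Pres k A}
variable {N : Type u} [AddCommGroup N] [Module k N] [Module A N] [IsScalarTower k A N]
  [Module.Finite k N]

include hS in
/-- If `X` is left of `W`, then `EZ W` is contained in `EZ X`. -/
lemma EZ_mono (hX : EZ X X.M) (hx0 : 1 ≤ X.g S 0) (hw0 : 1 ≤ W.g S 0)
    (hdet : X.g S 1 * W.g S 0 - X.g S 0 * W.g S 1 = 1) (h : EZ W N) : EZ X N := by
  rw [← ed_eq_zero_iff (k := k)]
  have h1 := ed_eq_neg_chi_quot (k := k) (N := N) hX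
  set L := FDMod.of k A (N ⧸ tz X N) with hL
  have hWL : EZ W L := EZ_of_surj (tz X N).mkQ (Submodule.mkQ_surjective _) h
  have h2 := chi_two hS X L
  have h3 := chi_two hS W L
  have h4 : 0 ≤ chi k W L := by rw [chi_of_EZ (k := k) W hWL]; positivity
  by_contra hne
  have h5 : chi k X L ≤ -1 := by
    change (ed k X N : ℤ) = - chi k X L at h1
    omega
  have h6 : X.g S 0 * chi k W L - W.g S 0 * chi k X L = - (dv hS L 1 : ℤ) := by
    rw [h2, h3]
    linear_combination (-(dv hS L 1 : ℤ)) * hdet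
  have h7 : 0 ≤ X.g S 0 * chi k W L := mul_nonneg (by omega) h4
  have h8 : W.g S 0 * chi k X L ≤ -1 := by nlinarith
  have h9 : (0 : ℤ) ≤ dv hS L 1 := by positivity
  omega

include hS in
/-- A nonzero module in `EZ W` receives a nonzero map from `X.M`. -/
lemma exists_map_of_EZ [Module.Finite k A] [Nontrivial N] (hX : EZ X X.M)
    (hx0 : 1 ≤ X.g S 0) (hw0 : 1 ≤ W.g S 0)
    (hdet : X.g S 1 * W.g S 0 - X.g S 0 * W.g S 1 = 1) (h : EZ W N) : ¬ HZ X N := by
  intro hH
  have h1 : EZ X N := EZ_mono hS hX hx0 hw0 hdet h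
  have h2 : chi k X N = 0 := by
    rw [chi_of_EZ (k := k) X h1, (hd_eq_zero_iff_HZ X).2 hH]; rfl
  have h3 : 0 ≤ chi k W N := by rw [chi_of_EZ (k := k) W h]; positivity
  have h4 := chi_two hS X (FDMod.of k A N)
  have h5 := chi_two hS W (FDMod.of k A N)
  change chi k X N = _ at h4
  change chi k W N = _ at h5
  set d0 : ℤ := (dv hS (FDMod.of k A N) 0 : ℤ) with hd0
  set d1 : ℤ := (dv hS (FDMod.of k A N) 1 : ℤ) with hd1
  have h6 : 0 ≤ d0 := by positivity
  have h7 : 0 ≤ d1 := by positivity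
  have h8 : X.g S 0 * chi k W N - W.g S 0 * chi k X N = - d1 := by
    rw [h4, h5]
    linear_combination (-d1) * hdet
  have h9 : 0 ≤ X.g S 0 * chi k W N := mul_nonneg (by omega) h3
  have h10 : d1 = 0 := by
    rw [h2, mul_zero, sub_zero] at h8
    omega
  have h11 : d0 = 0 := by
    rw [h2, h10, mul_zero, add_zero] at h4
    have : X.g S 0 ≠ 0 := by omega
    rcases mul_eq_zero.1 h4.symm with h | h
    · exact absurd h this
    · exact h
  have h12 : Subsingleton (FDMod.of k A N) := by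
    refine subsingleton_of_dv hS _ (Fin.forall_fin_two.2 ⟨?_, ?_⟩)
    · rw [hd0] at h11
      exact_mod_cast h11
    · rw [hd1] at h10
      exact_mod_cast h10
  exact not_subsingleton N h12

/-- lifting endomorphisms of `X.M / JM` -/
lemma endo_label [IsAlgClosed k] (hXi : Indec A X.M) (hX : EZ X X.M)
    (θ : (X.M ⧸ JM A X.M) →ₗ[A] (X.M ⧸ JM A X.M)) (hθ : θ ≠ 0) : Function.Bijective θ := by
  have h1 : EZ X (LinearMap.ker (JM A X.M).mkQ) := by
    rw [Submodule.ker_mkQ]
    exact EZ_JM hX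
  obtain ⟨ψ, hψ⟩ := lift_of_EZ_ker (JM A X.M).mkQ (Submodule.mkQ_surjective _) h1
    (θ ∘ₗ (JM A X.M).mkQ)
  obtain ⟨c, hc⟩ := exists_sub_mem_JR (k := k) hXi ψ
  have h2 : ∀ y, θ y = c • y := by
    intro y
    obtain ⟨x, rfl⟩ := Submodule.mkQ_surjective _ y
    have h3 := LinearMap.congr_fun hψ x
    simp only [LinearMap.coe_comp, Function.comp_apply] at h3
    rw [← h3]
    have h4 : ψ x - c • x ∈ JM A X.M := by
      have := mem_JM hc x
      rwa [LinearMap.sub_apply, LinearMap.smul_apply] at this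
    rw [Submodule.mkQ_apply, Submodule.mkQ_apply, ← Submodule.Quotient.mk_smul,
      Submodule.Quotient.eq]
    exact h4
  have hc0 : c ≠ 0 := by
    rintro rfl
    apply hθ
    refine LinearMap.ext fun y => ?_
    rw [h2, zero_smul]
    rfl
  constructor
  · intro x y hxy
    rw [h2, h2] at hxy
    have := congrArg (fun z => c⁻¹ • z) hxy
    simpa [smul_smul, inv_mul_cancel₀ hc0] using this
  · intro y
    refine ⟨c⁻¹ • y, ?_⟩
    rw [h2, smul_smul, mul_inv_cancel₀ hc0, one_smul]

include hS in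
lemma HZ_label2 [IsAlgClosed k] [Module.Finite k A]
    (hXm : X.Minimal) (hXi : Indec A X.M) (hX : EZ X X.M)
    (hWm : W.Minimal) (hWi : Indec A W.M) (hW : EZ W W.M)
    (hx0 : 1 ≤ X.g S 0) (hw0 : 1 ≤ W.g S 0)
    (hdet : X.g S 1 * W.g S 0 - X.g S 0 * W.g S 1 = 1) (hWX : EZ W X.M) :
    HZ W (X.M ⧸ JM A X.M) := by
  -- `X.M` and `W.M` are not isomorphic
  have hne : IsEmpty (X.M ≃ₗ[A] W.M) := by
    refine ⟨fun e => ?_⟩
    have h0 : X.g S 0 = W.g S 0 := chi_unique hXm hWm e (hS.simple 0)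
    have h1 : X.g S 1 = W.g S 1 := chi_unique hXm hWm e (hS.simple 1)
    rw [h0, h1] at hdet
    have : W.g S 1 * W.g S 0 - W.g S 0 * W.g S 1 = 0 := by ring
    omega
  -- the trace of `X.M` in `W.M` is everything
  set T : Submodule A W.M := ⨆ ψ : X.M →ₗ[A] W.M, LinearMap.range ψ with hTdef
  have hET : EZ X T := EZ_iSup (k := k) _ fun ψ => EZ_range ψ hX
  have hHZ : HZ X (W.M ⧸ T) := by
    intro φ
    have h1 : EZ X (LinearMap.ker T.mkQ) := by
      rw [Submodule.ker_mkQ]
      exact hET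
    obtain ⟨ψ, hψ⟩ := lift_of_EZ_ker T.mkQ (Submodule.mkQ_surjective _) h1 φ
    rw [← hψ]
    refine LinearMap.ext fun x => ?_
    rw [LinearMap.comp_apply, Submodule.mkQ_apply, LinearMap.zero_apply,
      Submodule.Quotient.mk_eq_zero]
    exact le_iSup (fun ψ : X.M →ₗ[A] W.M => LinearMap.range ψ) ψ ⟨x, rfl⟩
  have hT : T = ⊤ := by
    by_contra hcon
    have : Nontrivial (W.M ⧸ T) := Submodule.Quotient.nontrivial_iff.2 hcon
    exact exists_map_of_EZ hS hX hx0 hw0 hdet
      (EZ_of_surj T.mkQ (Submodule.mkQ_surjective _) hW) hHZ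
  -- maps `W.M → X.M` have image in `JM`
  have hJ : ∀ φ : W.M →ₗ[A] X.M, ∀ y, φ y ∈ JM A X.M := by
    intro φ y
    have hy : y ∈ T := by rw [hT]; trivial
    have h1 : T ≤ (JM A X.M).comap φ := by
      refine iSup_le fun ψ => ?_
      rintro _ ⟨x, rfl⟩
      exact mem_JM (comp_mem_JR (k := k) hXi hWi hne ψ φ) x
    exact h1 hy
  intro φ
  have h1 : EZ W (LinearMap.ker (JM A X.M).mkQ) := by
    rw [Submodule.ker_mkQ]
    exact EZ_JM hWX
  obtain ⟨ψ, hψ⟩ := lift_of_EZ_ker (JM A X.M).mkQ (Submodule.mkQ_surjective _) h1 φ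
  rw [← hψ]
  refine LinearMap.ext fun x => ?_
  rw [LinearMap.comp_apply, Submodule.mkQ_apply, LinearMap.zero_apply,
    Submodule.Quotient.mk_eq_zero]
  exact hJ ψ x

include hS in
/-- a nonzero module in `EZ W` receives a nonzero map from the label -/
lemma exists_map_label [Module.Finite k A] [Nontrivial N]
    (hX : EZ X X.M) (hx0 : 1 ≤ X.g S 0) (hw0 : 1 ≤ W.g S 0)
    (hdet : X.g S 1 * W.g S 0 - X.g S 0 * W.g S 1 = 1) (h : EZ W N) :
    ∃ φ : (X.M ⧸ JM A X.M) →ₗ[A] N, φ ≠ 0 := by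
  have h1 := exists_map_of_EZ hS hX hx0 hw0 hdet h
  unfold HZ at h1
  push Not at h1
  obtain ⟨φ, hφ⟩ := h1
  obtain ⟨φ', hφ', hk⟩ := exists_killing k φ hφ
  have h2 : JM A X.M ≤ LinearMap.ker φ' := by
    refine iSup_le ?_
    rintro ⟨j, hj⟩ _ ⟨x, rfl⟩
    exact LinearMap.congr_fun (hk j hj) x
  refine ⟨(JM A X.M).liftQ φ' h2, fun h0 => hφ' ?_⟩
  have h3 : φ' = ((JM A X.M).liftQ φ' h2) ∘ₗ (JM A X.M).mkQ := by
    rw [Submodule.liftQ_mkQ]
  rw [h3, h0, LinearMap.zero_comp]

include hS in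
/-- The key lemma: a brick in `EZ W` having a nonzero quotient in `EZ W ∩ HZ W` is the label. -/
theorem key [IsAlgClosed k] [Module.Finite k A]
    (hXm : X.Minimal) (hXi : Indec A X.M) (hX : EZ X X.M)
    (hWm : W.Minimal) (hWi : Indec A W.M) (hW : EZ W W.M)
    (hx0 : 1 ≤ X.g S 0) (hw0 : 1 ≤ W.g S 0)
    (hdet : X.g S 1 * W.g S 0 - X.g S 0 * W.g S 1 = 1) (hWX : EZ W X.M)
    (B : FDMod k A) (hB : IsBrick A B) (hEB : EZ W B)
    (hq : ∃ T : Submodule A B, T ≠ ⊤ ∧ EZ W (B ⧸ T) ∧ HZ W (B ⧸ T)) :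
    Nonempty (B ≃ₗ[A] (X.M ⧸ JM A X.M)) := by
  have hHN := HZ_label2 hS hXm hXi hX hWm hWi hW hx0 hw0 hdet hWX
  have hEN : EZ W (X.M ⧸ JM A X.M) := EZ_of_surj (JM A X.M).mkQ (Submodule.mkQ_surjective _) hWX
  -- the label is nonzero
  have hNt : Nontrivial (X.M ⧸ JM A X.M) := by
    rw [Submodule.Quotient.nontrivial_iff]
    intro h
    have h1 := nakayama k (⊥ : Submodule A X.M) (by
      intro φ x hx
      rw [Submodule.mem_bot] at hx ⊢
      rw [hx, map_zero]) (by rw [h, bot_sup_eq])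
    have := hXi.1
    exact bot_ne_top h1
  -- choose a maximal `T`
  have hwf : WellFoundedGT (Submodule A B) := by
    have := noeth k A B
    infer_instance
  obtain ⟨T, ⟨hT, hET, hHT⟩, hmax⟩ := hwf.wf.has_min
    {T : Submodule A B | T ≠ ⊤ ∧ EZ W (B ⧸ T) ∧ HZ W (B ⧸ T)} hq
  have hBT : Nontrivial (B ⧸ T) := Submodule.Quotient.nontrivial_iff.2 hT
  obtain ⟨i, hi⟩ := exists_map_label hS hX hx0 hw0 hdet hET
  -- `i` is injective
  have hinj : Function.Injective i := by
    rw [← LinearMap.ker_eq_bot]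
    by_contra hne
    have hnt : Nontrivial (LinearMap.ker i) := Submodule.nontrivial_iff_ne_bot.2 hne
    have hEK : EZ W (LinearMap.ker i) := EZ_ker i hEN hHT
    obtain ⟨j, hj⟩ := exists_map_label hS hX hx0 hw0 hdet hEK
    have h1 : ((LinearMap.ker i).subtype ∘ₗ j) ≠ 0 := by
      intro h0
      apply hj
      refine LinearMap.ext fun x => ?_
      exact Subtype.ext (LinearMap.congr_fun h0 x)
    have h2 := (endo_label hXi hX _ h1).2
    apply hi
    refine LinearMap.ext fun x => ?_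
    obtain ⟨y, hy⟩ := h2 x
    have h3 : i (j y : X.M ⧸ JM A X.M) = 0 := (j y).2
    have h4 : ((j y : X.M ⧸ JM A X.M)) = x := hy
    rw [h4] at h3
    exact h3
  -- `i` is surjective
  have hsurj : Function.Surjective i := by
    rw [← LinearMap.range_eq_top]
    by_contra hne
    have hlt : T < (LinearMap.range i).comap T.mkQ := by
      refine lt_of_le_of_ne ?_ ?_
      · intro x hx
        rw [Submodule.mem_comap, Submodule.mkQ_apply, (Submodule.Quotient.mk_eq_zero T).2 hx]
        exact Submodule.zero_mem _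
      · intro he
        apply hi
        refine LinearMap.ext fun x => ?_
        obtain ⟨b, hb⟩ := Submodule.mkQ_surjective T (i x)
        have h1 : b ∈ (LinearMap.range i).comap T.mkQ := by
          rw [Submodule.mem_comap, hb]
          exact ⟨_, rfl⟩
        rw [← he] at h1
        have h2 : T.mkQ b = 0 := by
          rw [Submodule.mkQ_apply]; exact (Submodule.Quotient.mk_eq_zero T).2 h1
        rw [hb] at h2
        exact h2
    refine hmax _ ⟨?_, ?_, ?_⟩ hlt
    · intro h
      apply hne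
      rw [eq_top_iff]
      intro y _
      obtain ⟨b, rfl⟩ := Submodule.mkQ_surjective T y
      have : b ∈ (LinearMap.range i).comap T.mkQ := by rw [h]; trivial
      exact this
    · refine EZ_of_surj (N := B) (Submodule.mkQ _) (Submodule.mkQ_surjective _) hEB
    · -- maps from `W.M` to the quotient
      let T' := (LinearMap.range i).comap T.mkQ
      let q : (B ⧸ T) →ₗ[A] (B ⧸ T') := T.mapQ T' LinearMap.id (by
        intro x hx
        exact hlt.le hx)
      have hq : Function.Surjective q := by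
        intro y
        obtain ⟨b, rfl⟩ := Submodule.mkQ_surjective T' y
        exact ⟨T.mkQ b, rfl⟩
      have hker : LinearMap.ker q ≤ LinearMap.range i := by
        intro y hy
        obtain ⟨b, rfl⟩ := Submodule.mkQ_surjective T y
        rw [LinearMap.mem_ker] at hy
        have h1 : (Submodule.Quotient.mk b : B ⧸ T') = 0 := hy
        rw [Submodule.Quotient.mk_eq_zero] at h1
        exact h1
      have hker' : LinearMap.range i ≤ LinearMap.ker q := by
        intro y hy
        obtain ⟨b, rfl⟩ := Submodule.mkQ_surjective T y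
        rw [LinearMap.mem_ker]
        have h1 : b ∈ T' := hy
        change (Submodule.Quotient.mk b : B ⧸ T') = 0
        rw [Submodule.Quotient.mk_eq_zero]
        exact h1
      have hEk : EZ W (LinearMap.ker q) := by
        rw [le_antisymm hker hker']
        exact EZ_range i hEN
      intro φ
      obtain ⟨ψ, hψ⟩ := lift_of_EZ_ker q hq hEk φ
      rw [← hψ, hHT ψ, LinearMap.comp_zero]
  -- the projection `B → N`
  let e := LinearEquiv.ofBijective i ⟨hinj, hsurj⟩
  let π : B →ₗ[A] (X.M ⧸ JM A X.M) := e.symm.toLinearMap ∘ₗ T.mkQ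
  have hπ : Function.Surjective π := e.symm.surjective.comp T.mkQ_surjective
  have hEK : EZ W (LinearMap.ker π) := EZ_ker π hEB hHN
  have hker : LinearMap.ker π = ⊥ := by
    by_contra hne
    have hnt : Nontrivial (LinearMap.ker π) := Submodule.nontrivial_iff_ne_bot.2 hne
    obtain ⟨j, hj⟩ := exists_map_label hS hX hx0 hw0 hdet hEK
    have h1 : ((LinearMap.ker π).subtype ∘ₗ j ∘ₗ π) ≠ 0 := by
      intro h0
      apply hj
      refine LinearMap.ext fun x => ?_
      obtain ⟨b, hb⟩ := hπ x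
      have := LinearMap.congr_fun h0 b
      simp only [LinearMap.coe_comp, Function.comp_apply] at this
      rw [hb] at this
      exact Subtype.ext this
    have h2 := (hB.2 _ h1).2
    obtain ⟨y, hy⟩ := exists_ne (0 : X.M ⧸ JM A X.M)
    apply hy
    obtain ⟨b, rfl⟩ := hπ y
    obtain ⟨c, rfl⟩ := h2 b
    exact (j (π c)).2
  exact ⟨LinearEquiv.ofBijective π ⟨LinearMap.ker_eq_bot.1 hker, hπ⟩⟩

end

end Dem
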