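import Pool.Agent.Helper7.Dem.Key

universe u

set_option linter.unusedSectionVars false

namespace Dem

variable {k A : Type u} [Field k] [Ring A] [Algebra k A]

/-- the vectors of a family -/
noncomputable def Gv {ι κ : Type} {n : ℕ} (X : ι → Pres k A) (Q : κ → FDMod k A)
    (S : Fin n → FDMod k A) : ι ⊕ κ → Fin n → ℤ :=
  Sum.elim (fun i l => (X i).g S l) (fun j l => -(hd k A (Q j) (S l) : ℤ))

@[simp] lemma Gv_inl {ι κ : Type} {n : ℕ} (X : ι → Pres k A) (Q : κ → FDMod k A)
    (S : Fin n → FDMod k A) (i : ι) (l : Fin n) : Gv X Q S (Sum.inl i) l = (X i).g S l := rfl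
@[simp] lemma Gv_inr {ι κ : Type} {n : ℕ} (X : ι → Pres k A) (Q : κ → FDMod k A)
    (S : Fin n → FDMod k A) (j : κ) (l : Fin n) :
    Gv X Q S (Sum.inr j) l = -(hd k A (Q j) (S l) : ℤ) := rfl

lemma posof {a b : ℤ} (h : 0 < a * b) (ha : 0 ≤ a) : 0 < b := by
  by_contra hcon
  push Not at hcon
  have := mul_nonpos_of_nonneg_of_nonpos ha hcon
  omega

lemma sum_one {σ : Type} [Fintype σ] (f : σ → ℤ) (hf : ∀ s, 0 ≤ f s)
    (h : ∑ s, f s = 1) : ∃ s, f s = 1 ∧ ∀ t, t ≠ s → f t = 0 := by
  classical
  have h1 : ∃ s, f s ≠ 0 := by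
    by_contra hcon
    push Not at hcon
    rw [Finset.sum_congr rfl fun s _ => hcon s] at h
    simp at h
  obtain ⟨s, hs⟩ := h1
  have h2 := Finset.add_sum_erase Finset.univ f (Finset.mem_univ s)
  have h3 : 0 ≤ ∑ t ∈ Finset.univ.erase s, f t := Finset.sum_nonneg fun t _ => hf t
  have h4 := hf s
  have h5 : f s = 1 := by omega
  refine ⟨s, h5, fun t ht => ?_⟩
  have h6 : ∑ t ∈ Finset.univ.erase s, f t = 0 := by omega
  exact (Finset.sum_eq_zero_iff_of_nonneg fun t _ => hf t).1 h6 t
    (Finset.mem_erase.2 ⟨ht, Finset.mem_univ t⟩)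

lemma sum_two {σ : Type} [Fintype σ] [DecidableEq σ] {s s' : σ} (hss : s ≠ s') (x y : ℝ)
    (F : σ → ℝ) : ∑ t, (if t = s then x else if t = s' then y else 0) * F t =
      x * F s + y * F s' := by
  have h1 : ∀ t, (if t = s then x else if t = s' then y else 0) * F t =
      (if t = s then x * F t else 0) + (if t = s' then y * F t else 0) := by
    intro t
    by_cases h1 : t = s
    · subst h1
      simp [hss]
    · simp [h1]
  rw [Finset.sum_congr rfl fun t _ => h1 t, Finset.sum_add_distrib]
  simp

section

variable {ι κ : Type} {X : ι → Pres k A} {Q : κ → FDMod k A} [Fintype ι] [Fintype κ] {n : ℕ}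
  {S : Fin n → FDMod k A}

lemma cone_convert {c : ι ⊕ κ → ℝ} {v : Fin n → ℝ}
    (h : ∀ l, v l = ∑ s, c s * (Gv X Q S s l : ℝ)) :
    ∀ l, v l = ∑ i, c (Sum.inl i) * ((X i).g S l : ℝ) -
      ∑ j, c (Sum.inr j) * (hd k A (Q j) (S l) : ℝ) := by
  intro l
  rw [h l, Fintype.sum_sum_type]
  simp only [Gv_inl, Gv_inr]
  push_cast
  simp only [mul_neg, Finset.sum_neg_distrib]
  ring

lemma Rig.mem_of_cone' [IsAlgClosed k] (hS : CompleteSimples S) (h : Rig X Q) {U : Pres k A}
    (hU : EZ U U.M) (hUi : Indec A U.M)
    {c : ι ⊕ κ → ℝ} (hc : ∀ s, 0 ≤ c s)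
    (hcone : ∀ l, (U.g S l : ℝ) = ∑ s, c s * (Gv X Q S s l : ℝ)) :
    ∃ i, c (Sum.inl i) ≠ 0 ∧ Nonempty (U.M ≃ₗ[A] (X i).M) :=
  h.mem_of_cone hS hU hUi (fun i => hc (Sum.inl i)) (fun j => hc (Sum.inr j))
    (cone_convert hcone)

lemma Rig.EZ_of_cone' (hS : CompleteSimples S) (h : Rig X Q) {U : Pres k A}
    (hU : EZ U U.M)
    {c : ι ⊕ κ → ℝ} (hc : ∀ s, 0 ≤ c s)
    (hcone : ∀ l, (U.g S l : ℝ) = ∑ s, c s * (Gv X Q S s l : ℝ)) (i : ι) : EZ U (X i).M :=
  h.EZ_of_cone hS hU (fun i => hc (Sum.inl i))
    (cone_convert hcone) i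

lemma Rig.linInd' [IsAlgClosed k] (hS : CompleteSimples S) (h : Rig X Q)
    {c : ι ⊕ κ → ℝ} (hcone : ∀ l, (0 : ℝ) = ∑ s, c s * (Gv X Q S s l : ℝ)) :
    ∀ s, c s = 0 := by
  obtain ⟨h1, h2⟩ := h.linInd hS (fun i => c (Sum.inl i)) (fun j => c (Sum.inr j))
    (cone_convert (v := fun _ => 0) hcone)
  rintro (i | j)
  · exact h1 i
  · exact h2 j

/-- sign coherence -/
lemma Rig.sign' (hS : CompleteSimples S) (h : Rig X Q) (s : ι ⊕ κ) (l : Fin n)
    (hpos : 0 < Gv X Q S s l) : ∀ t, 0 ≤ Gv X Q S t l := by
  rcases s with i | j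
  · obtain ⟨h1, h2⟩ := h.sign hS i l hpos
    rintro (i' | j')
    · exact h1 i'
    · rw [Gv_inr, h2 j']; simp
  · rw [Gv_inr] at hpos
    omega

lemma fan_integral [IsAlgClosed k] [Module.Finite k A] (hS : CompleteSimples S) (v : Fin n → ℤ)
    (h : InFan S (fun l => (v l : ℝ))) :
    ∃ (p q : ℕ) (X : Fin p → Pres k A) (Q : Fin q → FDMod k A), IsTauRigidPair X Q ∧
      ∃ c : Fin p ⊕ Fin q → ℤ, (∀ s, 0 ≤ c s) ∧ ∀ l, v l = ∑ s, c s * Gv X Q S s l := by
  obtain ⟨p, q, X, Q, hpair, a, b, ha, hb, hv⟩ := h
  obtain ⟨h1, h2⟩ := hpair.rig.integral hS a b v hv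
  choose za hza using h1
  choose zb hzb using h2
  refine ⟨p, q, X, Q, hpair, Sum.elim za zb, ?_, ?_⟩
  · rintro (i | j)
    · have := ha i
      rw [hza i] at this
      exact_mod_cast this
    · have := hb j
      rw [hzb j] at this
      exact_mod_cast this
  · intro l
    have h3 := hv l
    rw [Fintype.sum_sum_type]
    simp only [Gv_inl, Gv_inr, Sum.elim_inl, Sum.elim_inr]
    simp only [hza, hzb] at h3
    have h4 : (v l : ℝ) = ((∑ i, za i * (X i).g S l + ∑ j, zb j * -(hd k A (Q j) (S l) : ℤ) : ℤ) :
        ℝ) := by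
      rw [h3]
      push_cast
      simp only [mul_neg, Finset.sum_neg_distrib]
      ring
    exact_mod_cast h4

end

section

variable {S : Fin 2 → FDMod k A} (hS : CompleteSimples S)

include hS in
/-- The mediant of a non-compatible pair of neighbours is the class of an indecomposable. -/
theorem mediant [IsAlgClosed k] [Module.Finite k A] {U V : Pres k A}
    (hUm : U.Minimal) (hUi : Indec A U.M) (hU : EZ U U.M) (hV : EZ V V.M)
    (hVa : (V.Minimal ∧ Indec A V.M) ∨ V.g S 0 = 0)
    (hu0 : 1 ≤ U.g S 0) (hu1 : U.g S 1 ≤ 0) (hv0 : 0 ≤ V.g S 0) (hv1 : V.g S 1 ≤ -1)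
    (hdet : U.g S 1 * V.g S 0 - U.g S 0 * V.g S 1 = 1) (hnc : ¬ EZ V U.M)
    (hfan : InFan S (fun l => ((U.g S l + V.g S l : ℤ) : ℝ))) :
    ∃ W : Pres k A, W.Minimal ∧ Indec A W.M ∧ EZ W W.M ∧
      ∀ l, W.g S l = U.g S l + V.g S l := by
  classical
  obtain ⟨p, q, X, Q, hpair, c, hc, hw⟩ := fan_integral hS (fun l => U.g S l + V.g S l) hfan
  have hrig := hpair.rig
  set u0 := U.g S 0 with hu0'
  set u1 := U.g S 1 with hu1'
  set v0 := V.g S 0 with hv0'
  set v1 := V.g S 1 with hv1'
  set G := Gv X Q S with hG
  have hw0 : u0 + v0 = ∑ s, c s * G s 0 := hw 0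
  have hw1 : u1 + v1 = ∑ s, c s * G s 1 := hw 1
  let α : Fin p ⊕ Fin q → ℤ := fun s => G s 1 * v0 - G s 0 * v1
  let β : Fin p ⊕ Fin q → ℤ := fun s => u1 * G s 0 - u0 * G s 1
  have hG0 : ∀ s, G s 0 = α s * u0 + β s * v0 := by
    intro s
    simp only [α, β]
    linear_combination (-(G s 0)) * hdet
  have hG1 : ∀ s, G s 1 = α s * u1 + β s * v1 := by
    intro s
    simp only [α, β]
    linear_combination (-(G s 1)) * hdet
  have hsα : ∑ s, c s * α s = 1 := by
    have h1 : ∑ s, c s * α s = (∑ s, c s * G s 1) * v0 - (∑ s, c s * G s 0) * v1 := by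
      rw [Finset.sum_mul, Finset.sum_mul, ← Finset.sum_sub_distrib]
      exact Finset.sum_congr rfl fun s _ => by simp only [α]; ring
    rw [h1, ← hw0, ← hw1]
    linear_combination hdet
  have hsβ : ∑ s, c s * β s = 1 := by
    have h1 : ∑ s, c s * β s = u1 * (∑ s, c s * G s 0) - u0 * (∑ s, c s * G s 1) := by
      rw [Finset.mul_sum, Finset.mul_sum, ← Finset.sum_sub_distrib]
      exact Finset.sum_congr rfl fun s _ => by simp only [β]; ring
    rw [h1, ← hw0, ← hw1]
    linear_combination hdet
  -- signs
  have hpos0 : ∀ s, 0 ≤ G s 0 := by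
    have h1 : ∃ s, 0 < c s * G s 0 := by
      by_contra hcon
      push Not at hcon
      have := Finset.sum_nonpos (s := Finset.univ) (fun s _ => hcon s)
      omega
    obtain ⟨s, hs⟩ := h1
    have h2 : 0 < G s 0 := posof hs (hc s)
    exact hrig.sign' hS s 0 h2
  have hneg1 : ∀ s, G s 1 ≤ 0 := by
    intro s
    by_contra hcon
    push Not at hcon
    have h1 := hrig.sign' hS s 1 hcon
    have h2 : 0 ≤ ∑ s, c s * G s 1 := Finset.sum_nonneg fun t _ => mul_nonneg (hc t) (h1 t)
    omega
  -- exclude negative beta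
  have hβ : ∀ s, 0 < c s → 0 ≤ β s := by
    intro s hs
    by_contra hneg
    push Not at hneg
    have h1 : ∃ s', 0 < c s' * β s' := by
      by_contra hcon
      push Not at hcon
      have := Finset.sum_nonpos (s := Finset.univ) (fun s _ => hcon s)
      omega
    obtain ⟨s', hs'⟩ := h1
    have h2 : 0 < β s' := posof hs' (hc s')
    have hss : s ≠ s' := by
      rintro rfl
      omega
    set D := β s' * α s - β s * α s' with hD
    have e0 : β s' * G s 0 + (-β s) * G s' 0 = D * u0 := by
      rw [hG0 s, hG0 s', hD]; ring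
    have e1 : β s' * G s 1 + (-β s) * G s' 1 = D * u1 := by
      rw [hG1 s, hG1 s', hD]; ring
    rcases lt_trichotomy D 0 with h | h | h
    · have h3 : 0 ≤ β s' * G s 0 := mul_nonneg h2.le (hpos0 s)
      have h4 : 0 ≤ (-β s) * G s' 0 := mul_nonneg (by omega) (hpos0 s')
      nlinarith
    · have h3 := hrig.linInd' hS
        (c := fun t => if t = s then (β s' : ℝ) else if t = s' then (-β s : ℝ) else 0)
        (by
          rw [Fin.forall_fin_two]
          constructor
          · rw [sum_two hss]
            have := congrArg (fun z : ℤ => (z : ℝ)) e0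
            push_cast at this
            rw [this, h]
            simp
          · rw [sum_two hss]
            have := congrArg (fun z : ℤ => (z : ℝ)) e1
            push_cast at this
            rw [this, h]
            simp) s
      simp only [if_true] at h3
      have : β s' = 0 := by exact_mod_cast h3
      omega
    · have hDR : (0 : ℝ) < D := by exact_mod_cast h
      obtain ⟨i, hi, ⟨e⟩⟩ := hrig.mem_of_cone' hS hU hUi
        (c := fun t => if t = s then (β s' : ℝ) / D else if t = s' then (-β s : ℝ) / D else 0)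
        (by
          intro t
          have a1 : (0 : ℝ) < β s' := by exact_mod_cast h2
          have a2 : (β s : ℝ) < 0 := by exact_mod_cast hneg
          split_ifs
          · positivity
          · exact div_nonneg (by linarith) hDR.le
          · exact le_rfl)
        (by
          rw [Fin.forall_fin_two]
          constructor
          · rw [sum_two hss]
            have := congrArg (fun z : ℤ => (z : ℝ)) e0
            push_cast at this
            rw [div_mul_eq_mul_div, div_mul_eq_mul_div, ← add_div, this]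
            field_simp
            rfl
          · rw [sum_two hss]
            have := congrArg (fun z : ℤ => (z : ℝ)) e1
            push_cast at this
            rw [div_mul_eq_mul_div, div_mul_eq_mul_div, ← add_div, this]
            field_simp
            rfl)
      have g0 : u0 = (X i).g S 0 := chi_unique hUm (hpair.minimal i) e (hS.simple 0)
      have g1 : u1 = (X i).g S 1 := chi_unique hUm (hpair.minimal i) e (hS.simple 1)
      have h5 : β (Sum.inl i) = 0 := by
        simp only [β, hG, Gv_inl]
        rw [← g0, ← g1]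
        ring
      have h6 : (Sum.inl i : Fin p ⊕ Fin q) = s ∨ (Sum.inl i : Fin p ⊕ Fin q) = s' := by
        by_contra hcon
        push Not at hcon
        apply hi
        simp [hcon.1, hcon.2]
      rcases h6 with h6 | h6
      · rw [h6] at h5; omega
      · rw [h6] at h5; omega
  -- exclude negative alpha
  have hα : ∀ s, 0 < c s → 0 ≤ α s := by
    intro s hs
    by_contra hneg
    push Not at hneg
    have h1 : ∃ s', 0 < c s' * α s' := by
      by_contra hcon
      push Not at hcon
      have := Finset.sum_nonpos (s := Finset.univ) (fun s _ => hcon s)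
      omega
    obtain ⟨s', hs'⟩ := h1
    have h2 : 0 < α s' := posof hs' (hc s')
    have hss : s ≠ s' := by
      rintro rfl
      omega
    rcases hVa with ⟨hVm, hVi⟩ | hVz
    · set D := α s' * β s - α s * β s' with hD
      have e0 : α s' * G s 0 + (-α s) * G s' 0 = D * v0 := by
        rw [hG0 s, hG0 s', hD]; ring
      have e1 : α s' * G s 1 + (-α s) * G s' 1 = D * v1 := by
        rw [hG1 s, hG1 s', hD]; ring
      rcases lt_trichotomy D 0 with h | h | h
      · have h3 : α s' * G s 1 ≤ 0 := mul_nonpos_of_nonneg_of_nonpos h2.le (hneg1 s)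
        have h4 : (-α s) * G s' 1 ≤ 0 := mul_nonpos_of_nonneg_of_nonpos (by omega) (hneg1 s')
        nlinarith
      · have h3 := hrig.linInd' hS
          (c := fun t => if t = s then (α s' : ℝ) else if t = s' then (-α s : ℝ) else 0)
          (by
            rw [Fin.forall_fin_two]
            constructor
            · rw [sum_two hss]
              have := congrArg (fun z : ℤ => (z : ℝ)) e0
              push_cast at this
              rw [this, h]
              simp
            · rw [sum_two hss]
              have := congrArg (fun z : ℤ => (z : ℝ)) e1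
              push_cast at this
              rw [this, h]
              simp) s
        simp only [if_true] at h3
        have : α s' = 0 := by exact_mod_cast h3
        omega
      · have hDR : (0 : ℝ) < D := by exact_mod_cast h
        obtain ⟨i, hi, ⟨e⟩⟩ := hrig.mem_of_cone' hS hV hVi
          (c := fun t => if t = s then (α s' : ℝ) / D else if t = s' then (-α s : ℝ) / D else 0)
          (by
            intro t
            have a1 : (0 : ℝ) < α s' := by exact_mod_cast h2
            have a2 : (α s : ℝ) < 0 := by exact_mod_cast hneg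
            split_ifs
            · positivity
            · exact div_nonneg (by linarith) hDR.le
            · exact le_rfl)
          (by
            rw [Fin.forall_fin_two]
            constructor
            · rw [sum_two hss]
              have := congrArg (fun z : ℤ => (z : ℝ)) e0
              push_cast at this
              rw [div_mul_eq_mul_div, div_mul_eq_mul_div, ← add_div, this]
              field_simp
              rfl
            · rw [sum_two hss]
              have := congrArg (fun z : ℤ => (z : ℝ)) e1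
              push_cast at this
              rw [div_mul_eq_mul_div, div_mul_eq_mul_div, ← add_div, this]
              field_simp
              rfl)
        have g0 : v0 = (X i).g S 0 := chi_unique hVm (hpair.minimal i) e (hS.simple 0)
        have g1 : v1 = (X i).g S 1 := chi_unique hVm (hpair.minimal i) e (hS.simple 1)
        have h5 : α (Sum.inl i) = 0 := by
          simp only [α, hG, Gv_inl]
          rw [← g0, ← g1]
          ring
        have h6 : (Sum.inl i : Fin p ⊕ Fin q) = s ∨ (Sum.inl i : Fin p ⊕ Fin q) = s' := by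
          by_contra hcon
          push Not at hcon
          apply hi
          simp [hcon.1, hcon.2]
        rcases h6 with h6 | h6
        · rw [h6] at h5; omega
        · rw [h6] at h5; omega
    · have h3 : α s = - (G s 0 * v1) := by
        simp only [α]
        rw [hVz]
        ring
      have h4 : G s 0 * v1 ≤ 0 := mul_nonpos_of_nonneg_of_nonpos (hpos0 s) (by omega)
      omega
  -- all coordinates nonnegative
  have hcα : ∀ s, 0 ≤ c s * α s := by
    intro s
    rcases (hc s).eq_or_lt with h | h
    · rw [← h]; simp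
    · exact mul_nonneg h.le (hα s h)
  have hcβ : ∀ s, 0 ≤ c s * β s := by
    intro s
    rcases (hc s).eq_or_lt with h | h
    · rw [← h]; simp
    · exact mul_nonneg h.le (hβ s h)
  obtain ⟨s, hs1, hs2⟩ := sum_one _ hcα hsα
  obtain ⟨t, ht1, ht2⟩ := sum_one _ hcβ hsβ
  have hcs : c s = 1 ∧ α s = 1 := by
    have hcs' : 0 < c s := by
      rcases (hc s).eq_or_lt with h | h
      · rw [← h] at hs1; simp at hs1
      · exact h
    have h1 := hα s hcs'
    exact ⟨Int.eq_one_of_mul_eq_one_right (hc s) hs1, Int.eq_one_of_mul_eq_one_left h1 hs1⟩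
  have hct : c t = 1 ∧ β t = 1 := by
    have hct' : 0 < c t := by
      rcases (hc t).eq_or_lt with h | h
      · rw [← h] at ht1; simp at ht1
      · exact h
    have h1 := hβ t hct'
    exact ⟨Int.eq_one_of_mul_eq_one_right (hc t) ht1, Int.eq_one_of_mul_eq_one_left h1 ht1⟩
  by_cases hst : s = t
  · subst hst
    have g0 : G s 0 = u0 + v0 := by rw [hG0 s, hcs.2, hct.2]; ring
    have g1 : G s 1 = u1 + v1 := by rw [hG1 s, hcs.2, hct.2]; ring
    rcases s with i | j
    · refine ⟨X i, hpair.minimal i, hrig.indec i, hrig.rigid i i, ?_⟩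
      rw [Fin.forall_fin_two]
      exact ⟨g0, g1⟩
    · exfalso
      have : G (Sum.inr j) 0 ≤ 0 := by
        rw [hG, Gv_inr]
        simp
      omega
  · exfalso
    have hβs : β s = 0 := by
      have := ht2 s hst
      rw [hcs.1, one_mul] at this
      exact this
    have hαt : α t = 0 := by
      have := hs2 t (Ne.symm hst)
      rw [hct.1, one_mul] at this
      exact this
    have gs0 : G s 0 = u0 := by rw [hG0 s, hcs.2, hβs]; ring
    have gs1 : G s 1 = u1 := by rw [hG1 s, hcs.2, hβs]; ring
    have gt0 : G t 0 = v0 := by rw [hG0 t, hct.2, hαt]; ring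
    have gt1 : G t 1 = v1 := by rw [hG1 t, hct.2, hαt]; ring
    obtain ⟨i, hi, ⟨e⟩⟩ := hrig.mem_of_cone' hS hU hUi
      (c := fun r => if r = s then (1 : ℝ) else 0)
      (by intro r; split_ifs <;> norm_num)
      (by
        rw [Fin.forall_fin_two]
        constructor
        · simp only [ite_mul, one_mul, zero_mul, Finset.sum_ite_eq', Finset.mem_univ, if_true]
          change (u0 : ℝ) = (G s 0 : ℝ)
          rw [gs0]
        · simp only [ite_mul, one_mul, zero_mul, Finset.sum_ite_eq', Finset.mem_univ, if_true]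
          change (u1 : ℝ) = (G s 1 : ℝ)
          rw [gs1])
    have h1 := hrig.EZ_of_cone' hS hV
      (c := fun r => if r = t then (1 : ℝ) else 0)
      (by intro r; split_ifs <;> norm_num)
      (by
        rw [Fin.forall_fin_two]
        constructor
        · simp only [ite_mul, one_mul, zero_mul, Finset.sum_ite_eq', Finset.mem_univ, if_true]
          change (v0 : ℝ) = (G t 0 : ℝ)
          rw [gt0]
        · simp only [ite_mul, one_mul, zero_mul, Finset.sum_ite_eq', Finset.mem_univ, if_true]
          change (v1 : ℝ) = (G t 1 : ℝ)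
          rw [gt1]) i
    exact hnc (EZ_congr e.symm h1)

end

end Dem
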