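import Pool.Agent.Helper7.Dem.Sum

universe u

set_option linter.unusedSectionVars false

namespace Dem

variable {k A : Type u} [Field k] [Ring A] [Algebra k A]

/-- the cone of a family -/
def coneSet {ι κ : Type} [Fintype ι] [Fintype κ] {n : ℕ} (X : ι → Pres k A)
    (Q : κ → FDMod k A) (S : Fin n → FDMod k A) : Set (Fin n → ℝ) :=
  {v | ∃ c : ι ⊕ κ → ℝ, (∀ s, 0 ≤ c s) ∧ ∀ l, v l = ∑ s, c s * (Gv X Q S s l : ℝ)}

section

variable {ι κ : Type} [Fintype ι] [Fintype κ] {n : ℕ} {X : ι → Pres k A}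
    {Q : κ → FDMod k A} {S : Fin n → FDMod k A}

lemma cone_zero : (0 : Fin n → ℝ) ∈ coneSet X Q S :=
  ⟨fun _ => 0, fun _ => le_rfl, fun l => by simp⟩

lemma cone_add {v w : Fin n → ℝ} (hv : v ∈ coneSet X Q S) (hw : w ∈ coneSet X Q S) :
    v + w ∈ coneSet X Q S := by
  obtain ⟨c, hc, h1⟩ := hv
  obtain ⟨d, hd', h2⟩ := hw
  refine ⟨c + d, fun s => add_nonneg (hc s) (hd' s), fun l => ?_⟩
  rw [Pi.add_apply, h1, h2, ← Finset.sum_add_distrib]
  refine Finset.sum_congr rfl fun s _ => ?_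
  rw [Pi.add_apply]
  ring

lemma cone_smul {v : Fin n → ℝ} {t : ℝ} (ht : 0 ≤ t) (hv : v ∈ coneSet X Q S) :
    t • v ∈ coneSet X Q S := by
  obtain ⟨c, hc, h1⟩ := hv
  refine ⟨t • c, fun s => mul_nonneg ht (hc s), fun l => ?_⟩
  rw [Pi.smul_apply, smul_eq_mul, h1, Finset.mul_sum]
  refine Finset.sum_congr rfl fun s _ => ?_
  rw [Pi.smul_apply, smul_eq_mul]
  ring

lemma cone_gen (s : ι ⊕ κ) : (fun l => (Gv X Q S s l : ℝ)) ∈ coneSet X Q S := by
  classical
  refine ⟨fun t => if t = s then 1 else 0, fun t => ?_, fun l => ?_⟩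
  · dsimp only
    split_ifs <;> norm_num
  · simp

lemma cone_sum {σ : Type} [Fintype σ] (c : σ → ℝ) (w : σ → Fin n → ℝ) (hc : ∀ s, 0 ≤ c s)
    (hw : ∀ s, c s ≠ 0 → w s ∈ coneSet X Q S) :
    (fun l => ∑ s, c s * w s l) ∈ coneSet X Q S := by
  have h : ∀ T : Finset σ, (fun l => ∑ s ∈ T, c s * w s l) ∈ coneSet X Q S := by
    classical
    intro T
    induction T using Finset.induction_on with
    | empty =>
      simp only [Finset.sum_empty]
      exact cone_zero
    | insert a T ha ih =>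
      have e : (fun l => ∑ s ∈ insert a T, c s * w s l) =
          (c a • w a) + fun l => ∑ s ∈ T, c s * w s l := by
        funext l
        rw [Finset.sum_insert ha]
        rfl
      rw [e]
      refine cone_add ?_ ih
      by_cases h0 : c a = 0
      · rw [h0, zero_smul]; exact cone_zero
      · exact cone_smul (hc a) (hw a h0)
  exact h Finset.univ

end

lemma inCone_of_coneSet {n p q : ℕ} {S : Fin n → FDMod k A} {X : Fin p → Pres k A}
    {Q : Fin q → FDMod k A} {v : Fin n → ℝ} (h : v ∈ coneSet X Q S) : InCone S X Q v := by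
  obtain ⟨c, hc, h1⟩ := h
  exact ⟨fun i => c (Sum.inl i), fun j => c (Sum.inr j), fun i => hc _, fun j => hc _,
    cone_convert h1⟩

lemma coneSet_of_inCone {n p q : ℕ} {S : Fin n → FDMod k A} {X : Fin p → Pres k A}
    {Q : Fin q → FDMod k A} {v : Fin n → ℝ} (h : InCone S X Q v) : v ∈ coneSet X Q S := by
  obtain ⟨a, b, ha, hb, h1⟩ := h
  refine ⟨Sum.elim a b, ?_, fun l => ?_⟩
  · rintro (i | j)
    · exact ha i
    · exact hb j
  · rw [h1 l, Fintype.sum_sum_type]
    simp only [Gv_inl, Gv_inr, Sum.elim_inl, Sum.elim_inr]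
    push_cast
    simp only [mul_neg, Finset.sum_neg_distrib]
    ring

/-- reindexing a family by `Fin` -/
lemma Rig.toPair [Module.Finite k A] {ι κ : Type} [Fintype ι] [Fintype κ] {X : ι → Pres k A}
    {Q : κ → FDMod k A} (h : Rig X Q) (hmin : ∀ i, (X i).Minimal) :
    ∃ (p q : ℕ) (X' : Fin p → Pres k A) (Q' : Fin q → FDMod k A), IsTauRigidPair X' Q' ∧
      ∀ {n : ℕ} (S : Fin n → FDMod k A), coneSet X Q S ⊆ coneSet X' Q' S := by
  let e := Fintype.equivFin ι
  let f := Fintype.equivFin κ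
  refine ⟨Fintype.card ι, Fintype.card κ, X ∘ e.symm, Q ∘ f.symm, ?_, ?_⟩
  · refine Rig.tau ?_ (fun i => hmin _)
    exact { indec := fun i => h.indec _
            noniso := fun i j hij => h.noniso _ _ (fun hh => hij (e.symm.injective hh))
            rigid := fun i j => h.rigid _ _
            projQ := fun j => h.projQ _
            indecQ := fun j => h.indecQ _
            nonisoQ := fun i j hij => h.nonisoQ _ _ (fun hh => hij (f.symm.injective hh))
            homzero := fun i j => h.homzero _ _ }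
  · rintro n S v ⟨c, hc, h1⟩
    refine ⟨fun s => c (Sum.map e.symm f.symm s), fun s => hc _, fun l => ?_⟩
    rw [h1 l]
    rw [Fintype.sum_sum_type, Fintype.sum_sum_type]
    congr 1
    · rw [← Equiv.sum_comp e.symm]
      rfl
    · rw [← Equiv.sum_comp f.symm]
      rfl

/-- Merging two compatible rigid objects into one `τ`-rigid pair. -/
theorem merge [Module.Finite k A] {n : ℕ} {S : Fin n → FDMod k A}
    (hS : CompleteSimples S) {U V : Pres k A} (hdU : Dec S U) (hdV : Dec S V)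
    (hUV : EZ U V.M) (hVU : EZ V U.M) :
    ∃ (p q : ℕ) (X : Fin p → Pres k A) (Q : Fin q → FDMod k A), IsTauRigidPair X Q ∧
      InCone S X Q (fun l => (U.g S l : ℝ)) ∧ InCone S X Q (fun l => (V.g S l : ℝ)) := by
  classical
  obtain ⟨p, q, X, Q, hpair, c, hc, hg, hX, hQ⟩ := hdU
  obtain ⟨p', q', X', Q', hpair', c', hc', hg', hX', hQ'⟩ := hdV
  have hrig := hpair.rig
  have hrig' := hpair'.rig
  let ι := {i : Fin p // c (Sum.inl i) ≠ 0} ⊕ {j : Fin p' // c' (Sum.inl j) ≠ 0 ∧
    ∀ i, c (Sum.inl i) ≠ 0 → IsEmpty ((X i).M ≃ₗ[A] (X' j).M)}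
  let κ := {i : Fin q // c (Sum.inr i) ≠ 0} ⊕ {j : Fin q' // c' (Sum.inr j) ≠ 0 ∧
    ∀ i, c (Sum.inr i) ≠ 0 → IsEmpty (Q i ≃ₗ[A] Q' j)}
  let Z : ι → Pres k A := Sum.elim (fun i => X i.1) (fun j => X' j.1)
  let R : κ → FDMod k A := Sum.elim (fun i => Q i.1) (fun j => Q' j.1)
  -- mutual compatibility
  have hXX' : ∀ i, c (Sum.inl i) ≠ 0 → ∀ j, c' (Sum.inl j) ≠ 0 → EZ (X i) (X' j).M := by
    intro i hi j hj
    obtain ⟨π, hπ⟩ := (hX' j hj).2
    exact EZ_of_surj π hπ ((hX i hi).1 (FDMod.of k A V.M) hUV)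
  have hX'X : ∀ i, c (Sum.inl i) ≠ 0 → ∀ j, c' (Sum.inl j) ≠ 0 → EZ (X' j) (X i).M := by
    intro i hi j hj
    obtain ⟨π, hπ⟩ := (hX i hi).2
    exact EZ_of_surj π hπ ((hX' j hj).1 (FDMod.of k A U.M) hVU)
  have hQX' : ∀ i, c (Sum.inr i) ≠ 0 → ∀ j, c' (Sum.inl j) ≠ 0 →
      hd k A (Q i) (X' j).M = 0 := by
    intro i hi j hj
    obtain ⟨π, hπ⟩ := (hX' j hj).2
    have := hrig.projQ i
    exact hd_quot_zero π hπ (hQ i hi (FDMod.of k A V.M) hUV)
  have hQ'X : ∀ i, c (Sum.inl i) ≠ 0 → ∀ j, c' (Sum.inr j) ≠ 0 →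
      hd k A (Q' j) (X i).M = 0 := by
    intro i hi j hj
    obtain ⟨π, hπ⟩ := (hX i hi).2
    have := hrig'.projQ j
    exact hd_quot_zero π hπ (hQ' j hj (FDMod.of k A U.M) hVU)
  have hR : Rig Z R :=
    { indec := by
        rintro (i | j)
        · exact hrig.indec i.1
        · exact hrig'.indec j.1
      noniso := by
        rintro (i | i) (j | j) hij
        · exact hrig.noniso i.1 j.1 (fun hh => hij (by rw [Subtype.ext hh]))
        · exact j.2.2 i.1 i.2
        · exact ⟨fun e => (i.2.2 j.1 j.2).false e.symm⟩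
        · exact hrig'.noniso i.1 j.1 (fun hh => hij (by rw [Subtype.ext hh]))
      rigid := by
        rintro (i | i) (j | j)
        · exact hrig.rigid i.1 j.1
        · exact hXX' i.1 i.2 j.1 j.2.1
        · exact hX'X j.1 j.2 i.1 i.2.1
        · exact hrig'.rigid i.1 j.1
      projQ := by
        rintro (i | j)
        · exact hrig.projQ i.1
        · exact hrig'.projQ j.1
      indecQ := by
        rintro (i | j)
        · exact hrig.indecQ i.1
        · exact hrig'.indecQ j.1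
      nonisoQ := by
        rintro (i | i) (j | j) hij
        · exact hrig.nonisoQ i.1 j.1 (fun hh => hij (by rw [Subtype.ext hh]))
        · exact j.2.2 i.1 i.2
        · exact ⟨fun e => (i.2.2 j.1 j.2).false e.symm⟩
        · exact hrig'.nonisoQ i.1 j.1 (fun hh => hij (by rw [Subtype.ext hh]))
      homzero := by
        rintro (i | i) (j | j)
        · exact hrig.homzero i.1 j.1
        · exact hQ'X i.1 i.2 j.1 j.2.1
        · exact hQX' j.1 j.2 i.1 i.2.1
        · exact hrig'.homzero i.1 j.1 }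
  have hmin : ∀ i, (Z i).Minimal := by
    rintro (i | j)
    · exact hpair.minimal i.1
    · exact hpair'.minimal j.1
  -- the generators
  have hgen : ∀ s, c s ≠ 0 → (fun l => (Gv X Q S s l : ℝ)) ∈ coneSet Z R S := by
    rintro (i | i) hi
    · exact cone_gen (X := Z) (Q := R) (S := S) (Sum.inl (Sum.inl ⟨i, hi⟩))
    · exact cone_gen (X := Z) (Q := R) (S := S) (Sum.inr (Sum.inl ⟨i, hi⟩))
  have hgen' : ∀ s, c' s ≠ 0 → (fun l => (Gv X' Q' S s l : ℝ)) ∈ coneSet Z R S := by
    rintro (j | j) hj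
    · by_cases hex : ∀ i, c (Sum.inl i) ≠ 0 → IsEmpty ((X i).M ≃ₗ[A] (X' j).M)
      · exact cone_gen (X := Z) (Q := R) (S := S) (Sum.inl (Sum.inr ⟨j, hj, hex⟩))
      · push Not at hex
        obtain ⟨i, hi, e⟩ := hex
        obtain ⟨e'⟩ := e
        have h1 : (fun l => (Gv X' Q' S (Sum.inl j) l : ℝ)) =
            fun l => (Gv X Q S (Sum.inl i) l : ℝ) := by
          funext l
          rw [Gv_inl, Gv_inl]
          have : (X i).g S l = (X' j).g S l :=
            chi_unique (hpair.minimal i) (hpair'.minimal j) e' (hS.simple l)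
          rw [this]
        rw [h1]
        exact hgen _ hi
    · by_cases hex : ∀ i, c (Sum.inr i) ≠ 0 → IsEmpty (Q i ≃ₗ[A] Q' j)
      · exact cone_gen (X := Z) (Q := R) (S := S) (Sum.inr (Sum.inr ⟨j, hj, hex⟩))
      · push Not at hex
        obtain ⟨i, hi, e⟩ := hex
        obtain ⟨e'⟩ := e
        have h1 : (fun l => (Gv X' Q' S (Sum.inr j) l : ℝ)) =
            fun l => (Gv X Q S (Sum.inr i) l : ℝ) := by
          funext l
          rw [Gv_inr, Gv_inr, hd_congr_left e']
        rw [h1]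
        exact hgen _ hi
  have hU : (fun l => (U.g S l : ℝ)) ∈ coneSet Z R S := by
    have h1 := cone_sum (X := Z) (Q := R) (S := S) (fun s => (c s : ℝ))
      (fun s l => (Gv X Q S s l : ℝ)) (fun s => by exact_mod_cast hc s)
      (fun s hs => hgen s (by exact_mod_cast hs))
    have h2 : (fun l => (U.g S l : ℝ)) = fun l => ∑ s, (c s : ℝ) * (Gv X Q S s l : ℝ) := by
      funext l
      rw [hg l]
      push_cast
      rfl
    rw [h2]
    exact h1
  have hV : (fun l => (V.g S l : ℝ)) ∈ coneSet Z R S := by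
    have h1 := cone_sum (X := Z) (Q := R) (S := S) (fun s => (c' s : ℝ))
      (fun s l => (Gv X' Q' S s l : ℝ)) (fun s => by exact_mod_cast hc' s)
      (fun s hs => hgen' s (by exact_mod_cast hs))
    have h2 : (fun l => (V.g S l : ℝ)) = fun l => ∑ s, (c' s : ℝ) * (Gv X' Q' S s l : ℝ) := by
      funext l
      rw [hg' l]
      push_cast
      rfl
    rw [h2]
    exact h1
  obtain ⟨P, P', X0, Q0, hp0, hsub⟩ := hR.toPair hmin
  exact ⟨P, P', X0, Q0, hp0, inCone_of_coneSet (hsub S hU), inCone_of_coneSet (hsub S hV)⟩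

end Dem
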