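import Pool.Agent.Helper7.Dem.Merge

universe u

set_option linter.unusedSectionVars false

namespace Dem

/-- A basic `τ`-rigid pair, bundled. -/
structure TRPair (k A : Type u) [Field k] [Ring A] [Algebra k A] where
  p : ℕ
  q : ℕ
  X : Fin p → Pres k A
  Q : Fin q → FDMod k A
  isPair : IsTauRigidPair X Q

variable {k A : Type u} [Field k] [Ring A] [Algebra k A]

/-- `v` lies in the cone of the pair `T`. -/
def TRPair.Contains {n : ℕ} (T : TRPair k A) (S : Fin n → FDMod k A) (v : Fin n → ℝ) : Prop :=
  InCone S T.X T.Q v

section

variable {n : ℕ} {S : Fin n → FDMod k A} (hS : CompleteSimples S)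

include hS in
theorem plane_aux [IsAlgClosed k] [Module.Finite k A] (m : ℕ) :
    ∀ U V : Pres k A, EZ U U.M → EZ V V.M → Dec S U → Dec S V →
      (∀ a b : ℕ, InFan S (fun l => ((a * U.g S l + b * V.g S l : ℤ) : ℝ))) →
      ed k U V.M ≤ m → ed k V U.M ≤ m →
      ∃ L : List (TRPair k A), ∀ a b : ℝ, 0 ≤ a → 0 ≤ b →
        ∃ T ∈ L, T.Contains S (fun l => a * (U.g S l : ℝ) + b * (V.g S l : ℝ)) := by
  induction m using Nat.strong_induction_on with
  | _ m ih =>
    intro U V hU hV hdU hdV hfan h1 h2
    by_cases hcomp : EZ U V.M ∧ EZ V U.M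
    · obtain ⟨p, q, X, Q, hp, hUc, hVc⟩ := merge hS hdU hdV hcomp.1 hcomp.2
      refine ⟨[⟨p, q, X, Q, hp⟩], fun a b ha hb => ⟨_, List.mem_singleton.2 rfl, ?_⟩⟩
      have h3 := cone_add (cone_smul ha (coneSet_of_inCone hUc))
        (cone_smul hb (coneSet_of_inCone hVc))
      exact inCone_of_coneSet h3
    · have hm : 1 ≤ m := by
        by_contra hcon
        apply hcomp
        constructor
        · rw [← ed_eq_zero_iff (k := k)]; omega
        · rw [← ed_eq_zero_iff (k := k)]; omega
      have hw : InFan S (fun l => ((U.g S l + V.g S l : ℤ) : ℝ)) := by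
        have := hfan 1 1
        simpa using this
      obtain ⟨W, hW, hdW, hWg⟩ := exists_dec hS (fun l => U.g S l + V.g S l) hw
      have hchi : ∀ L : FDMod k A, chi k W L = chi k U L + chi k V L := by
        intro L
        rw [chi_eq_sum hS L W, chi_eq_sum hS L U, chi_eq_sum hS L V, ← Finset.sum_add_distrib]
        refine Finset.sum_congr rfl fun l _ => ?_
        rw [hWg l]
        ring
      have hchi' : ∀ L : FDMod k A, chi k W L = chi k V L + chi k U L := by
        intro L
        rw [hchi L]
        ring
      have s1 := star hU hW hchi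
      have s2 := star hV hW hchi'
      have s3 := star' hU hW hchi
      have s4 := star' hV hW hchi'
      obtain ⟨L1, hL1⟩ := ih (m - 1) (by omega) U W hU hW hdU hdW
        (fun a b => by
          have := hfan (a + b) b
          have e : (fun l => (((a + b : ℕ) * U.g S l + b * V.g S l : ℤ) : ℝ)) =
              fun l => ((a * U.g S l + b * W.g S l : ℤ) : ℝ) := by
            funext l
            rw [hWg l]
            push_cast
            ring
          rw [e] at this
          exact this) (by omega) (by omega)
      obtain ⟨L2, hL2⟩ := ih (m - 1) (by omega) W V hW hV hdW hdV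
        (fun a b => by
          have := hfan a (a + b)
          have e : (fun l => ((a * U.g S l + (a + b : ℕ) * V.g S l : ℤ) : ℝ)) =
              fun l => ((a * W.g S l + b * V.g S l : ℤ) : ℝ) := by
            funext l
            rw [hWg l]
            push_cast
            ring
          rw [e] at this
          exact this) (by omega) (by omega)
      refine ⟨L1 ++ L2, fun a b ha hb => ?_⟩
      rcases le_total b a with hab | hab
      · obtain ⟨T, hT, hT'⟩ := hL1 (a - b) b (by linarith) hb
        refine ⟨T, List.mem_append_left _ hT, ?_⟩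
        have e : (fun l => a * (U.g S l : ℝ) + b * (V.g S l : ℝ)) =
            fun l => (a - b) * (U.g S l : ℝ) + b * (W.g S l : ℝ) := by
          funext l
          rw [hWg l]
          push_cast
          ring
        rw [e]
        exact hT'
      · obtain ⟨T, hT, hT'⟩ := hL2 a (b - a) ha (by linarith)
        refine ⟨T, List.mem_append_right _ hT, ?_⟩
        have e : (fun l => a * (U.g S l : ℝ) + b * (V.g S l : ℝ)) =
            fun l => a * (W.g S l : ℝ) + (b - a) * (V.g S l : ℝ) := by
          funext l
          rw [hWg l]
          push_cast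
          ring
        rw [e]
        exact hT'

include hS in
/-- If all rational rays of a rational two-dimensional cone lie in the fan then the whole
cone is covered by finitely many cones of the fan. -/
theorem plane [IsAlgClosed k] [Module.Finite k A] (u v : Fin n → ℤ)
    (hfan : ∀ a b : ℕ, InFan S (fun l => ((a * u l + b * v l : ℤ) : ℝ))) :
    ∃ L : List (TRPair k A), ∀ a b : ℝ, 0 ≤ a → 0 ≤ b →
      ∃ T ∈ L, T.Contains S (fun l => a * (u l : ℝ) + b * (v l : ℝ)) := by
  have hu : InFan S (fun l => (u l : ℝ)) := by
    have := hfan 1 0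
    simpa using this
  have hv : InFan S (fun l => (v l : ℝ)) := by
    have := hfan 0 1
    simpa using this
  obtain ⟨U, hU, hdU, hUg⟩ := exists_dec hS u hu
  obtain ⟨V, hV, hdV, hVg⟩ := exists_dec hS v hv
  have := plane_aux hS (max (ed k U V.M) (ed k V U.M)) U V hU hV hdU hdV
    (by simpa only [hUg, hVg] using hfan) (le_max_left _ _) (le_max_right _ _)
  simpa only [hUg, hVg] using this

end

end Dem
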