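import Pool.Agent.Helper7.Dem.Torsion

universe u

set_option linter.unusedSectionVars false

namespace Dem

variable {k A : Type u} [Field k] [Ring A] [Algebra k A]

variable {M N : Type u} [AddCommGroup M] [Module k M] [Module A M] [IsScalarTower k A M]
  [Module.Finite k M] [AddCommGroup N] [Module k N] [Module A N] [IsScalarTower k A N]
  [Module.Finite k N]

lemma artin (k A N : Type u) [Field k] [Ring A] [Algebra k A] [AddCommGroup N] [Module k N]
    [Module A N] [IsScalarTower k A N] [Module.Finite k N] : IsArtinian A N :=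
  isArtinian_of_tower k inferInstance

/-- the radical of the endomorphism ring -/
abbrev JR (A M : Type u) [Ring A] [AddCommGroup M] [Module A M] : Ideal (Module.End A M) :=
  Ring.jacobson (Module.End A M)

lemma JR_nilp (k A M : Type u) [Field k] [Ring A] [Algebra k A] [AddCommGroup M] [Module k M]
    [Module A M] [IsScalarTower k A M] [Module.Finite k M] : IsNilpotent (JR A M) := by
  have h1 : Module.Finite k (Module.End A M) := inferInstanceAs (Module.Finite k (M →ₗ[A] M))
  have h2 : IsArtinianRing (Module.End A M) := IsArtinianRing.of_finite k _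
  have h3 := IsArtinianRing.isNilpotent_jacobson_bot (R := Module.End A M)
  rwa [Ideal.jacobson_bot] at h3

lemma fitting [IsAlgClosed k] (hM : Indec A M) (φ : Module.End A M) :
    ∃ c : k, IsNilpotent (φ - c • (1 : Module.End A M)) := by
  obtain ⟨hnt, hind⟩ := hM
  have hn := noeth k A M
  have ha := artin k A M
  obtain ⟨c, hc⟩ := Module.End.exists_eigenvalue (φ.restrictScalars k)
  obtain ⟨v, hv⟩ := hc.exists_hasEigenvector
  refine ⟨c, ?_⟩
  set ψ : Module.End A M := φ - c • (1 : Module.End A M) with hψ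
  have hψv : ψ v = 0 := by
    have h1 : φ v = c • v := hv.apply_eq_smul
    rw [hψ, LinearMap.sub_apply, h1]
    simp
  obtain ⟨n, hn'⟩ := Filter.eventually_atTop.1
    (LinearMap.eventually_isCompl_ker_pow_range_pow ψ)
  have h1 := hn' (n + 1) (by omega)
  rcases hind _ _ h1 with h2 | h2
  · exfalso
    apply hv.2
    have h3 : v ∈ LinearMap.ker (ψ ^ (n + 1)) := by
      rw [LinearMap.mem_ker, pow_succ]
      change (ψ ^ n) (ψ v) = 0
      rw [hψv, map_zero]
    rw [h2] at h3
    simpa using h3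
  · exact ⟨n + 1, LinearMap.range_eq_bot.1 h2⟩

lemma isUnit_or_nilp [IsAlgClosed k] (hM : Indec A M) (φ : Module.End A M) :
    IsUnit φ ∨ IsNilpotent φ := by
  obtain ⟨c, hc⟩ := fitting (k := k) hM φ
  by_cases h0 : c = 0
  · right
    simpa [h0] using hc
  · left
    have h1 : IsUnit (c • (1 : Module.End A M)) := by
      refine ⟨⟨c • 1, c⁻¹ • 1, ?_, ?_⟩, rfl⟩
      · rw [smul_mul_smul_comm, mul_inv_cancel₀ h0, one_smul, one_mul]
      · rw [smul_mul_smul_comm, inv_mul_cancel₀ h0, one_smul, one_mul]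
    have h2 := hc.isUnit_add_left_of_commute h1 (by
      refine Commute.smul_right ?_ c
      exact Commute.one_right _)
    simpa using h2

lemma not_unit_of_nilp (hM : Nontrivial M) {φ : Module.End A M} (h : IsNilpotent φ) :
    ¬ IsUnit φ := fun hu => h.not_isUnit hu

lemma mem_JR_of_nilp [IsAlgClosed k] (hM : Indec A M) {φ : Module.End A M}
    (h : IsNilpotent φ) : φ ∈ JR A M := by
  have hnt := hM.1
  rw [JR, ← Ideal.jacobson_bot, Ideal.mem_jacobson_iff]
  intro y
  have h1 : ¬ IsUnit (y * φ) := by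
    rintro hu
    obtain ⟨u, hu⟩ := hu
    have h2 : (↑u⁻¹ * y) * φ = 1 := by rw [mul_assoc, ← hu, Units.inv_mul]
    obtain ⟨n, hn⟩ := h
    have h3 : ∀ m, φ ^ (m + 1) = 0 → φ ^ m = 0 := by
      intro m hm
      have : (↑u⁻¹ * y) * φ ^ (m + 1) = φ ^ m := by
        rw [pow_succ', ← mul_assoc, h2, one_mul]
      rw [← this, hm, mul_zero]
    have h4 : ∀ m, φ ^ m = 0 → (1 : Module.End A M) = 0 := by
      intro m
      induction m with
      | zero => intro h; rwa [pow_zero] at h
      | succ m ih => intro h; exact ih (h3 m h)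
    exact one_ne_zero (h4 n hn)
  have h2 := (isUnit_or_nilp (k := k) hM (y * φ)).resolve_left h1
  obtain ⟨u, hu⟩ := h2.isUnit_add_one
  refine ⟨↑u⁻¹, ?_⟩
  rw [Ideal.mem_bot]
  have h3 : ↑u⁻¹ * y * φ + ↑u⁻¹ = ↑u⁻¹ * (y * φ + 1) := by rw [mul_add, mul_one, mul_assoc]
  rw [h3, ← hu, Units.inv_mul, sub_self]

lemma not_unit_of_mem_JR (hM : Nontrivial M) {φ : Module.End A M}
    (h : φ ∈ JR A M) : ¬ IsUnit φ := by
  intro hu
  have h1 := Ideal.eq_top_of_isUnit_mem _ h hu
  have h2 : (-1 : Module.End A M) ∈ JR A M := by rw [h1]; trivial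
  rw [JR, ← Ideal.jacobson_bot, Ideal.mem_jacobson_iff] at h2
  obtain ⟨z, hz⟩ := h2 1
  rw [Ideal.mem_bot] at hz
  have : (1 : Module.End A M) = 0 := by
    have e : z * 1 * (-1) + z - 1 = -1 := by noncomm_ring
    rw [e] at hz
    exact neg_eq_zero.1 hz
  exact one_ne_zero this

lemma isUnit_or_mem_JR [IsAlgClosed k] (hM : Indec A M) (φ : Module.End A M) :
    IsUnit φ ∨ φ ∈ JR A M :=
  (isUnit_or_nilp (k := k) hM φ).imp_right (mem_JR_of_nilp (k := k) hM)

lemma exists_sub_mem_JR [IsAlgClosed k] (hM : Indec A M) (φ : Module.End A M) :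
    ∃ c : k, φ - c • (1 : Module.End A M) ∈ JR A M := by
  obtain ⟨c, hc⟩ := fitting (k := k) hM φ
  exact ⟨c, mem_JR_of_nilp (k := k) hM hc⟩

/-- products of `m` elements of the radical -/
def PJ (A M : Type u) [Ring A] [AddCommGroup M] [Module A M] : ℕ → Set (Module.End A M)
  | 0 => {1}
  | (m + 1) => {x | ∃ a ∈ PJ A M m, ∃ b ∈ JR A M, x = a * b}

lemma PJ_sub (m : ℕ) : ∀ x ∈ PJ A M m, x ∈ (JR A M) ^ m := by
  induction m with
  | zero => intro x _; rw [Submodule.pow_zero, Ideal.one_eq_top]; trivial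
  | succ m ih =>
    rintro x ⟨a, ha, b, hb, rfl⟩
    rw [Submodule.pow_succ]
    exact Ideal.mul_mem_mul (ih a ha) hb

lemma PJ_zero (k A M : Type u) [Field k] [Ring A] [Algebra k A] [AddCommGroup M] [Module k M]
    [Module A M] [IsScalarTower k A M] [Module.Finite k M] : ∃ m, ∀ x ∈ PJ A M m, x = 0 := by
  obtain ⟨m, hm⟩ := JR_nilp k A M
  refine ⟨m, fun x hx => ?_⟩
  have := PJ_sub m x hx
  rw [hm] at this
  simpa using this

/-- `J M` -/
def JM (A M : Type u) [Ring A] [AddCommGroup M] [Module A M] : Submodule A M :=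
  ⨆ j : JR A M, LinearMap.range (j : Module.End A M)

lemma range_le_JM {j : Module.End A M} (hj : j ∈ JR A M) : LinearMap.range j ≤ JM A M :=
  le_iSup (fun j : JR A M => LinearMap.range (j : Module.End A M)) ⟨j, hj⟩

lemma mem_JM {j : Module.End A M} (hj : j ∈ JR A M) (x : M) : j x ∈ JM A M :=
  range_le_JM hj ⟨x, rfl⟩

/-- Nakayama -/
lemma nakayama (k : Type u) {A M : Type u} [Field k] [Ring A] [Algebra k A] [AddCommGroup M]
    [Module k M]
    [Module A M] [IsScalarTower k A M] [Module.Finite k M] (T : Submodule A M)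
    (hT : ∀ φ : Module.End A M, ∀ x ∈ T, φ x ∈ T) (h : T ⊔ JM A M = ⊤) : T = ⊤ := by
  have key : ∀ m, ∀ x : M, x ∈ T ⊔ ⨆ a : PJ A M m, LinearMap.range (a : Module.End A M) := by
    intro m
    induction m with
    | zero =>
      intro x
      refine Submodule.mem_sup_right ?_
      exact le_iSup (fun a : PJ A M 0 => LinearMap.range (a : Module.End A M))
        ⟨1, rfl⟩ ⟨x, rfl⟩
    | succ m ih =>
      intro x
      have h1 : (⊤ : Submodule A M) ≤
          T ⊔ ⨆ a : PJ A M m, LinearMap.range (a : Module.End A M) := fun y _ => ih y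
      refine (le_trans h1 (sup_le le_sup_left (iSup_le ?_))) (Submodule.mem_top (x := x))
      rintro ⟨a, ha⟩ _ ⟨y, rfl⟩
      have hy : y ∈ T ⊔ JM A M := by rw [h]; trivial
      obtain ⟨t, ht, z, hz, rfl⟩ := Submodule.mem_sup.1 hy
      rw [map_add]
      refine Submodule.add_mem _ (Submodule.mem_sup_left (hT a t ht)) (Submodule.mem_sup_right ?_)
      have h2 : (JM A M).map a ≤
          ⨆ a : PJ A M (m + 1), LinearMap.range (a : Module.End A M) := by
        rw [JM, Submodule.map_iSup]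
        refine iSup_le ?_
        rintro ⟨j, hj⟩
        rintro _ ⟨_, ⟨w, rfl⟩, rfl⟩
        exact le_iSup (fun a : PJ A M (m + 1) => LinearMap.range (a : Module.End A M))
          ⟨a * j, a, ha, j, hj, rfl⟩ ⟨w, rfl⟩
      exact h2 ⟨z, hz, rfl⟩
  obtain ⟨m, hm⟩ := PJ_zero k A M
  rw [eq_top_iff]
  intro x _
  have h1 := key m x
  have h2 : (⨆ a : PJ A M m, LinearMap.range (a : Module.End A M)) = ⊥ := by
    rw [iSup_eq_bot]
    rintro ⟨a, ha⟩
    rw [LinearMap.range_eq_bot]
    exact hm a ha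
  rwa [h2, sup_bot_eq] at h1

/-- a nonzero map out of `M` gives a nonzero map killing `J M` -/
lemma exists_killing (k : Type u) {A M N : Type u} [Field k] [Ring A] [Algebra k A]
    [AddCommGroup M] [Module k M]
    [Module A M] [IsScalarTower k A M] [Module.Finite k M] [AddCommGroup N] [Module A N]
    (φ : M →ₗ[A] N) (hφ : φ ≠ 0) :
    ∃ φ' : M →ₗ[A] N, φ' ≠ 0 ∧ ∀ j ∈ JR A M, φ' ∘ₗ j = 0 := by
  classical
  have hex : ∃ m, ∀ a ∈ PJ A M m, φ ∘ₗ a = 0 := by
    obtain ⟨m, hm⟩ := PJ_zero k A M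
    exact ⟨m, fun a ha => by rw [hm a ha]; exact LinearMap.comp_zero _⟩
  have h1 := Nat.find_spec hex
  rcases hn : Nat.find hex with _ | m
  · rw [hn] at h1
    exact absurd (h1 1 rfl) (by
      intro h; apply hφ; exact h)
  · have h2 := Nat.find_min hex (m := m) (by omega)
    push Not at h2
    obtain ⟨a, ha, hne⟩ := h2
    refine ⟨φ ∘ₗ a, hne, fun j hj => ?_⟩
    rw [hn] at h1
    exact h1 (a * j) ⟨a, ha, j, hj, rfl⟩

/-- composites through a non-isomorphic indecomposable lie in the radical -/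
lemma comp_mem_JR [IsAlgClosed k] (hM : Indec A M) (hN : Indec A N)
    (hne : IsEmpty (M ≃ₗ[A] N)) (φ : M →ₗ[A] N) (ψ : N →ₗ[A] M) :
    (ψ ∘ₗ φ : Module.End A M) ∈ JR A M := by
  rcases isUnit_or_mem_JR (k := k) hM (ψ ∘ₗ φ : Module.End A M) with h | h
  · exfalso
    obtain ⟨u, hu⟩ := h
    have hid : ∀ x, (u⁻¹ : (Module.End A M)ˣ).1 (ψ (φ x)) = x := by
      intro x
      have h1 : (u⁻¹ : (Module.End A M)ˣ).1 * (u : Module.End A M) = 1 := Units.inv_mul u
      rw [hu] at h1
      exact LinearMap.congr_fun h1 x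
    let θ : N →ₗ[A] M := (u⁻¹ : (Module.End A M)ˣ).1 ∘ₗ ψ
    have hθ : ∀ x, θ (φ x) = x := hid
    have hinj : Function.Injective φ := fun x y hxy => by rw [← hθ x, ← hθ y, hxy]
    have hc : IsCompl (LinearMap.range φ) (LinearMap.ker θ) := by
      constructor
      · rw [Submodule.disjoint_def]
        rintro _ ⟨x, rfl⟩ hx
        rw [LinearMap.mem_ker, hθ] at hx
        rw [hx, map_zero]
      · rw [codisjoint_iff, eq_top_iff]
        intro y _
        have : y = φ (θ y) + (y - φ (θ y)) := by abel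
        rw [this]
        refine Submodule.add_mem _ (Submodule.mem_sup_left ⟨_, rfl⟩) (Submodule.mem_sup_right ?_)
        rw [LinearMap.mem_ker, map_sub, hθ, sub_self]
    rcases hN.2 _ _ hc with h1 | h1
    · have hnt := hM.1
      obtain ⟨x, hx⟩ := exists_ne (0 : M)
      have h2 : φ x ∈ LinearMap.range φ := ⟨x, rfl⟩
      rw [h1] at h2
      apply hx
      rw [← hθ x, (Submodule.mem_bot A).1 h2, map_zero]
    · rw [h1] at hc
      have h2 : LinearMap.range φ = ⊤ := by simpa using hc.sup_eq_top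
      exact hne.false (LinearEquiv.ofBijective φ ⟨hinj, LinearMap.range_eq_top.1 h2⟩)
  · exact h

end Dem
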