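import Pool.Agent.Helper7.Dem.Torsion

universe u

set_option linter.unusedSectionVars false

namespace Dem

variable {k A : Type u} [Field k] [Ring A] [Algebra k A]

/-- maps to a simple module kill superfluous submodules -/
lemma simple_kills {P S : Type u} [AddCommGroup P] [Module A P] [AddCommGroup S] [Module A S]
    (hS : IsSimpleModule A S) {T : Submodule A P} (hT : Superfluous T) (φ : P →ₗ[A] S) :
    T ≤ LinearMap.ker φ := by
  by_contra hcon
  have h1 : T.map φ ≠ ⊥ := by
    intro h
    apply hcon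
    intro x hx
    have : φ x ∈ T.map φ := ⟨x, hx, rfl⟩
    rw [h] at this
    simpa using this
  have h2 : T.map φ = ⊤ := (eq_bot_or_eq_top (T.map φ)).resolve_left h1
  have h3 : T ⊔ LinearMap.ker φ = ⊤ := by
    rw [eq_top_iff]
    intro x _
    have : φ x ∈ T.map φ := by rw [h2]; trivial
    obtain ⟨t, ht, htx⟩ := this
    have e : x = t + (x - t) := by abel
    rw [e]
    refine Submodule.add_mem _ (Submodule.mem_sup_left ht) (Submodule.mem_sup_right ?_)
    rw [LinearMap.mem_ker, map_sub, htx, sub_self]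
  have h4 := hT _ h3
  exact hcon (by rw [h4]; exact le_top)

lemma pre_zero {X : Pres k A} (hX : X.Minimal) {S : FDMod k A} (hS : IsSimpleModule A S) :
    pre k X.f S = 0 := by
  ext φ x
  have := simple_kills hS hX.1 φ ⟨x, rfl⟩
  simpa using this

lemma hd_M_simple {X : Pres k A} (hX : X.Minimal) {S : FDMod k A} (hS : IsSimpleModule A S) :
    hd k A X.M S = hd k A X.P0 S := by
  rw [← finrank_ker_pre, pre_zero hX hS, LinearMap.ker_zero, finrank_top]
  rfl

/-- `dim Hom (P1, S) = dim Hom (ker (P0 → M), S)` -/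
lemma hd_range_simple {X : Pres k A} (hX : X.Minimal) {S : FDMod k A}
    (hS : IsSimpleModule A S) :
    hd k A (LinearMap.range X.f) S = hd k A X.P1 S := by
  refine LinearEquiv.finrank_eq (R := k) ?_
  refine LinearEquiv.ofBijective (pre k X.f.rangeRestrict S) ⟨?_, ?_⟩
  · intro φ ψ h
    refine LinearMap.ext fun y => ?_
    obtain ⟨x, rfl⟩ := X.f.surjective_rangeRestrict y
    exact LinearMap.congr_fun h x
  · intro φ
    have h1 := simple_kills hS hX.2 φ
    have h2 : LinearMap.ker X.f.rangeRestrict ≤ LinearMap.ker φ := by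
      rw [LinearMap.ker_rangeRestrict]
      exact h1
    refine ⟨(LinearMap.ker X.f.rangeRestrict).liftQ φ h2 ∘ₗ
      (X.f.rangeRestrict.quotKerEquivOfSurjective X.f.surjective_rangeRestrict).symm.toLinearMap,
      ?_⟩
    refine LinearMap.ext fun x => ?_
    have h3 : (X.f.rangeRestrict.quotKerEquivOfSurjective
        X.f.surjective_rangeRestrict).symm (X.f.rangeRestrict x) = Submodule.Quotient.mk x := by
      rw [LinearEquiv.symm_apply_eq]
      rfl
    change (LinearMap.ker X.f.rangeRestrict).liftQ φ h2 ((X.f.rangeRestrict.quotKerEquivOfSurjective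
        X.f.surjective_rangeRestrict).symm (X.f.rangeRestrict x)) = φ x
    rw [h3]
    rfl

/-- uniqueness of projective covers, on kernels -/
lemma ker_equiv {X Y : Pres k A} (hX : X.Minimal) (hY : Y.Minimal) (e : X.M ≃ₗ[A] Y.M) :
    Nonempty (LinearMap.range X.f ≃ₗ[A] LinearMap.range Y.f) := by
  have lift : ∀ (X Y : Pres k A) (_ : Y.Minimal) (e : X.M ≃ₗ[A] Y.M),
      ∃ α : X.P0 →ₗ[A] Y.P0, Function.Surjective α ∧
        (LinearMap.range Y.f).mkQ ∘ₗ α = e.toLinearMap ∘ₗ (LinearMap.range X.f).mkQ := by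
    intro X Y hY e
    obtain ⟨α, hα⟩ := Module.projective_lifting_property (LinearMap.range Y.f).mkQ
      (e.toLinearMap ∘ₗ (LinearMap.range X.f).mkQ) (Submodule.mkQ_surjective _)
    refine ⟨α, ?_, hα⟩
    rw [← LinearMap.range_eq_top]
    apply hY.1
    rw [eq_top_iff]
    intro y _
    obtain ⟨x, hx⟩ := (e.surjective.comp (Submodule.mkQ_surjective _))
      ((LinearMap.range Y.f).mkQ y)
    have h1 := LinearMap.congr_fun hα x
    have h2 : (LinearMap.range Y.f).mkQ (y - α x) = 0 := by
      rw [map_sub]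
      change (LinearMap.range Y.f).mkQ y - ((LinearMap.range Y.f).mkQ ∘ₗ α) x = 0
      rw [hα, ← hx]
      exact sub_self _
    have h3 : y - α x ∈ LinearMap.range Y.f := by
      rwa [Submodule.mkQ_apply, Submodule.Quotient.mk_eq_zero] at h2
    have e : y = (y - α x) + α x := by abel
    rw [e]
    exact Submodule.add_mem _ (Submodule.mem_sup_left h3) (Submodule.mem_sup_right ⟨x, rfl⟩)
  obtain ⟨α, hα, hcomm⟩ := lift X Y hY e
  obtain ⟨β, hβ, -⟩ := lift Y X hX e.symm
  have h1 : Module.finrank k Y.P0 ≤ Module.finrank k X.P0 :=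
    LinearMap.finrank_le_finrank_of_surjective (f := α.restrictScalars k) hα
  have h2 : Module.finrank k X.P0 ≤ Module.finrank k Y.P0 :=
    LinearMap.finrank_le_finrank_of_surjective (f := β.restrictScalars k) hβ
  have h3 : Function.Injective α := by
    have := (LinearMap.injective_iff_surjective_of_finrank_eq_finrank (f := α.restrictScalars k)
      (le_antisymm h2 h1)).2 hα
    exact this
  have hmem : ∀ x, x ∈ LinearMap.range X.f ↔ α x ∈ LinearMap.range Y.f := by
    intro x
    have h4 := LinearMap.congr_fun hcomm x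
    simp only [LinearMap.coe_comp, Function.comp_apply, Submodule.mkQ_apply,
      LinearEquiv.coe_coe] at h4
    rw [← Submodule.Quotient.mk_eq_zero, ← Submodule.Quotient.mk_eq_zero (LinearMap.range Y.f),
      h4]
    exact e.map_eq_zero_iff.symm
  refine ⟨LinearEquiv.ofBijective (α.restrict (fun x hx => (hmem x).1 hx)) ⟨?_, ?_⟩⟩
  · intro x y hxy
    apply Subtype.ext
    apply h3
    exact congrArg Subtype.val hxy
  · rintro ⟨y, hy⟩
    obtain ⟨x, rfl⟩ := hα y
    exact ⟨⟨x, (hmem x).2 hy⟩, rfl⟩

/-- The `g`-vector of a minimal presentation depends only on the module. -/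
theorem chi_unique {X Y : Pres k A} (hX : X.Minimal) (hY : Y.Minimal) (e : X.M ≃ₗ[A] Y.M)
    {S : FDMod k A} (hS : IsSimpleModule A S) : chi k X S = chi k Y S := by
  obtain ⟨e'⟩ := ker_equiv hX hY e
  unfold chi
  rw [← hd_M_simple hX hS, ← hd_M_simple hY hS, ← hd_range_simple hX hS, ← hd_range_simple hY hS,
    hd_congr_left e, hd_congr_left e']

end Dem
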