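import Pool.Agent.Helper7.Dem.Elim
import Pool.Agent.Helper7.Dem.Uniq
import Pool.Agent.Helper7.Dem.AR

universe u

set_option linter.unusedSectionVars false

namespace Dem

variable {k A : Type u} [Field k] [Ring A] [Algebra k A]

/-- the zero module -/
abbrev zeroMod (k A : Type u) [Field k] [Ring A] [Algebra k A] : FDMod k A :=
  FDMod.of k A PUnit.{u + 1}

/-- the complex `0 → Q` -/
abbrev ofProj (Q : FDMod k A) (hQ : Module.Projective A Q) : Pres k A where
  P1 := zeroMod k A
  P0 := Q
  proj1 := inferInstanceAs (Module.Projective A PUnit.{u + 1})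
  proj0 := hQ
  f := 0

/-- the complex `Q → 0` -/
abbrev shift (Q : FDMod k A) (hQ : Module.Projective A Q) : Pres k A where
  P1 := Q
  P0 := zeroMod k A
  proj1 := hQ
  proj0 := inferInstanceAs (Module.Projective A PUnit.{u + 1})
  f := 0

section

variable (Q : FDMod k A) (hQ : Module.Projective A Q) (N : Type u) [AddCommGroup N] [Module k N]
  [Module A N] [IsScalarTower k A N] [Module.Finite k N]

lemma hd_zeroMod : hd k A (zeroMod k A) N = 0 := by
  rw [hd_eq_zero_iff]
  intro φ
  ext x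
  have : x = 0 := Subsingleton.elim _ _
  rw [this, map_zero, map_zero]

lemma chi_shift : chi k (shift Q hQ) N = - hd k A Q N := by
  unfold chi
  have := hd_zeroMod (k := k) (A := A) N
  simp only [this]
  simp

lemma chi_ofProj : chi k (ofProj Q hQ) N = hd k A Q N := by
  unfold chi
  have := hd_zeroMod (k := k) (A := A) N
  simp only [this]
  simp

lemma EZ_shift_iff : EZ (shift Q hQ) N ↔ hd k A Q N = 0 := by
  rw [hd_eq_zero_iff]
  constructor
  · intro h φ
    obtain ⟨g, hg⟩ := h φ
    rw [← hg]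
    exact LinearMap.comp_zero _
  · intro h g
    exact ⟨0, by rw [h g]; rfl⟩

lemma EZ_ofProj : EZ (ofProj Q hQ) N := by
  intro g
  refine ⟨0, ?_⟩
  ext x
  have : x = 0 := Subsingleton.elim _ _
  rw [this, map_zero, map_zero]

/-- the module of `0 → Q` -/
noncomputable def ofProjEquiv : (ofProj Q hQ).M ≃ₗ[A] Q :=
  Submodule.quotEquivOfEqBot _ (by rw [LinearMap.range_zero])

end

lemma Indec_congr {M N : Type u} [AddCommGroup M] [Module A M] [AddCommGroup N] [Module A N]
    (e : M ≃ₗ[A] N) (h : Indec A M) : Indec A N := by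
  obtain ⟨h1, h2⟩ := h
  refine ⟨e.symm.toEquiv.nontrivial, fun p q hpq => ?_⟩
  have h3 : IsCompl (p.comap e.toLinearMap) (q.comap e.toLinearMap) := by
    have := (Submodule.orderIsoMapComap e.symm).isCompl_iff.1 hpq
    simpa [Submodule.map_equiv_eq_comap_symm] using this
  have h4 : ∀ r : Submodule A N, r.comap e.toLinearMap = ⊥ → r = ⊥ := by
    intro r hr
    rw [eq_bot_iff]
    intro x hx
    have : e.symm x ∈ r.comap e.toLinearMap := by
      rw [Submodule.mem_comap]
      simpa using hx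
    rw [hr, Submodule.mem_bot] at this
    simpa using this
  rcases h2 _ _ h3 with h | h
  · exact Or.inl (h4 p h)
  · exact Or.inr (h4 q h)

/-- a compatible family of indecomposable rigid objects -/
structure Rig {ι κ : Type} (X : ι → Pres k A) (Q : κ → FDMod k A) : Prop where
  indec : ∀ i, Indec A (X i).M
  noniso : ∀ i j, i ≠ j → IsEmpty ((X i).M ≃ₗ[A] (X j).M)
  rigid : ∀ i j, EZ (X i) (X j).M
  projQ : ∀ j, Module.Projective A (Q j)
  indecQ : ∀ j, Indec A (Q j)
  nonisoQ : ∀ i j, i ≠ j → IsEmpty (Q i ≃ₗ[A] Q j)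
  homzero : ∀ i j, hd k A (Q j) (X i).M = 0

lemma IsTauRigidPair.rig [Module.Finite k A] {p q : ℕ} {X : Fin p → Pres k A}
    {Q : Fin q → FDMod k A} (h : IsTauRigidPair X Q) : Rig X Q where
  indec := h.indec
  noniso i j hij := not_nonempty_iff.1 (h.noniso i j hij)
  rigid i j := by
    rw [← ed_eq_zero_iff (k := k), ← hd_Tau, hd_eq_zero_iff]
    exact h.rigid j i
  projQ := h.projQ
  indecQ := h.indecQ
  nonisoQ i j hij := not_nonempty_iff.1 (h.nonisoQ i j hij)
  homzero i j := by
    rw [hd_eq_zero_iff]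
    exact h.homzero i j

lemma Rig.tau [Module.Finite k A] {p q : ℕ} {X : Fin p → Pres k A}
    {Q : Fin q → FDMod k A} (h : Rig X Q) (hmin : ∀ i, (X i).Minimal) : IsTauRigidPair X Q where
  minimal := hmin
  indec := h.indec
  noniso i j hij := not_nonempty_iff.2 (h.noniso i j hij)
  rigid i j := by
    have h1 : hd k A (X i).M (X j).Tau = 0 := by
      rw [hd_Tau, ed_eq_zero_iff (k := k)]
      exact h.rigid j i
    have h2 : ∀ φ : (X i).M →ₗ[A] (X j).Tau, φ = 0 := hd_eq_zero_iff.1 h1
    exact h2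
  projQ := h.projQ
  indecQ := h.indecQ
  nonisoQ i j hij := not_nonempty_iff.2 (h.nonisoQ i j hij)
  homzero i j := by
    have h2 : ∀ φ : Q j →ₗ[A] (X i).M, φ = 0 := hd_eq_zero_iff.1 (h.homzero i j)
    exact h2

section

variable {ι κ : Type} {X : ι → Pres k A} {Q : κ → FDMod k A}

lemma hd_quot_zero {P M N : Type u} [AddCommGroup P] [Module k P] [Module A P]
    [IsScalarTower k A P] [Module.Finite k P] [Module.Projective A P]
    [AddCommGroup M] [Module k M] [Module A M] [IsScalarTower k A M] [Module.Finite k M]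
    [AddCommGroup N] [Module k N] [Module A N] [IsScalarTower k A N] [Module.Finite k N]
    (π : M →ₗ[A] N) (hπ : Function.Surjective π) (h : hd k A P M = 0) : hd k A P N = 0 := by
  rw [hd_eq_zero_iff] at h ⊢
  intro φ
  obtain ⟨ψ, rfl⟩ := Module.projective_lifting_property π φ hπ
  rw [h ψ, LinearMap.comp_zero]

/-- Integrality for pairs -/
lemma Rig.integral [IsAlgClosed k] [Fintype ι] [Fintype κ] {n : ℕ} {S : Fin n → FDMod k A}
    (hS : CompleteSimples S)
    (h : Rig X Q) (a : ι → ℝ) (b : κ → ℝ) (v : Fin n → ℤ)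
    (hv : ∀ l, (v l : ℝ) = ∑ i, a i * ((X i).g S l : ℝ) -
      ∑ j, b j * (hd k A (Q j) (S l) : ℝ)) :
    (∀ i, ∃ z : ℤ, a i = z) ∧ (∀ j, ∃ z : ℤ, b j = z) := by
  classical
  have h1 : ∀ i, ∃ z : ℤ, a i = z := by
    intro i
    refine integrality hS X a Finset.univ (fun i _ => h.indec i) (fun i _ j _ => h.noniso i j)
      (fun i _ j _ => h.rigid i j) (fun l => - ∑ j, b j * (hd k A (Q j) (S l) : ℝ)) ?_ v ?_ i
      (Finset.mem_univ i)
    · rintro N ⟨i, -, π, hπ⟩
      have h2 : ∀ j, hd k A (Q j) N = 0 := by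
        intro j
        have := h.projQ j
        exact hd_quot_zero π hπ (h.homzero i j)
      have h3 : ∀ j, ∑ l, (hd k A (Q j) (S l) : ℝ) * (dv hS N l : ℝ) = 0 := by
        intro j
        have := hd_eq_sum hS N (Q j) (h.projQ j)
        rw [h2 j] at this
        have h4 := congrArg (fun z : ℕ => (z : ℝ)) this
        push_cast at h4
        exact h4.symm
      simp only [neg_mul, Finset.sum_neg_distrib, neg_eq_zero, Finset.sum_mul]
      rw [Finset.sum_comm]
      refine Finset.sum_eq_zero fun j _ => ?_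
      have : ∀ l, b j * (hd k A (Q j) (S l) : ℝ) * (dv hS N l : ℝ) =
        b j * ((hd k A (Q j) (S l) : ℝ) * (dv hS N l : ℝ)) := fun l => by ring
      rw [Finset.sum_congr rfl fun l _ => this l, ← Finset.mul_sum, h3, mul_zero]
    · intro l
      rw [hv l]
      ring
  refine ⟨h1, ?_⟩
  choose z hz using h1
  intro j
  let Y : κ → Pres k A := fun j => ofProj (Q j) (h.projQ j)
  refine integrality hS Y b Finset.univ ?_ ?_ ?_ (fun l => 0) ?_
    (fun l => ∑ i, z i * (X i).g S l - v l) ?_ j (Finset.mem_univ j)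
  · intro i _
    exact Indec_congr (ofProjEquiv (Q i) (h.projQ i)).symm (h.indecQ i)
  · intro i _ j _ hij
    refine ⟨fun e => (h.nonisoQ i j hij).false ?_⟩
    exact ((ofProjEquiv (Q i) (h.projQ i)).symm.trans e).trans (ofProjEquiv (Q j) (h.projQ j))
  · intro i _ j _
    exact EZ_ofProj (Q i) (h.projQ i) _
  · intro N _
    simp
  · intro l
    push_cast
    rw [hv l]
    have h2 : ∀ i, ((Y i).g S l : ℝ) = (hd k A (Q i) (S l) : ℝ) := by
      intro i
      have := chi_ofProj (Q i) (h.projQ i) (S l)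
      have h3 : (Y i).g S l = chi k (Y i) (S l) := rfl
      rw [h3, this]
      simp
    simp only [h2, hz, add_zero]
    ring

/-- Linear independence -/
lemma Rig.linInd [IsAlgClosed k] [Fintype ι] [Fintype κ] {n : ℕ} {S : Fin n → FDMod k A}
    (hS : CompleteSimples S)
    (h : Rig X Q) (a : ι → ℝ) (b : κ → ℝ)
    (hv : ∀ l, (0 : ℝ) = ∑ i, a i * ((X i).g S l : ℝ) -
      ∑ j, b j * (hd k A (Q j) (S l) : ℝ)) :
    (∀ i, a i = 0) ∧ (∀ j, b j = 0) := by
  have key : ∀ t : ℝ, (∀ i, ∃ z : ℤ, t * a i = z) ∧ (∀ j, ∃ z : ℤ, t * b j = z) := by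
    intro t
    refine h.integral hS (fun i => t * a i) (fun j => t * b j) (fun _ => 0) ?_
    intro l
    have h1 := congrArg (fun x => t * x) (hv l)
    simp only [mul_zero, mul_sub, Finset.mul_sum] at h1
    push_cast
    rw [h1]
    congr 1 <;> exact Finset.sum_congr rfl fun i _ => by ring
  have half : ∀ x : ℝ, (∀ t : ℝ, ∃ z : ℤ, t * x = z) → x = 0 := by
    intro x hx
    by_contra hne
    obtain ⟨z, hz⟩ := hx (1 / (2 * x))
    have h1 : (1 / (2 * x)) * x = 1 / 2 := by field_simp
    rw [h1] at hz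
    have h2 : (1 : ℝ) = 2 * z := by linarith
    have h3 : (1 : ℤ) = 2 * z := by exact_mod_cast h2
    omega
  exact ⟨fun i => half _ fun t => (key t).1 i, fun j => half _ fun t => (key t).2 j⟩

end

end Dem
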