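import Pool.Agent.Helper7.Dem.Basic

universe u

set_option linter.unusedSectionVars false

namespace Dem

variable {k A : Type u} [Field k] [Ring A] [Algebra k A]

/-- bundling -/
abbrev FDMod.of (k A N : Type u) [Field k] [Ring A] [Algebra k A] [AddCommGroup N] [Module k N]
    [Module A N] [IsScalarTower k A N] [Module.Finite k N] : FDMod k A := ⟨N⟩

variable {N N' : Type u} [AddCommGroup N] [Module k N] [Module A N] [IsScalarTower k A N]
  [Module.Finite k N]
  [AddCommGroup N'] [Module k N'] [Module A N'] [IsScalarTower k A N'] [Module.Finite k N']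

lemma noeth (k A N : Type u) [Field k] [Ring A] [Algebra k A] [AddCommGroup N] [Module k N]
    [Module A N] [IsScalarTower k A N] [Module.Finite k N] : IsNoetherian A N :=
  isNoetherian_of_tower k inferInstance

instance finSub (T : Submodule A N) : Module.Finite k T :=
  Module.Finite.of_injective (T.subtype.restrictScalars k) Subtype.val_injective

lemma EZ_prod {X : Pres k A} (h : EZ X N) (h' : EZ X N') : EZ X (N × N') := by
  intro g
  obtain ⟨a, ha⟩ := h ((LinearMap.fst A N N') ∘ₗ g)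
  obtain ⟨b, hb⟩ := h' ((LinearMap.snd A N N') ∘ₗ g)
  refine ⟨a.prod b, ?_⟩
  ext x
  · exact LinearMap.congr_fun ha x
  · exact LinearMap.congr_fun hb x

lemma EZ_sup {X : Pres k A} {T1 T2 : Submodule A N} (h1 : EZ X T1) (h2 : EZ X T2) :
    EZ X (T1 ⊔ T2 : Submodule A N) := by
  let q : (T1 × T2) →ₗ[A] (T1 ⊔ T2 : Submodule A N) :=
    (T1.subtype.coprod T2.subtype).codRestrict _ (by
      rintro ⟨x, y⟩
      simp only [LinearMap.coprod_apply, Submodule.subtype_apply]
      exact Submodule.add_mem _ (Submodule.mem_sup_left x.2) (Submodule.mem_sup_right y.2))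
  refine EZ_of_surj q ?_ (EZ_prod h1 h2)
  rintro ⟨z, hz⟩
  obtain ⟨x, hx, y, hy, rfl⟩ := Submodule.mem_sup.1 hz
  exact ⟨(⟨x, hx⟩, ⟨y, hy⟩), rfl⟩

include k in
lemma EZ_sSup {X : Pres k A} (s : Set (Submodule A N)) (h : ∀ T ∈ s, EZ X T) :
    EZ X (sSup s : Submodule A N) := by
  have := noeth k A N
  obtain ⟨t, ht, he⟩ := CompleteLattice.WellFoundedGT.isSupFiniteCompact (Submodule A N) s
  rw [he]
  clear he
  induction t using Finset.cons_induction with
  | empty =>
    rw [Finset.sup_empty]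
    exact EZ_bot X
  | cons a t ha ih =>
    rw [Finset.sup_cons]
    refine EZ_sup (h _ (ht ?_)) (ih ?_)
    · simp
    · intro x hx
      exact ht (by simp [Finset.mem_coe.1 hx])

include k in
lemma EZ_iSup {X : Pres k A} {ι : Sort*} (T : ι → Submodule A N) (h : ∀ i, EZ X (T i)) :
    EZ X (⨆ i, T i : Submodule A N) := by
  rw [iSup]
  refine EZ_sSup _ ?_
  rintro _ ⟨i, rfl⟩
  exact h i

/-- the largest submodule in `EZ` -/
def tz (X : Pres k A) (N : Type u) [AddCommGroup N] [Module A N] : Submodule A N :=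
  sSup {T | EZ X T}

include k in
lemma EZ_tz (X : Pres k A) : EZ X (tz X N) := EZ_sSup _ fun _ h => h

lemma le_tz {X : Pres k A} {T : Submodule A N} (h : EZ X T) : T ≤ tz X N := le_sSup h

lemma EZ_comap {X : Pres k A} (q : N →ₗ[A] N') (hq : Function.Surjective q)
    (S : Submodule A N') (h1 : EZ X (LinearMap.ker q)) (h2 : EZ X S) :
    EZ X (S.comap q) := by
  let π : (S.comap q) →ₗ[A] S := q.restrict (fun x hx => hx)
  refine EZ_of_ker π ?_ ?_ h2
  · rintro ⟨y, hy⟩
    obtain ⟨x, rfl⟩ := hq y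
    exact ⟨⟨x, hy⟩, rfl⟩
  · let r : (LinearMap.ker q) →ₗ[A] (LinearMap.ker π) :=
      { toFun := fun x => ⟨⟨x.1, by
            rw [Submodule.mem_comap, (LinearMap.mem_ker.1 x.2)]; exact S.zero_mem⟩, by
            rw [LinearMap.mem_ker]; apply Subtype.ext; exact x.2⟩
        map_add' := fun _ _ => rfl
        map_smul' := fun _ _ => rfl }
    refine EZ_of_surj r ?_ h1
    rintro ⟨⟨x, hx⟩, hx'⟩
    refine ⟨⟨x, ?_⟩, rfl⟩
    rw [LinearMap.mem_ker] at hx' ⊢
    exact congrArg Subtype.val hx'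

lemma EZ_range {X : Pres k A} {M : Type u} [AddCommGroup M] [Module A M] [Module k M]
    [IsScalarTower k A M] (φ : M →ₗ[A] N) (h : EZ X M) : EZ X (LinearMap.range φ) :=
  EZ_of_surj φ.rangeRestrict φ.surjective_rangeRestrict h

include k in
lemma HZ_quot_tz {X : Pres k A} (hX : EZ X X.M) : HZ X (N ⧸ tz X N) := by
  intro φ
  have h1 : EZ X (LinearMap.range φ) := EZ_range φ hX
  have h2 : EZ X ((LinearMap.range φ).comap (tz X N).mkQ) := by
    refine EZ_comap _ (Submodule.mkQ_surjective _) _ ?_ h1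
    rw [Submodule.ker_mkQ]
    exact EZ_tz X
  have h3 := le_tz h2
  refine LinearMap.ext fun m => ?_
  obtain ⟨n, hn⟩ := Submodule.mkQ_surjective _ (φ m)
  have h4 : n ∈ tz X N := h3 (by
    rw [Submodule.mem_comap, hn]
    exact ⟨m, rfl⟩)
  rw [← hn, LinearMap.zero_apply, Submodule.mkQ_apply, Submodule.Quotient.mk_eq_zero]
  exact h4

lemma hd_eq_of_HZ_quot {X : Pres k A} (T : Submodule A N) (h : HZ X (N ⧸ T)) :
    hd k A X.M T = hd k A X.M N := by
  refine LinearEquiv.finrank_eq (R := k) ?_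
  refine LinearEquiv.ofBijective (post k X.M T.subtype) ⟨?_, ?_⟩
  · intro φ ψ h
    refine LinearMap.ext fun x => ?_
    exact Subtype.ext (LinearMap.congr_fun h x)
  · intro φ
    have h1 := h (T.mkQ ∘ₗ φ)
    refine ⟨φ.codRestrict T ?_, ?_⟩
    · intro x
      have h2 := LinearMap.congr_fun h1 x
      simpa using h2
    · refine LinearMap.ext fun x => ?_
      rfl

lemma chi_add (X : Pres k A) (T : Submodule A N) :
    chi k X N = chi k X T + chi k X (N ⧸ T) := by
  unfold chi
  rw [hd_add (P := X.P0) T, hd_add (P := X.P1) T]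
  push_cast
  ring

lemma chi_congr (X : Pres k A) (e : N ≃ₗ[A] N') : chi k X N = chi k X N' := by
  unfold chi
  rw [hd_congr_right e, hd_congr_right e]

section T

variable {X : Pres k A} (hX : EZ X X.M)
include hX

lemma hd_eq_chi_tz : (hd k A X.M N : ℤ) = chi k X (tz X N) := by
  rw [chi_of_EZ X (EZ_tz (k := k) X), hd_eq_of_HZ_quot _ (HZ_quot_tz (k := k) hX)]

lemma ed_eq_neg_chi_quot : (ed k X N : ℤ) = - chi k X (N ⧸ tz X N) := by
  have h1 := chi_eq (k := k) (N := N) X
  have h2 := chi_add (k := k) (N := N) X (tz X N)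
  have h3 := hd_eq_chi_tz (k := k) (N := N) hX
  omega

end T

/-- the key inequality -/
theorem star {U V W : Pres k A} (hU : EZ U U.M) (hW : EZ W W.M)
    (hg : ∀ L : FDMod k A, chi k W L = chi k U L + chi k V L) :
    ed k W U.M = 0 ∨ ed k W U.M + 1 ≤ ed k V U.M := by
  have h1 := ed_eq_neg_chi_quot (k := k) (N := U.M) hW
  have h2 := hg (FDMod.of k A (U.M ⧸ tz W U.M))
  rcases subsingleton_or_nontrivial (U.M ⧸ tz W U.M) with hs | hs
  · left
    rw [ed_eq_zero_iff]
    have : tz W U.M = ⊤ := Submodule.Quotient.subsingleton_iff.1 hs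
    have h3 := EZ_tz (k := k) (N := U.M) W
    rw [this] at h3
    exact EZ_congr Submodule.topEquiv h3
  · right
    have hEZ : EZ U (U.M ⧸ tz W U.M) := EZ_of_surj _ (Submodule.mkQ_surjective _) hU
    have h3 := chi_of_EZ (k := k) U hEZ
    have h4 : hd k A U.M (U.M ⧸ tz W U.M) ≠ 0 := by
      intro h0
      have h5 := hd_eq_zero_iff.1 h0 (tz W U.M).mkQ
      obtain ⟨x, y, hxy⟩ := hs
      obtain ⟨x, rfl⟩ := Submodule.mkQ_surjective _ x
      obtain ⟨y, rfl⟩ := Submodule.mkQ_surjective _ y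
      apply hxy
      rw [h5]
      simp
    have h5 := neg_chi_le_ed (k := k) (N := U.M ⧸ tz W U.M) V
    have h6 : ed k V (U.M ⧸ tz W U.M) ≤ ed k V U.M :=
      ed_le_of_surj _ (Submodule.mkQ_surjective _)
    change chi k W (U.M ⧸ tz W U.M) = chi k U (U.M ⧸ tz W U.M) + chi k V (U.M ⧸ tz W U.M) at h2
    omega

end Dem
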