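import Pool.Agent.Helper7.Dem.Mediant

universe u

set_option linter.unusedSectionVars false

namespace Dem

variable {k A : Type u} [Field k] [Ring A] [Algebra k A]

/-- `B` has a nonzero quotient in `EZ U ∩ HZ U`. -/
def HasQuot (U : Pres k A) (B : FDMod k A) : Prop :=
  ∃ T : Submodule A B, T ≠ ⊤ ∧ EZ U (B ⧸ T) ∧ HZ U (B ⧸ T)

section

variable {S : Fin 2 → FDMod k A} (hS : CompleteSimples S)

include hS in
theorem find [IsAlgClosed k] [Module.Finite k A]
    (hfan : ∀ v : Fin 2 → ℤ, InFan S (fun l => (v l : ℝ))) (m : ℕ) :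
    ∀ U V : Pres k A, U.Minimal → Indec A U.M → EZ U U.M → EZ V V.M →
      ((V.Minimal ∧ Indec A V.M) ∨ V.g S 0 = 0) →
      1 ≤ U.g S 0 → U.g S 1 ≤ 0 → 0 ≤ V.g S 0 → V.g S 1 ≤ -1 →
      U.g S 1 * V.g S 0 - U.g S 0 * V.g S 1 = 1 → ed k V U.M ≤ m →
      ∃ (l : List (FDMod k A)) (X : Pres k A), X.Minimal ∧ Indec A X.M ∧ EZ X X.M ∧
        1 ≤ X.g S 0 ∧ X.g S 1 ≤ 0 ∧ X.g S 1 * V.g S 0 - X.g S 0 * V.g S 1 = 1 ∧ EZ V X.M ∧
        ∀ B : FDMod k A, IsBrick A B → EZ U B → ¬ EZ V B →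
          (∃ N ∈ l, Nonempty (B ≃ₗ[A] N)) ∨ HasQuot U B := by
  induction m using Nat.strong_induction_on with
  | _ m ih =>
    intro U V hUm hUi hU hV hVa hu0 hu1 hv0 hv1 hdet hm
    by_cases hcomp : EZ V U.M
    · refine ⟨[], U, hUm, hUi, hU, hu0, hu1, hdet, hcomp, fun B _ hUB hVB => Or.inr ?_⟩
      refine ⟨tz V B, ?_, ?_, ?_⟩
      · intro h
        apply hVB
        have h1 := EZ_tz (k := k) (N := B) V
        rw [h] at h1
        exact EZ_congr Submodule.topEquiv h1
      · exact EZ_of_surj (tz V B).mkQ (Submodule.mkQ_surjective _) hUB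
      · intro φ
        exact map_quot_tz_zero hcomp φ
    · have hpos : 1 ≤ ed k V U.M := by
        by_contra hcon
        apply hcomp
        rw [← ed_eq_zero_iff (k := k)]
        omega
      obtain ⟨W, hWm, hWi, hW, hWg⟩ := mediant hS hUm hUi hU hV hVa hu0 hu1 hv0 hv1 hdet hcomp
        (hfan (fun l => U.g S l + V.g S l))
      have hw0 := hWg 0
      have hw1 := hWg 1
      have hchi : ∀ L : FDMod k A, chi k W L = chi k U L + chi k V L := by
        intro L
        rw [chi_two hS W L, chi_two hS U L, chi_two hS V L, hw0, hw1]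
        ring
      have hs1 := star hU hW hchi
      have hs2 := star' (U := V) (V := U) (W := W) hV hW
        (fun L => by rw [hchi L]; ring)
      have hdet1 : U.g S 1 * W.g S 0 - U.g S 0 * W.g S 1 = 1 := by
        rw [hw0, hw1]
        linear_combination hdet
      have hdet2 : W.g S 1 * V.g S 0 - W.g S 0 * V.g S 1 = 1 := by
        rw [hw0, hw1]
        linear_combination hdet
      obtain ⟨l1, X1, hX1m, hX1i, hX1, hx0, hx1, hxdet, hWX1, h1⟩ :=
        ih (m - 1) (by omega) U W hUm hUi hU hW (Or.inl ⟨hWm, hWi⟩) hu0 hu1 (by omega)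
          (by omega) hdet1 (by omega)
      obtain ⟨l2, X2, hX2m, hX2i, hX2, hy0, hy1, hydet, hVX2, h2⟩ :=
        ih (m - 1) (by omega) W V hWm hWi hW hV hVa (by omega) (by omega) hv0 hv1 hdet2
          (by omega)
      refine ⟨l1 ++ l2 ++ [FDMod.of k A (X1.M ⧸ JM A X1.M)], X2, hX2m, hX2i, hX2, hy0, hy1,
        hydet, hVX2, ?_⟩
      intro B hB hUB hVB
      by_cases hWB : EZ W B
      · rcases h2 B hB hWB hVB with ⟨N, hN, e⟩ | hq
        · left
          exact ⟨N, by simp [hN], e⟩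
        · left
          have h3 := key hS hX1m hX1i hX1 hWm hWi hW hx0 (by omega) hxdet hWX1 B hB hWB hq
          exact ⟨FDMod.of k A (X1.M ⧸ JM A X1.M), by simp, h3⟩
      · rcases h1 B hB hUB hWB with ⟨N, hN, e⟩ | hq
        · left
          exact ⟨N, by simp [hN], e⟩
        · right
          exact hq

include hS in
/-- The class `(1, 0)`. -/
lemma root_U [IsAlgClosed k] [Module.Finite k A]
    (hfan : ∀ v : Fin 2 → ℤ, InFan S (fun l => (v l : ℝ))) :
    ∃ U : Pres k A, U.Minimal ∧ Indec A U.M ∧ EZ U U.M ∧ U.g S 0 = 1 ∧ U.g S 1 = 0 := by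
  obtain ⟨p, q, X, Q, hpair, c, hc, hw⟩ := fan_integral hS ![1, 0] (hfan _)
  have hrig := hpair.rig
  have hw0 : 1 = ∑ s, c s * Gv X Q S s 0 := hw 0
  have hw1 : 0 = ∑ s, c s * Gv X Q S s 1 := hw 1
  have hpos0 : ∀ s, 0 ≤ Gv X Q S s 0 := by
    have h1 : ∃ s, 0 < c s * Gv X Q S s 0 := by
      by_contra hcon
      push Not at hcon
      have := Finset.sum_nonpos (s := Finset.univ) (fun s _ => hcon s)
      omega
    obtain ⟨s, hs⟩ := h1
    exact hrig.sign' hS s 0 (posof hs (hc s))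
  obtain ⟨s, hs1, -⟩ := sum_one _ (fun s => mul_nonneg (hc s) (hpos0 s)) hw0.symm
  have hcs : c s = 1 := Int.eq_one_of_mul_eq_one_right (hc s) hs1
  have hGs : Gv X Q S s 0 = 1 := Int.eq_one_of_mul_eq_one_left (hpos0 s) hs1
  have hG1 : c s * Gv X Q S s 1 = 0 := by
    have h2 : ∀ t, c t * Gv X Q S t 1 ≤ 0 := by
      intro t
      by_contra hcon
      push Not at hcon
      have h3 := hrig.sign' hS t 1 (posof hcon (hc t))
      have h4 : c t * Gv X Q S t 1 ≤ ∑ s, c s * Gv X Q S s 1 :=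
        Finset.single_le_sum (f := fun s => c s * Gv X Q S s 1)
          (fun s _ => mul_nonneg (hc s) (h3 s)) (Finset.mem_univ t)
      omega
    exact (Finset.sum_eq_zero_iff_of_nonpos (fun t _ => h2 t)).1 hw1.symm s (Finset.mem_univ s)
  rw [hcs, one_mul] at hG1
  rcases s with i | j
  · exact ⟨X i, hpair.minimal i, hrig.indec i, hrig.rigid i i, hGs, hG1⟩
  · exfalso
    rw [Gv_inr] at hGs
    omega

include hS in
/-- The class `(0, -1)`. -/
lemma root_V [IsAlgClosed k] [Module.Finite k A]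
    (hfan : ∀ v : Fin 2 → ℤ, InFan S (fun l => (v l : ℝ))) :
    ∃ V : Pres k A, EZ V V.M ∧ V.g S 0 = 0 ∧ V.g S 1 = -1 := by
  obtain ⟨p, q, X, Q, hpair, c, hc, hw⟩ := fan_integral hS ![0, -1] (hfan _)
  have hrig := hpair.rig
  have hw0 : 0 = ∑ s, c s * Gv X Q S s 0 := hw 0
  have hw1 : -1 = ∑ s, c s * Gv X Q S s 1 := hw 1
  have hneg1 : ∀ s, Gv X Q S s 1 ≤ 0 := by
    intro s
    by_contra hcon
    push Not at hcon
    have h1 := hrig.sign' hS s 1 hcon
    have h2 : 0 ≤ ∑ s, c s * Gv X Q S s 1 :=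
      Finset.sum_nonneg fun t _ => mul_nonneg (hc t) (h1 t)
    omega
  obtain ⟨s, hs1, -⟩ := sum_one (fun s => c s * (-Gv X Q S s 1))
    (fun s => mul_nonneg (hc s) (by have := hneg1 s; omega))
    (by simp only [mul_neg, Finset.sum_neg_distrib]; omega)
  have hcs : c s = 1 := Int.eq_one_of_mul_eq_one_right (hc s) hs1
  have hGs : -Gv X Q S s 1 = 1 :=
    Int.eq_one_of_mul_eq_one_left (by have := hneg1 s; omega) hs1
  have hG0 : c s * Gv X Q S s 0 = 0 := by
    have h2 : ∀ t, c t * Gv X Q S t 0 ≤ 0 := by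
      intro t
      by_contra hcon
      push Not at hcon
      have h3 := hrig.sign' hS t 0 (posof hcon (hc t))
      have h4 : c t * Gv X Q S t 0 ≤ ∑ s, c s * Gv X Q S s 0 :=
        Finset.single_le_sum (f := fun s => c s * Gv X Q S s 0)
          (fun s _ => mul_nonneg (hc s) (h3 s)) (Finset.mem_univ t)
      omega
    exact (Finset.sum_eq_zero_iff_of_nonpos (fun t _ => h2 t)).1 hw0.symm s (Finset.mem_univ s)
  rw [hcs, one_mul] at hG0
  rcases s with i | j
  · refine ⟨X i, hrig.rigid i i, hG0, ?_⟩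
    rw [Gv_inl] at hGs
    omega
  · refine ⟨shift (Q j) (hrig.projQ j), ?_, ?_, ?_⟩
    · have : Subsingleton (shift (Q j) (hrig.projQ j)).M := by
        have : Subsingleton (zeroMod k A) := inferInstanceAs (Subsingleton PUnit)
        exact (Submodule.mkQ_surjective _).subsingleton
      exact EZ_of_subsingleton (k := k)
    · rw [Gv_inr] at hG0
      have := chi_shift (Q j) (hrig.projQ j) (S 0)
      change (shift (Q j) (hrig.projQ j)).g S 0 = _ at this
      omega
    · rw [Gv_inr] at hGs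
      have := chi_shift (Q j) (hrig.projQ j) (S 1)
      change (shift (Q j) (hrig.projQ j)).g S 1 = _ at this
      omega

include hS in
/-- Finitely many bricks with top `S 0` and containing `S 1`. -/
theorem quadrant [IsAlgClosed k] [Module.Finite k A]
    (hfan : ∀ v : Fin 2 → ℤ, InFan S (fun l => (v l : ℝ))) :
    ∃ l : List (FDMod k A), ∀ B : FDMod k A, IsBrick A B → (∀ φ : B →ₗ[A] S 1, φ = 0) →
      (∃ φ : S 1 →ₗ[A] B, φ ≠ 0) → ∃ N ∈ l, Nonempty (B ≃ₗ[A] N) := by
  obtain ⟨U, hUm, hUi, hU, hu0, hu1⟩ := root_U hS hfan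
  obtain ⟨V, hV, hv0, hv1⟩ := root_V hS hfan
  obtain ⟨l, -, -, -, -, -, -, -, -, hl⟩ := find hS hfan (ed k V U.M) U V hUm hUi hU hV
    (Or.inr hv0) (by omega) (by omega) (by omega) (by omega)
    (by rw [hu0, hu1, hv0, hv1]; norm_num) le_rfl
  -- `EZ U` holds for all modules
  have hEU : ∀ N : FDMod k A, EZ U N := by
    intro N
    rw [← ed_eq_zero_iff (k := k)]
    have h1 := ed_eq_neg_chi_quot (k := k) (N := N) hU
    have h2 := chi_two hS U (FDMod.of k A (N ⧸ tz U N))
    change chi k U (N ⧸ tz U N) = _ at h2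
    rw [hu0, hu1] at h2
    have h3 : (0 : ℤ) ≤ dv hS (FDMod.of k A (N ⧸ tz U N)) 0 := by positivity
    rw [h2] at h1
    omega
  -- `HZ V` holds for all modules
  have hHV : ∀ N : FDMod k A, hd k A V.M N = 0 := by
    intro N
    have h1 := hd_eq_chi_tz (k := k) (N := N) hV
    have h2 := chi_two hS V (FDMod.of k A (tz V N))
    change chi k V (tz V N) = _ at h2
    rw [hv0, hv1] at h2
    have h3 : (0 : ℤ) ≤ dv hS (FDMod.of k A (tz V N)) 1 := by positivity
    rw [h2] at h1
    omega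
  refine ⟨l, fun B hB hB1 hB2 => ?_⟩
  have hVB : ¬ EZ V B := by
    intro h
    obtain ⟨φ, hφ⟩ := hB2
    have := hS.simple 1
    have hinj : Function.Injective φ := (LinearMap.injective_or_eq_zero φ).resolve_right hφ
    have h1 := chi_add (k := k) V (LinearMap.range φ)
    have h2 : chi k V (LinearMap.range φ) = -1 := by
      rw [← chi_congr V (LinearEquiv.ofInjective φ hinj)]
      exact hv1
    have h3 := chi_le_hd (k := k) (N := (B ⧸ LinearMap.range φ)) V
    have h4 := hHV (FDMod.of k A (B ⧸ LinearMap.range φ))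
    change hd k A V.M (B ⧸ LinearMap.range φ) = 0 at h4
    have h5 := chi_of_EZ (k := k) V h
    have h6 := hHV B
    omega
  rcases hl B hB (hEU B) hVB with h | ⟨T, hT, -, hHT⟩
  · exact h
  · exfalso
    have hnt : Nontrivial (B ⧸ T) := Submodule.Quotient.nontrivial_iff.2 hT
    have hnt' : Nontrivial (FDMod.of k A (B ⧸ T)) := hnt
    obtain ⟨i, ψ, hψ⟩ := exists_map_simple hS (FDMod.of k A (B ⧸ T))
    have key : ∀ i, ∀ ψ : (B ⧸ T) →ₗ[A] S i, Function.Surjective ψ → False := by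
      rw [Fin.forall_fin_two]
      constructor
      · intro ψ hψ
        have h1 : hd k A U.M (S 0) = 1 := by
          have h2 := chi_of_EZ (k := k) U (hEU (S 0))
          have h3 : chi k U (S 0) = 1 := hu0
          omega
        have h2 : ∃ χ : U.M →ₗ[A] S 0, χ ≠ 0 := by
          by_contra hcon
          push Not at hcon
          rw [← hd_eq_zero_iff (k := k)] at hcon
          omega
        obtain ⟨χ, hχ⟩ := h2
        obtain ⟨θ, hθ⟩ := lift_of_EZ_ker ψ hψ (hEU (FDMod.of k A (LinearMap.ker ψ))) χ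
        rw [hHT θ, LinearMap.comp_zero] at hθ
        exact hχ hθ.symm
      · intro ψ hψ
        have h1 := hB1 (ψ ∘ₗ T.mkQ)
        have h2 : Function.Surjective (ψ ∘ₗ T.mkQ) := hψ.comp T.mkQ_surjective
        have := (hS.simple 1).nontrivial
        obtain ⟨x, hx⟩ := exists_ne (0 : S 1)
        obtain ⟨y, hy⟩ := h2 x
        rw [h1] at hy
        exact hx hy.symm
    exact key i ψ hψ

end

/-- swapping the two simples -/
lemma swap_complete {S : Fin 2 → FDMod k A} (hS : CompleteSimples S) :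
    CompleteSimples (S ∘ Equiv.swap (0 : Fin 2) 1) where
  simple i := hS.simple _
  noniso i j hij := hS.noniso _ _ (fun h => hij ((Equiv.swap (0 : Fin 2) 1).injective h))
  complete N hN := by
    obtain ⟨i, hi⟩ := hS.complete N hN
    refine ⟨Equiv.swap (0 : Fin 2) 1 i, ?_⟩
    rw [Function.comp_apply, Equiv.swap_apply_self]
    exact hi

lemma swap_fan {S : Fin 2 → FDMod k A}
    (hfan : ∀ v : Fin 2 → ℤ, InFan S (fun l => (v l : ℝ))) (v : Fin 2 → ℤ) :
    InFan (S ∘ Equiv.swap (0 : Fin 2) 1) (fun l => (v l : ℝ)) := by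
  obtain ⟨p, q, X, Q, hpair, a, b, ha, hb, hv⟩ := hfan (v ∘ Equiv.swap (0 : Fin 2) 1)
  refine ⟨p, q, X, Q, hpair, a, b, ha, hb, fun l => ?_⟩
  have := hv (Equiv.swap (0 : Fin 2) 1 l)
  simp only [Function.comp_apply, Equiv.swap_apply_self] at this
  exact this

/-- **Demonet's conjecture in rank two** (integral form). -/
theorem rank_two [IsAlgClosed k] [Module.Finite k A] {S : Fin 2 → FDMod k A}
    (hS : CompleteSimples S)
    (hfan : ∀ v : Fin 2 → ℤ, InFan S (fun l => (v l : ℝ))) : BrickFinite k A := by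
  obtain ⟨l1, h1⟩ := quadrant hS hfan
  obtain ⟨l2, h2⟩ := quadrant (swap_complete hS) (swap_fan hfan)
  refine ⟨[S 0, S 1] ++ l1 ++ l2, fun B hB => ?_⟩
  by_cases hsim : ∃ i, Nonempty (B ≃ₗ[A] S i)
  · obtain ⟨i, hi⟩ := hsim
    refine ⟨S i, ?_, hi⟩
    revert hi
    revert i
    rw [Fin.forall_fin_two]
    exact ⟨fun _ => by simp, fun _ => by simp⟩
  · have hnt := hB.1
    obtain ⟨i, π, hπ⟩ := exists_map_simple hS B
    obtain ⟨j, κ, hκ⟩ := exists_map_from_simple hS B
    -- a simple quotient is not a simple submodule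
    have hdis : ∀ i, (∃ π : B →ₗ[A] S i, π ≠ 0) → (∃ κ : S i →ₗ[A] B, κ ≠ 0) → False := by
      rintro i ⟨π, hπ⟩ ⟨κ, hκ⟩
      have := hS.simple i
      have hinj : Function.Injective κ := (LinearMap.injective_or_eq_zero κ).resolve_right hκ
      have hne : (κ ∘ₗ π) ≠ 0 := by
        intro h0
        apply hπ
        ext x
        apply hinj
        have := LinearMap.congr_fun h0 x
        simpa using this
      have hbij := hB.2 _ hne
      have hsurj : Function.Surjective π := LinearMap.surjective_of_ne_zero hπ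
      have hinj' : Function.Injective π := by
        intro x y hxy
        apply hbij.1
        change κ (π x) = κ (π y)
        rw [hxy]
      exact hsim ⟨i, ⟨LinearEquiv.ofBijective π ⟨hinj', hsurj⟩⟩⟩
    have hπ0 : π ≠ 0 := by
      rintro rfl
      have := (hS.simple i).nontrivial
      obtain ⟨x, hx⟩ := exists_ne (0 : S i)
      obtain ⟨y, hy⟩ := hπ x
      exact hx hy.symm
    have hκ0 : κ ≠ 0 := by
      rintro rfl
      have := (hS.simple j).nontrivial
      obtain ⟨x, hx⟩ := exists_ne (0 : S j)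
      apply hx
      apply hκ
      simp
    have hij : i ≠ j := by
      rintro rfl
      exact hdis i ⟨π, hπ0⟩ ⟨κ, hκ0⟩
    have hcases : (i = 0 ∧ j = 1) ∨ (i = 1 ∧ j = 0) := by omega
    rcases hcases with ⟨rfl, rfl⟩ | ⟨rfl, rfl⟩
    · obtain ⟨N, hN, e⟩ := h1 B hB (fun φ => by
        by_contra hne
        exact hdis 1 ⟨φ, hne⟩ ⟨κ, hκ0⟩) ⟨κ, hκ0⟩
      exact ⟨N, by simp [hN], e⟩
    · have e1 : (S ∘ Equiv.swap (0 : Fin 2) 1) 1 = S 0 := by simp
      obtain ⟨N, hN, e⟩ := h2 B hB (by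
        rw [e1]
        intro φ
        by_contra hne
        exact hdis 0 ⟨φ, hne⟩ ⟨κ, hκ0⟩) (by
        rw [e1]
        exact ⟨κ, hκ0⟩)
      exact ⟨N, by simp [hN], e⟩

end Dem
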